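import Pool.Agent.R183.PL.Defs

/-! Part C: the pick lemma and its iteration. -/

open Classical

namespace Pool.Agent.R183.PL

variable {P L : Type} [DecidableEq P] (G : LineSys P L)

theorem Conn.mono {Br Br' : Finset P} (h : Br ⊆ Br') {l : L} {k j : ℤ} (hc : Conn G Br' l k j) :
    Conn G Br l k j := fun i h1 h2 h3 => hc i h1 h2 (h h3)

theorem On.mono {Br Br' : Finset P} (h : Br ⊆ Br') {r : Ray L} {q : P} (hc : On G Br' r q) :
    On G Br r q := by
  obtain ⟨j, h1, h2, h3⟩ := hc
  exact ⟨j, h1, h2, Conn.mono G h h3⟩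

theorem V_cons (W : ℕ) (Cl Br : Finset P) (r : Ray L) (t : List (Ray L)) (q : P) :
    V G W Cl Br (r :: t) q = (if q ∈ Cl then 0 else if On G Br r q then W ^ r.st else 0)
      + V G W Cl Br t q := by
  unfold V
  split_ifs <;> simp [*]

theorem V_nil (W : ℕ) (Cl Br : Finset P) (q : P) : V G W Cl Br [] q = 0 := by
  simp [V]

theorem V_mono (W : ℕ) {Cl Cl' Br Br' : Finset P} (hC : Cl ⊆ Cl') (hB : Br ⊆ Br')
    (t : List (Ray L)) (q : P) : V G W Cl' Br' t q ≤ V G W Cl Br t q := by
  induction t with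
  | nil => simp [V_nil]
  | cons r t ih =>
    rw [V_cons, V_cons]
    refine Nat.add_le_add ?_ ih
    by_cases h1 : q ∈ Cl'
    · simp [h1]
    · have h2 : q ∉ Cl := fun h => h1 (hC h)
      simp only [h1, h2, if_false]
      by_cases h3 : On G Br' r q
      · simp [h3, On.mono G hB h3]
      · simp [h3]

theorem V_claimed (W : ℕ) {Cl : Finset P} (Br : Finset P) (t : List (Ray L)) {q : P} (h : q ∈ Cl) :
    V G W Cl Br t q = 0 := by
  simp [V, h]

theorem V_pos_exists {W : ℕ} {Cl Br : Finset P} {t : List (Ray L)} {q : P}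
    (h : 0 < V G W Cl Br t q) : q ∉ Cl ∧ ∃ r ∈ t, On G Br r q := by
  induction t with
  | nil => simp [V_nil] at h
  | cons r t ih =>
    by_cases hq : q ∈ Cl
    · rw [V_claimed G W Br _ hq] at h
      omega
    · refine ⟨hq, ?_⟩
      by_cases h3 : On G Br r q
      · exact ⟨r, by simp, h3⟩
      · rw [V_cons] at h
        simp only [hq, h3, if_false, Nat.zero_add] at h
        obtain ⟨_, r', h4, h5⟩ := ih h
        exact ⟨r', by simp [h4], h5⟩

theorem mu_mono (W p : ℕ) {Cl Cl' Br Br' : Finset P} (hC : Cl ⊆ Cl') (hB : Br ⊆ Br')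
    (r : Ray L) (t : List (Ray L)) : mu G W p Cl' Br' r t ≤ mu G W p Cl Br r t := by
  unfold mu
  refine Finset.sum_le_sum fun q _ => ?_
  by_cases h3 : On G Br' r q
  · simp only [h3, On.mono G hB h3, if_true]
    exact Nat.pow_le_pow_left (V_mono G W hC hB t q) p
  · simp [h3]

theorem NS_mono {Cl Cl' Br Br' : Finset P} (hC : Cl ⊆ Cl') (hB : Br ⊆ Br') {r : Ray L}
    (h : NS G Cl' Br' r) : NS G Cl Br r := by
  obtain ⟨q, h1, h2⟩ := h
  exact ⟨q, fun h => h1 (hC h), On.mono G hB h2⟩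

theorem ns_le {Cl Cl' Br Br' : Finset P} (hC : Cl ⊆ Cl') (hB : Br ⊆ Br') (r : Ray L) :
    (if NS G Cl' Br' r then 1 else 0) ≤ (if NS G Cl Br r then 1 else 0) := by
  by_cases h : NS G Cl' Br' r
  · simp [h, NS_mono G hC hB h]
  · simp [h]

theorem pot_mono (W p : ℕ) {Cl Cl' Br Br' : Finset P} (hC : Cl ⊆ Cl') (hB : Br ⊆ Br')
    (t : List (Ray L)) : pot G W p Cl' Br' t ≤ pot G W p Cl Br t := by
  induction t with
  | nil => simp [pot]
  | cons r t ih =>
    simp only [pot]
    refine Nat.add_le_add (Nat.mul_le_mul_left _ (Nat.add_le_add (ns_le G hC hB r) ?_)) ih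
    exact Nat.size_le_size (mu_mono G W p hC hB r t)

/-- the index of `q` -/
theorem near {Cl Br : Finset P} {r : Ray L} (h : NS G Cl Br r) :
    ∃ c, c ∉ Cl ∧ ¬ NS G (insert c Cl) (insert c Br) r := by
  have hex : ∃ n : ℕ, ∃ j, side r.s r.k j ∧ (j - r.k).natAbs = n ∧ G.pt r.l j ∉ Cl ∧
      Conn G Br r.l r.k j := by
    obtain ⟨q, h1, j, h2, h3, h4⟩ := h
    exact ⟨_, j, h2, rfl, by rw [h3]; exact h1, h4⟩
  obtain ⟨j, h1, h2, h3, h4⟩ := Nat.find_spec hex
  refine ⟨G.pt r.l j, h3, ?_⟩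
  rintro ⟨q, h5, j', h6, h7, h8⟩
  have h9 : Conn G Br r.l r.k j' := Conn.mono G (Finset.subset_insert _ _) h8
  have h10 : q ∉ Cl := fun h => h5 (Finset.mem_insert_of_mem h)
  have h11 := Nat.find_min' hex ⟨j', h6, rfl, by rw [h7]; exact h10, h9⟩
  rw [← h2] at h11
  refine h8 j ?_ ?_ (Finset.mem_insert_self _ _)
  · unfold side at h1 h6
    split_ifs at h1 h6 <;> omega
  · unfold side at h1 h6
    split_ifs at h1 h6 <;> omega

theorem drop_near (W p : ℕ) {Cl Cl' Br Br' : Finset P} (hC : Cl ⊆ Cl') (hB : Br ⊆ Br')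
    {t : List (Ray L)} {r : Ray L} (hr : r ∈ t) (h1 : NS G Cl Br r) (h2 : ¬ NS G Cl' Br' r) :
    pot G W p Cl' Br' t + W ^ r.st ≤ pot G W p Cl Br t := by
  induction t with
  | nil => simp at hr
  | cons a t ih =>
    simp only [pot]
    rcases List.mem_cons.1 hr with rfl | hr'
    · have h3 := Nat.size_le_size (mu_mono G W p hC hB r t)
      have h4 := pot_mono G W p hC hB t
      simp only [h1, h2, if_true, if_false]
      have h5 : W ^ r.st * (0 + (mu G W p Cl' Br' r t).size) + W ^ r.st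
          ≤ W ^ r.st * (1 + (mu G W p Cl Br r t).size) := by
        have := Nat.mul_le_mul_left (W ^ r.st) h3
        nlinarith
      omega
    · have h3 := ih hr'
      have h4 := Nat.size_le_size (mu_mono G W p hC hB a t)
      have h5 := ns_le G hC hB a
      have h6 := Nat.mul_le_mul_left (W ^ a.st) (Nat.add_le_add h5 h4)
      omega

/-- sums over (ray, older rays) -/
noncomputable def sumT (f : Ray L → List (Ray L) → ℕ) : List (Ray L) → ℕ
  | [] => 0
  | r :: t => f r t + sumT f t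

theorem sumT_le {f g : Ray L → List (Ray L) → ℕ} :
    ∀ {t : List (Ray L)}, (∀ r t', (r :: t') <:+ t → f r t' ≤ g r t') → sumT f t ≤ sumT g t := by
  intro t
  induction t with
  | nil => intro _; simp [sumT]
  | cons r t ih =>
    intro h
    simp only [sumT]
    refine Nat.add_le_add (h r t (List.suffix_refl _)) (ih fun r' t' h' => h r' t' ?_)
    exact h'.trans (List.suffix_cons _ _)

theorem sumT_mul (c : ℕ) (f : Ray L → List (Ray L) → ℕ) (t : List (Ray L)) :
    sumT (fun r t' => c * f r t') t = c * sumT f t := by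
  induction t with
  | nil => simp [sumT]
  | cons r t ih => simp only [sumT, ih]; ring

theorem sumT_sum (X : Finset P) (f : P → Ray L → List (Ray L) → ℕ) (t : List (Ray L)) :
    sumT (fun r t' => ∑ q ∈ X, f q r t') t = ∑ q ∈ X, sumT (f q) t := by
  induction t with
  | nil => simp [sumT]
  | cons r t ih =>
    simp only [sumT, ih]
    rw [← Finset.sum_add_distrib]

theorem pow_step (a b p : ℕ) (h : b ≤ a) :
    a ^ (p + 1) ≤ b ^ (p + 1) + (p + 1) * (a - b) * a ^ p := by
  induction p with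
  | zero => simp; omega
  | succ p ih =>
    obtain ⟨c, rfl⟩ := Nat.exists_eq_add_of_le h
    simp only [Nat.add_sub_cancel_left] at *
    have h1 : b ^ (p + 1) ≤ (b + c) ^ (p + 1) := Nat.pow_le_pow_left (by omega) _
    have h2 : (b + c) * (b + c) ^ (p + 1)
        ≤ (b + c) * (b ^ (p + 1) + (p + 1) * c * (b + c) ^ p) := Nat.mul_le_mul_left _ ih
    have h3 : c * b ^ (p + 1) ≤ c * (b + c) ^ (p + 1) := Nat.mul_le_mul_left _ h1
    calc (b + c) ^ (p + 1 + 1) = (b + c) * (b + c) ^ (p + 1) := by ring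
      _ ≤ (b + c) * (b ^ (p + 1) + (p + 1) * c * (b + c) ^ p) := h2
      _ = b ^ (p + 1 + 1) + c * b ^ (p + 1) + (p + 1) * c * (b + c) ^ (p + 1) := by ring
      _ ≤ b ^ (p + 1 + 1) + c * (b + c) ^ (p + 1) + (p + 1) * c * (b + c) ^ (p + 1) := by omega
      _ = b ^ (p + 1 + 1) + (p + 1 + 1) * c * (b + c) ^ (p + 1) := by ring

/-- telescoping lower bound at a point -/
theorem point_lower (W p wm : ℕ) (Cl Br : Finset P) (q : P) (hq : q ∉ Cl) :
    ∀ t : List (Ray L), (∀ r ∈ t, On G Br r q → W ^ r.st ≤ wm) →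
    (V G W Cl Br t q - wm) ^ (p + 1) ≤
      (p + 1) * sumT (fun r t' => if On G Br r q then W ^ r.st * V G W Cl Br t' q ^ p else 0) t := by
  intro t
  induction t with
  | nil => intro _; simp [V_nil, sumT]
  | cons r t ih =>
    intro h
    have h1 := ih fun r' hr' => h r' (List.mem_cons_of_mem _ hr')
    rw [V_cons]
    simp only [hq, if_false, sumT]
    by_cases h3 : On G Br r q
    · have h4 := h r (List.mem_cons_self ..) h3
      simp only [h3, if_true]
      set x := V G W Cl Br t q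
      set w := W ^ r.st
      set S := sumT (fun r t' => if On G Br r q then W ^ r.st * V G W Cl Br t' q ^ p else 0) t
      have h5 := pow_step (w + x - wm) (x - wm) p (by omega)
      have h6 : (w + x - wm) - (x - wm) ≤ w := by omega
      have h7 : (w + x - wm) ^ p ≤ x ^ p := Nat.pow_le_pow_left (by omega) p
      have h8 : (p + 1) * ((w + x - wm) - (x - wm)) * (w + x - wm) ^ p ≤ (p + 1) * w * x ^ p :=
        Nat.mul_le_mul (Nat.mul_le_mul_left _ h6) h7
      calc (w + x - wm) ^ (p + 1) ≤ (x - wm) ^ (p + 1) +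
            (p + 1) * ((w + x - wm) - (x - wm)) * (w + x - wm) ^ p := h5
        _ ≤ (p + 1) * S + (p + 1) * w * x ^ p := Nat.add_le_add h1 h8
        _ = (p + 1) * (w * x ^ p + S) := by ring
    · simp only [h3, if_false, Nat.zero_add]
      exact h1

end Pool.Agent.R183.PL
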