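import Pool.Agent.R183.PL.C

/-! Part C, second file: the good pick. -/

open Classical

namespace Pool.Agent.R183.PL

variable {P L : Type} [DecidableEq P] (G : LineSys P L)

/-- distance of `q` from the anchor of `r` (junk off the ray) -/
noncomputable def dist (r : Ray L) (q : P) : ℕ :=
  if h : ∃ j, G.pt r.l j = q then (h.choose - r.k).natAbs else 0

theorem dist_eq (r : Ray L) {j : ℤ} {q : P} (h : G.pt r.l j = q) :
    dist G r q = (j - r.k).natAbs := by
  have h1 : ∃ j, G.pt r.l j = q := ⟨j, h⟩
  unfold dist
  rw [dif_pos h1]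
  have h2 := h1.choose_spec
  have h3 : h1.choose = j := G.inj r.l (by rw [h2, h])
  rw [h3]

theorem dist_inj {Br Br' : Finset P} {r : Ray L} {q q' : P} (h : On G Br r q) (h' : On G Br' r q')
    (hd : dist G r q = dist G r q') : q = q' := by
  obtain ⟨j, h1, h2, _⟩ := h
  obtain ⟨j', h1', h2', _⟩ := h'
  rw [dist_eq G r h2, dist_eq G r h2'] at hd
  have : j = j' := by
    unfold side at h1 h1'
    split_ifs at h1 h1' <;> omega
  rw [← h2, ← h2', this]

/-- the points of the ray that are nearer than q -/
noncomputable def nearMass (W p : ℕ) (Cl Br : Finset P) (r : Ray L) (t : List (Ray L)) (q : P) : ℕ :=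
  ∑ q' ∈ cross G r t, if On G Br r q' ∧ dist G r q' < dist G r q then V G W Cl Br t q' ^ p else 0

/-- a good point of the ray -/
def Good (W p : ℕ) (Cl Br : Finset P) (r : Ray L) (t : List (Ray L)) (q : P) : Prop :=
  q ∈ cross G r t ∧ On G Br r q ∧ 0 < V G W Cl Br t q ∧
    2 * nearMass G W p Cl Br r t q ≤ mu G W p Cl Br r t

theorem good_half (W p : ℕ) (Cl Br : Finset P) (r : Ray L) (t : List (Ray L)) (hp : 1 ≤ p) :
    mu G W p Cl Br r t ≤
      2 * ∑ q ∈ cross G r t, if Good G W p Cl Br r t q then V G W Cl Br t q ^ p else 0 := by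
  set m : P → ℕ := fun q => if On G Br r q then V G W Cl Br t q ^ p else 0 with hm
  have hmu : mu G W p Cl Br r t = ∑ q ∈ cross G r t, m q := rfl
  set bad : P → Prop := fun q => On G Br r q ∧ 0 < V G W Cl Br t q ∧
    mu G W p Cl Br r t < 2 * nearMass G W p Cl Br r t q with hbad
  set B := (cross G r t).filter bad with hB
  have hgood : ∑ q ∈ cross G r t, (if Good G W p Cl Br r t q then V G W Cl Br t q ^ p else 0)
      = ∑ q ∈ (cross G r t).filter (fun q => ¬ bad q), m q := by
    rw [Finset.sum_filter]
    refine Finset.sum_congr rfl fun q hq => ?_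
    by_cases h1 : On G Br r q
    · by_cases h2 : 0 < V G W Cl Br t q
      · by_cases h3 : 2 * nearMass G W p Cl Br r t q ≤ mu G W p Cl Br r t
        · have h4 : Good G W p Cl Br r t q := ⟨hq, h1, h2, h3⟩
          have h5 : ¬ bad q := fun h => by have := h.2.2; omega
          simp [h4, h5, hm, h1]
        · have h4 : ¬ Good G W p Cl Br r t q := fun h => h3 h.2.2.2
          have h5 : bad q := ⟨h1, h2, by omega⟩
          simp [h4, h5]
      · have h4 : ¬ Good G W p Cl Br r t q := fun h => h2 h.2.2.1
        have h6 : V G W Cl Br t q = 0 := by omega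
        have h7 : p ≠ 0 := by omega
        simp [h4, hm, h6, h7]
    · have h4 : ¬ Good G W p Cl Br r t q := fun h => h1 h.2.1
      simp [h4, hm, h1]
  rw [hgood]
  have hsplit : ∑ q ∈ cross G r t, m q = ∑ q ∈ B, m q
      + ∑ q ∈ (cross G r t).filter (fun q => ¬ bad q), m q := by
    rw [hB, Finset.sum_filter_add_sum_filter_not]
  rcases B.eq_empty_or_nonempty with hE | hne
  · have h0 : ∑ q ∈ B, m q = 0 := by rw [hE]; simp
    omega
  · obtain ⟨b, hb, hmin⟩ := Finset.exists_min_image B (dist G r) hne
    have hb' : b ∈ cross G r t ∧ bad b := Finset.mem_filter.1 hb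
    -- the bad points and the points nearer than b are disjoint
    have h1 : ∑ q ∈ B, m q + nearMass G W p Cl Br r t b ≤ mu G W p Cl Br r t := by
      rw [hmu]
      have h2 : nearMass G W p Cl Br r t b
          = ∑ q ∈ (cross G r t).filter (fun q => dist G r q < dist G r b), m q := by
        unfold nearMass
        rw [Finset.sum_filter]
        refine Finset.sum_congr rfl fun q _ => ?_
        by_cases h3 : On G Br r q <;> by_cases h4 : dist G r q < dist G r b <;> simp [hm, h3, h4]
      rw [h2, ← Finset.sum_union]
      · refine Finset.sum_le_sum_of_subset ?_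
        intro q hq
        rcases Finset.mem_union.1 hq with hq | hq
        · exact (Finset.mem_filter.1 hq).1
        · exact (Finset.mem_filter.1 hq).1
      · rw [Finset.disjoint_left]
        intro q hq hq'
        have := hmin q hq
        have := (Finset.mem_filter.1 hq').2
        omega
    have h3 := hb'.2.2.2
    omega

/-- size drops by one when the number is at least halved -/
theorem size_drop {a b : ℕ} (h : 2 * a ≤ b) (hb : 0 < b) : a.size + 1 ≤ b.size := by
  rcases Nat.eq_zero_or_pos a with rfl | ha
  · simp only [Nat.size_zero]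
    exact Nat.size_pos.2 hb
  · have h1 : (2 * a).size = a.size + 1 := by
      have := Nat.size_bit (b := false) (n := a) (by simp [Nat.bit]; omega)
      simpa [Nat.bit] using this
    rw [← h1]
    exact Nat.size_le_size h

/-- all crossing points -/
noncomputable def crossAll : List (Ray L) → Finset P
  | [] => ∅
  | r :: t => cross G r t ∪ crossAll t

theorem cross_card (r : Ray L) (t : List (Ray L)) : (cross G r t).card ≤ t.length := by
  induction t with
  | nil =>
    have : cross G r [] = ∅ := by
      ext q
      simp [cross, crossSet]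
    simp [this]
  | cons a t ih =>
    by_cases h : ∃ q, a.l ≠ r.l ∧ (∃ i, G.pt r.l i = q) ∧ ∃ j, G.pt a.l j = q
    · obtain ⟨q0, h1, ⟨i0, hi0⟩, ⟨j0, hj0⟩⟩ := h
      have hsub : cross G r (a :: t) ⊆ insert q0 (cross G r t) := by
        intro q hq
        simp only [cross, Set.Finite.mem_toFinset, crossSet, Set.mem_ofPred_eq, Finset.mem_insert] at *
        obtain ⟨r', hr', h2, ⟨i, hi⟩, ⟨j, hj⟩⟩ := hq
        rcases List.mem_cons.1 hr' with rfl | hr'
        · left
          by_contra hne
          apply h2
          refine (G.meet r.l r'.l i i0 j j0 (by rw [hi, hj]) (by rw [hi0, hj0]) ?_).symm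
          rintro rfl
          exact hne (by rw [← hi, ← hi0])
        · right
          exact ⟨r', hr', h2, ⟨i, hi⟩, ⟨j, hj⟩⟩
      calc (cross G r (a :: t)).card ≤ (insert q0 (cross G r t)).card := Finset.card_le_card hsub
        _ ≤ (cross G r t).card + 1 := Finset.card_insert_le _ _
        _ ≤ (a :: t).length := by simp; exact ih
    · have hsub : cross G r (a :: t) ⊆ cross G r t := by
        intro q hq
        simp only [cross, Set.Finite.mem_toFinset, crossSet, Set.mem_ofPred_eq] at *
        obtain ⟨r', hr', h2, h3, h4⟩ := hq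
        rcases List.mem_cons.1 hr' with rfl | hr'
        · exact absurd ⟨q, h2, h3, h4⟩ h
        · exact ⟨r', hr', h2, h3, h4⟩
      calc (cross G r (a :: t)).card ≤ (cross G r t).card := Finset.card_le_card hsub
        _ ≤ (a :: t).length := by simp; omega

theorem crossAll_card (t : List (Ray L)) : (crossAll G t).card ≤ t.length ^ 2 := by
  induction t with
  | nil => simp [crossAll]
  | cons r t ih =>
    have h1 := cross_card G r t
    calc (crossAll G (r :: t)).card ≤ (cross G r t).card + (crossAll G t).card :=
          Finset.card_union_le _ _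
      _ ≤ t.length + t.length ^ 2 := by omega
      _ ≤ (r :: t).length ^ 2 := by simp; nlinarith

theorem mem_cross_of {Br : Finset P} {r r' : Ray L} {t : List (Ray L)} {q : P} (hr' : r' ∈ t)
    (hl : r'.l ≠ r.l) (h : On G Br r q) (h' : On G Br r' q) : q ∈ cross G r t := by
  simp only [cross, Set.Finite.mem_toFinset, crossSet, Set.mem_ofPred_eq]
  obtain ⟨j, _, h2, _⟩ := h
  obtain ⟨j', _, h2', _⟩ := h'
  exact ⟨r', hr', hl, ⟨j, h2⟩, ⟨j', h2'⟩⟩

theorem SLD.tail {Br : Finset P} {r : Ray L} {t : List (Ray L)} (h : SLD G Br (r :: t)) :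
    SLD G Br t := (List.pairwise_cons.1 h).2

theorem SLD.suffix {Br : Finset P} {t' t : List (Ray L)} (h : SLD G Br t) (hs : t' <:+ t) :
    SLD G Br t' := List.Pairwise.sublist hs.sublist h

theorem mem_cross_of_V {W : ℕ} {Cl Br : Finset P} {r : Ray L} {t : List (Ray L)} {q : P}
    (hD : SLD G Br (r :: t)) (h : On G Br r q) (hV : 0 < V G W Cl Br t q) : q ∈ cross G r t := by
  obtain ⟨_, r', hr', h2⟩ := V_pos_exists G hV
  by_cases hl : r'.l = r.l
  · exact absurd ⟨h, h2⟩ ((List.pairwise_cons.1 hD).1 r' hr' hl.symm q)
  · exact mem_cross_of G hr' hl h h2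

theorem mem_crossAll_of_suffix {r : Ray L} {t' t : List (Ray L)} (hs : (r :: t') <:+ t) {q : P}
    (h : q ∈ cross G r t') : q ∈ crossAll G t := by
  induction t with
  | nil => simp at hs
  | cons a t ih =>
    rcases List.suffix_cons_iff.1 hs with h1 | h1
    · injection h1 with h2 h3
      subst h2 h3
      exact Finset.mem_union_left _ h
    · exact Finset.mem_union_right _ (ih h1)

theorem mem_crossAll {W : ℕ} {Cl Br : Finset P} {q : P} :
    ∀ {t : List (Ray L)}, SLD G Br t → 0 < V G W Cl Br t q →
    (∀ r ∈ t, On G Br r q → W ^ r.st < V G W Cl Br t q) → q ∈ crossAll G t := by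
  intro t
  induction t with
  | nil => intro _ h; simp [V_nil] at h
  | cons r t ih =>
    intro hD hV hw
    have hq : q ∉ Cl := (V_pos_exists G hV).1
    rw [V_cons] at hV hw
    simp only [hq, if_false] at hV hw
    by_cases h : On G Br r q
    · simp only [h, if_true] at hV hw
      have h1 := hw r (List.mem_cons_self ..) h
      exact Finset.mem_union_left _ (mem_cross_of_V G hD h (by omega : 0 < V G W Cl Br t q))
    · simp only [h, if_false, Nat.zero_add] at hV hw
      exact Finset.mem_union_right _
        (ih (SLD.tail G hD) hV fun r' hr' => hw r' (List.mem_cons_of_mem _ hr'))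

end Pool.Agent.R183.PL
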