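import Pool.Agent.R183.PL.C2

/-! Part C, third file: the step and its iteration. -/

open Classical

namespace Pool.Agent.R183.PL

variable {P L : Type} [DecidableEq P] (G : LineSys P L)

theorem V_suffix (W : ℕ) (Cl Br : Finset P) {t' t : List (Ray L)} (h : t' <:+ t) (q : P) :
    V G W Cl Br t' q ≤ V G W Cl Br t q := by
  induction t with
  | nil => rw [List.suffix_nil.1 h]
  | cons r t ih =>
    rcases List.suffix_cons_iff.1 h with h1 | h1
    · rw [h1]
    · rw [V_cons]
      have := ih h1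
      omega

theorem mu_after (W p : ℕ) (Cl Br : Finset P) (r : Ray L) (t : List (Ray L)) (q : P)
    (h : On G Br r q) :
    mu G W p (insert q Cl) (insert q Br) r t ≤ nearMass G W p Cl Br r t q := by
  unfold mu nearMass
  refine Finset.sum_le_sum fun q' _ => ?_
  by_cases h1 : On G (insert q Br) r q'
  · have h2 : On G Br r q' := On.mono G (Finset.subset_insert _ _) h1
    have h3 : dist G r q' < dist G r q := by
      obtain ⟨j, hj1, hj2, hj3⟩ := h
      obtain ⟨j', hj1', hj2', hj3'⟩ := h1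
      rw [dist_eq G r hj2, dist_eq G r hj2']
      by_contra hlt
      have h4 := hj3' j
      refine h4 ?_ ?_ (by rw [hj2]; exact Finset.mem_insert_self _ _)
      · unfold side at hj1 hj1'
        split_ifs at hj1 hj1' <;> omega
      · unfold side at hj1 hj1'
        split_ifs at hj1 hj1' <;> omega
    simp only [h1, h2, h3, and_self, if_true]
    exact Nat.pow_le_pow_left
      (V_mono G W (Finset.subset_insert _ _) (Finset.subset_insert _ _) t q') p
  · simp [h1]

noncomputable def Gd (W p : ℕ) (Cl Br : Finset P) (q : P) (t : List (Ray L)) : ℕ :=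
  sumT (fun r t' => if Good G W p Cl Br r t' q then W ^ r.st else 0) t

theorem pot_pick (W p : ℕ) (hp : 1 ≤ p) (Cl Br : Finset P) (q : P) (t : List (Ray L)) :
    pot G W p (insert q Cl) (insert q Br) t + Gd G W p Cl Br q t ≤ pot G W p Cl Br t := by
  have hC : Cl ⊆ insert q Cl := Finset.subset_insert _ _
  have hB : Br ⊆ insert q Br := Finset.subset_insert _ _
  induction t with
  | nil => simp [pot, Gd, sumT]
  | cons r t ih =>
    unfold Gd at ih ⊢
    simp only [pot, sumT]
    by_cases h : Good G W p Cl Br r t q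
    · obtain ⟨h1, h2, h3, h4⟩ := h
      have h0 : Good G W p Cl Br r t q := ⟨h1, h2, h3, h4⟩
      have h5 := mu_after G W p Cl Br r t q h2
      have h6 : 0 < mu G W p Cl Br r t := by
        unfold mu
        refine Finset.sum_pos' (fun _ _ => Nat.zero_le _) ⟨q, h1, ?_⟩
        simp only [h2, if_true]
        exact pow_pos h3 p
      have h7 := size_drop (show 2 * mu G W p (insert q Cl) (insert q Br) r t
        ≤ mu G W p Cl Br r t by omega) h6
      have h8 := ns_le G hC hB r
      have h9 := Nat.mul_le_mul_left (W ^ r.st) (Nat.add_le_add h8 h7)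
      simp only [h0, if_true]
      have h10 : ∀ a b c : ℕ, W ^ r.st * (a + (b + 1)) = W ^ r.st * (a + b) + W ^ r.st := by
        intro a b _; ring
      rw [h10 _ _ 0] at h9
      omega
    · have h8 := ns_le G hC hB r
      have h7 := Nat.size_le_size (mu_mono G W p hC hB r t)
      have h9 := Nat.mul_le_mul_left (W ^ r.st) (Nat.add_le_add h8 h7)
      simp only [h, if_false]
      omega

theorem arith_key (Vs v p : ℕ) (hp : 1 ≤ p) (hv : Vs ≤ 2 * v) :
    Vs * v ^ p ≤ 8 * (v - (Vs - 1) / (4 * p)) ^ (p + 1) := by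
  set wm := (Vs - 1) / (4 * p) with hwm
  have h1 : 4 * p * wm ≤ Vs := by
    have := Nat.mul_div_le (Vs - 1) (4 * p)
    rw [← hwm] at this
    omega
  have h2 : 2 * p * wm ≤ v := by nlinarith
  have h3 : wm ≤ v := by nlinarith
  have h2r : (2 : ℝ) * p * wm ≤ v := by exact_mod_cast h2
  have hpr : (1 : ℝ) ≤ p := by exact_mod_cast hp
  have hwr : (0 : ℝ) ≤ wm := by positivity
  have hvr : (0 : ℝ) ≤ v := by positivity
  have hVr : (Vs : ℝ) ≤ 2 * v := by exact_mod_cast hv
  have h4 : ((v - wm : ℕ) : ℝ) = (v : ℝ) - wm := by push_cast [h3]; ring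
  have h5 : (v : ℝ) * (1 - 1 / (2 * p)) ≤ (v : ℝ) - wm := by
    have h51 : (wm : ℝ) ≤ v / (2 * p) := by
      rw [le_div_iff₀ (by positivity)]
      linarith
    have h52 : (v : ℝ) * (1 - 1 / (2 * p)) = v - v / (2 * p) := by ring
    rw [h52]
    linarith
  have h6 : (1 : ℝ) / 2 ≤ (1 - 1 / (2 * p)) ^ p := by
    have h61 := one_add_mul_le_pow (a := -(1 / (2 * (p : ℝ)))) (by
      have : 1 / (2 * (p : ℝ)) ≤ 1 / 2 := by
        apply one_div_le_one_div_of_le (by norm_num)
        linarith
      linarith) p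
    have h62 : (1 : ℝ) + p * -(1 / (2 * (p : ℝ))) = 1 / 2 := by
      field_simp
      norm_num
    rw [h62] at h61
    have h63 : (1 : ℝ) + -(1 / (2 * (p : ℝ))) = 1 - 1 / (2 * p) := by ring
    rw [h63] at h61
    exact h61
  have h7 : (0 : ℝ) ≤ 1 - 1 / (2 * p) := by
    have : 1 / (2 * (p : ℝ)) ≤ 1 / 2 := by
      apply one_div_le_one_div_of_le (by norm_num)
      linarith
    linarith
  have h8 : (v : ℝ) ^ p * (1 / 2) ≤ ((v : ℝ) - wm) ^ p := by
    calc (v : ℝ) ^ p * (1 / 2) ≤ (v : ℝ) ^ p * (1 - 1 / (2 * p)) ^ p := by gcongr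
      _ = ((v : ℝ) * (1 - 1 / (2 * p))) ^ p := by rw [mul_pow]
      _ ≤ ((v : ℝ) - wm) ^ p := pow_le_pow_left₀ (by positivity) h5 p
  have h9 : (Vs : ℝ) / 4 ≤ (v : ℝ) - wm := by
    have : (wm : ℝ) ≤ v / 2 := by nlinarith
    linarith
  have hVs0 : (0 : ℝ) ≤ Vs := by positivity
  have h81 : (0 : ℝ) ≤ ((v : ℝ) - wm) ^ p := pow_nonneg (by linarith) p
  have h10 : (Vs : ℝ) * v ^ p ≤ 8 * ((v : ℝ) - wm) ^ (p + 1) := by
    calc (Vs : ℝ) * v ^ p = 8 * ((v : ℝ) ^ p * (1 / 2) * (Vs / 4)) := by ring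
      _ ≤ 8 * (((v : ℝ) - wm) ^ p * ((v : ℝ) - wm)) := by
          gcongr
      _ = 8 * ((v : ℝ) - wm) ^ (p + 1) := by ring
  rw [← h4] at h10
  exact_mod_cast h10

theorem step (W p : ℕ) (Cl Br : Finset P) (t : List (Ray L)) (hW : 1 ≤ W) (hp : 1 ≤ p)
    (hD : SLD G Br t) (hX : t.length ^ 2 ≤ 2 ^ p) (q0 : P)
    (hq0 : 0 < V G W Cl Br t q0) (hmax : ∀ q, V G W Cl Br t q ≤ V G W Cl Br t q0) :
    ∃ c, c ∉ Cl ∧ V G W Cl Br t q0 + 32 * (p + 1) * pot G W p (insert c Cl) (insert c Br) t
      ≤ 32 * (p + 1) * pot G W p Cl Br t := by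
  set Vs := V G W Cl Br t q0 with hVs
  by_cases hcase : ∃ r ∈ t, NS G Cl Br r ∧ Vs ≤ 4 * p * W ^ r.st
  · obtain ⟨r, hr, h1, h2⟩ := hcase
    obtain ⟨c, h3, h4⟩ := near G h1
    refine ⟨c, h3, ?_⟩
    have h5 := drop_near G W p (Finset.subset_insert c Cl) (Finset.subset_insert c Br) hr h1 h4
    have h6 := Nat.mul_le_mul_left (32 * (p + 1)) h5
    nlinarith
  · push Not at hcase
    by_contra hcon
    push Not at hcon
    set X := (crossAll G t).filter (fun q => q ∉ Cl) with hXdef
    have hXcard : X.card ≤ 2 ^ p :=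
      ((Finset.card_filter_le _ _).trans (crossAll_card G t)).trans hX
    have hq0Cl : q0 ∉ Cl := (V_pos_exists G hq0).1
    -- bound of the good sums
    have hG : ∀ q ∈ X, 32 * (p + 1) * Gd G W p Cl Br q t ≤ Vs - 1 := by
      intro q hq
      have h1 := hcon q (Finset.mem_filter.1 hq).2
      have h2 := Nat.mul_le_mul_left (32 * (p + 1)) (pot_pick G W p hp Cl Br q t)
      rw [Nat.mul_add] at h2
      omega
    set F : P → Ray L → List (Ray L) → ℕ :=
      fun q r t' => if On G Br r q then W ^ r.st * V G W Cl Br t' q ^ p else 0 with hF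
    -- claim C
    have hCc : ∑ q ∈ X, sumT (F q) t ≤ sumT (fun r t' => W ^ r.st * mu G W p Cl Br r t') t := by
      rw [← sumT_sum]
      refine sumT_le fun r t' hs => ?_
      unfold mu
      rw [Finset.mul_sum]
      have h1 : ∑ q ∈ X, F q r t' ≤ ∑ q ∈ cross G r t', F q r t' := by
        refine Finset.sum_le_sum_of_ne_zero fun q _ hne => ?_
        simp only [hF] at hne
        by_cases h2 : On G Br r q
        · simp only [h2, if_true] at hne
          have h3 : 0 < V G W Cl Br t' q := by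
            rcases Nat.eq_zero_or_pos (V G W Cl Br t' q) with h4 | h4
            · exfalso
              apply hne
              rw [h4, zero_pow (by omega)]
              simp
            · exact h4
          exact mem_cross_of_V G (SLD.suffix G hD hs) h2 h3
        · simp [h2] at hne
      refine h1.trans (Finset.sum_le_sum fun q _ => ?_)
      simp only [hF]
      split_ifs <;> simp
    -- claim D
    have hDd : sumT (fun r t' => W ^ r.st * mu G W p Cl Br r t') t
        ≤ 2 * ∑ q ∈ X, Gd G W p Cl Br q t * V G W Cl Br t q ^ p := by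
      have h1 : ∀ q ∈ X, Gd G W p Cl Br q t * V G W Cl Br t q ^ p
          = sumT (fun r t' => if Good G W p Cl Br r t' q then
              V G W Cl Br t q ^ p * W ^ r.st else 0) t := by
        intro q _
        unfold Gd
        rw [mul_comm, ← sumT_mul]
        congr 1
        funext r t'
        split_ifs <;> simp
      rw [Finset.sum_congr rfl h1, ← sumT_sum, ← sumT_mul]
      refine sumT_le fun r t' hs => ?_
      have h2 := good_half G W p Cl Br r t' hp
      have h3 : ∑ q ∈ cross G r t', (if Good G W p Cl Br r t' q then V G W Cl Br t' q ^ p else 0)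
          * W ^ r.st ≤ ∑ q ∈ X, if Good G W p Cl Br r t' q then
              V G W Cl Br t q ^ p * W ^ r.st else 0 := by
        have h4 : ∑ q ∈ cross G r t', (if Good G W p Cl Br r t' q then V G W Cl Br t' q ^ p else 0)
            * W ^ r.st ≤ ∑ q ∈ X, (if Good G W p Cl Br r t' q then V G W Cl Br t' q ^ p else 0)
            * W ^ r.st := by
          refine Finset.sum_le_sum_of_ne_zero fun q hq hne => ?_
          by_cases h5 : Good G W p Cl Br r t' q
          · exact Finset.mem_filter.2 ⟨mem_crossAll_of_suffix G hs hq, (V_pos_exists G h5.2.2.1).1⟩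
          · simp [h5] at hne
        refine h4.trans (Finset.sum_le_sum fun q _ => ?_)
        split_ifs
        · exact Nat.mul_le_mul_right _ (Nat.pow_le_pow_left
            (V_suffix G W Cl Br ((List.suffix_cons _ _).trans hs) q) p)
        · simp
      rw [← Finset.sum_mul] at h3
      calc W ^ r.st * mu G W p Cl Br r t' ≤ W ^ r.st * (2 * ∑ q ∈ cross G r t',
            (if Good G W p Cl Br r t' q then V G W Cl Br t' q ^ p else 0)) :=
            Nat.mul_le_mul_left _ h2
        _ = 2 * ((∑ q ∈ cross G r t',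
            (if Good G W p Cl Br r t' q then V G W Cl Br t' q ^ p else 0)) * W ^ r.st) := by ring
        _ ≤ _ := Nat.mul_le_mul_left _ h3
    -- claim E
    set Y := X.filter (fun q => Vs ≤ 2 * V G W Cl Br t q) with hY
    have hE : ∀ q ∈ Y, Vs * V G W Cl Br t q ^ p ≤ 8 * ((p + 1) * sumT (F q) t) := by
      intro q hq
      obtain ⟨h1, h2⟩ := Finset.mem_filter.1 hq
      have h3 : q ∉ Cl := (Finset.mem_filter.1 h1).2
      have h4 := point_lower G W p ((Vs - 1) / (4 * p)) Cl Br q h3 t (by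
        intro r hr hon
        have h5 := hcase r hr ⟨q, h3, hon⟩
        rw [Nat.le_div_iff_mul_le (by omega)]
        have : W ^ r.st * (4 * p) = 4 * p * W ^ r.st := by ring
        omega)
      exact (arith_key Vs _ p hp h2).trans (Nat.mul_le_mul_left _ h4)
    -- q0 is a crossing point
    have hq0X : q0 ∈ Y := by
      refine Finset.mem_filter.2 ⟨Finset.mem_filter.2 ⟨?_, hq0Cl⟩, by rw [← hVs]; omega⟩
      refine mem_crossAll G hD hq0 fun r hr hon => ?_
      have h5 := hcase r hr ⟨q0, hq0Cl, hon⟩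
      rw [← hVs]
      nlinarith
    -- claim F
    have hFf : ∑ q ∈ X, V G W Cl Br t q ^ p ≤ 2 * ∑ q ∈ Y, V G W Cl Br t q ^ p := by
      have h1 : ∑ q ∈ X, V G W Cl Br t q ^ p = ∑ q ∈ Y, V G W Cl Br t q ^ p
          + ∑ q ∈ X.filter (fun q => ¬ Vs ≤ 2 * V G W Cl Br t q), V G W Cl Br t q ^ p := by
        rw [hY, Finset.sum_filter_add_sum_filter_not]
      have h2 : 2 ^ p * ∑ q ∈ X.filter (fun q => ¬ Vs ≤ 2 * V G W Cl Br t q), V G W Cl Br t q ^ p
          ≤ 2 ^ p * Vs ^ p := by
        rw [Finset.mul_sum]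
        calc _ ≤ ∑ _q ∈ X.filter (fun q => ¬ Vs ≤ 2 * V G W Cl Br t q), Vs ^ p := by
              refine Finset.sum_le_sum fun q hq => ?_
              rw [← mul_pow]
              have := (Finset.mem_filter.1 hq).2
              exact Nat.pow_le_pow_left (by omega) p
          _ = (X.filter (fun q => ¬ Vs ≤ 2 * V G W Cl Br t q)).card * Vs ^ p := by simp
          _ ≤ 2 ^ p * Vs ^ p := Nat.mul_le_mul_right _ ((Finset.card_filter_le _ _).trans hXcard)
      have h3 : ∑ q ∈ X.filter (fun q => ¬ Vs ≤ 2 * V G W Cl Br t q), V G W Cl Br t q ^ p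
          ≤ Vs ^ p := Nat.le_of_mul_le_mul_left h2 (by positivity)
      have h4 : Vs ^ p ≤ ∑ q ∈ Y, V G W Cl Br t q ^ p := by
        have := Finset.single_le_sum (f := fun q => V G W Cl Br t q ^ p)
          (fun _ _ => Nat.zero_le _) hq0X
        simpa [hVs] using this
      omega
    have hpos : 0 < ∑ q ∈ Y, V G W Cl Br t q ^ p :=
      Finset.sum_pos' (fun _ _ => Nat.zero_le _) ⟨q0, hq0X, pow_pos hq0 p⟩
    set S := ∑ q ∈ Y, V G W Cl Br t q ^ p with hS
    have g1 : Vs * S ≤ 8 * ((p + 1) * ∑ q ∈ Y, sumT (F q) t) := by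
      rw [hS, Finset.mul_sum, Finset.mul_sum, Finset.mul_sum]
      exact Finset.sum_le_sum hE
    have g2 : ∑ q ∈ Y, sumT (F q) t ≤ ∑ q ∈ X, sumT (F q) t :=
      Finset.sum_le_sum_of_subset (Finset.filter_subset _ _)
    have g3 : 32 * (p + 1) * ∑ q ∈ X, Gd G W p Cl Br q t * V G W Cl Br t q ^ p
        ≤ (Vs - 1) * ∑ q ∈ X, V G W Cl Br t q ^ p := by
      rw [Finset.mul_sum, Finset.mul_sum]
      refine Finset.sum_le_sum fun q hq => ?_
      rw [← mul_assoc]
      exact Nat.mul_le_mul_right _ (hG q hq)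
    have g4 : (Vs - 1) * ∑ q ∈ X, V G W Cl Br t q ^ p ≤ (Vs - 1) * (2 * S) :=
      Nat.mul_le_mul_left _ hFf
    have g5 : 2 * (Vs * S) ≤ 2 * ((Vs - 1) * S) := by
      calc 2 * (Vs * S) ≤ 2 * (8 * ((p + 1) * ∑ q ∈ Y, sumT (F q) t)) := Nat.mul_le_mul_left _ g1
        _ ≤ 2 * (8 * ((p + 1) * (2 * ∑ q ∈ X, Gd G W p Cl Br q t * V G W Cl Br t q ^ p))) := by
            gcongr
            exact (g2.trans hCc).trans hDd
        _ = 32 * (p + 1) * ∑ q ∈ X, Gd G W p Cl Br q t * V G W Cl Br t q ^ p := by ring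
        _ ≤ (Vs - 1) * (2 * S) := g3.trans g4
        _ = 2 * ((Vs - 1) * S) := by ring
    have g6 : (Vs - 1) * S < Vs * S := Nat.mul_lt_mul_of_pos_right (by omega) hpos
    omega

theorem SLD.mono {Br Br' : Finset P} (h : Br ⊆ Br') {t : List (Ray L)} (hD : SLD G Br t) :
    SLD G Br' t := by
  refine List.Pairwise.imp ?_ hD
  intro r r' h1 h2 q h3
  exact h1 h2 q ⟨On.mono G h h3.1, On.mono G h h3.2⟩

theorem V_bdd (W : ℕ) (Cl Br : Finset P) (t : List (Ray L)) (q : P) :
    V G W Cl Br t q ≤ (t.map (fun r => W ^ r.st)).sum := by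
  induction t with
  | nil => simp [V_nil]
  | cons r t ih =>
    rw [V_cons]
    simp only [List.map_cons, List.sum_cons]
    refine Nat.add_le_add ?_ ih
    split_ifs <;> simp

theorem partC : PartC G := by
  intro W p b Cl Br t hW hp hBC hD hX
  induction b with
  | zero =>
    refine ⟨∅, by simp, by simp, fun q => ?_⟩
    simp
  | succ b ih =>
    obtain ⟨C, h1, h2, h3⟩ := ih
    by_cases hz : ∃ q, 0 < V G W (Cl ∪ C) (Br ∪ C) t q
    · -- take the maximum
      obtain ⟨q1, hq1⟩ := hz
      have hmax : ∃ q0, ∀ q, V G W (Cl ∪ C) (Br ∪ C) t q ≤ V G W (Cl ∪ C) (Br ∪ C) t q0 := by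
        by_contra hno
        push Not at hno
        have key : ∀ m : ℕ, ∃ q, m ≤ V G W (Cl ∪ C) (Br ∪ C) t q := by
          intro m
          induction m with
          | zero => exact ⟨q1, Nat.zero_le _⟩
          | succ m ihm =>
            obtain ⟨q, hq⟩ := ihm
            obtain ⟨q', hq'⟩ := hno q
            exact ⟨q', by omega⟩
        obtain ⟨q, hq⟩ := key ((t.map (fun r => W ^ r.st)).sum + 1)
        have := V_bdd G W (Cl ∪ C) (Br ∪ C) t q
        omega
      obtain ⟨q0, hq0⟩ := hmax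
      have hpos : 0 < V G W (Cl ∪ C) (Br ∪ C) t q0 := lt_of_lt_of_le hq1 (hq0 q1)
      obtain ⟨c, hc1, hc2⟩ := step G W p (Cl ∪ C) (Br ∪ C) t hW hp
        (SLD.mono G Finset.subset_union_left hD) hX q0 hpos hq0
      have e1 : Cl ∪ insert c C = insert c (Cl ∪ C) := by rw [Finset.union_insert]
      have e2 : Br ∪ insert c C = insert c (Br ∪ C) := by rw [Finset.union_insert]
      refine ⟨insert c C, ?_, ?_, ?_⟩
      · exact (Finset.card_insert_le _ _).trans (by omega)
      · rw [Finset.disjoint_insert_left]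
        exact ⟨fun h => hc1 (Finset.mem_union_left _ h), h2⟩
      · intro q
        rw [e1, e2]
        have h4 : V G W (insert c (Cl ∪ C)) (insert c (Br ∪ C)) t q
            ≤ V G W (Cl ∪ C) (Br ∪ C) t q0 :=
          (V_mono G W (Finset.subset_insert _ _) (Finset.subset_insert _ _) t q).trans (hq0 q)
        have h5 := h3 q0
        have h6 := Nat.mul_le_mul_left (b + 1) h4
        have h7 : (b + 1) * V G W (Cl ∪ C) (Br ∪ C) t q0
            = b * V G W (Cl ∪ C) (Br ∪ C) t q0 + V G W (Cl ∪ C) (Br ∪ C) t q0 := by ring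
        omega
    · push Not at hz
      refine ⟨C, by omega, h2, fun q => ?_⟩
      have h4 := hz q
      have h5 : V G W (Cl ∪ C) (Br ∪ C) t q = 0 := by omega
      have h6 := h3 q
      rw [h5] at h6 ⊢
      omega

end Pool.Agent.R183.PL
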