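import Pool.Agent.R183.PL.C3

/-! Part D, first file: intervals, medians, kills. -/

open Classical

namespace Pool.Agent.R183.PL

variable {P L : Type} [DecidableEq P] (G : LineSys P L)

theorem Conn.refl {Br : Finset P} {l : L} {k : ℤ} (h : G.pt l k ∉ Br) : Conn G Br l k k := by
  intro i h1 h2
  have : i = k := by omega
  rw [this]
  exact h

theorem Conn.symm {Br : Finset P} {l : L} {k j : ℤ} (h : Conn G Br l k j) : Conn G Br l j k := by
  intro i h1 h2
  exact h i (by omega) (by omega)

theorem Conn.trans {Br : Finset P} {l : L} {k j m : ℤ} (h : Conn G Br l k j)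
    (h' : Conn G Br l j m) : Conn G Br l k m := by
  intro i h1 h2
  by_cases h3 : min k j ≤ i ∧ i ≤ max k j
  · exact h i h3.1 h3.2
  · exact h' i (by omega) (by omega)

theorem Conn.sub {Br : Finset P} {l : L} {k j i : ℤ} (h : Conn G Br l k j)
    (h1 : min k j ≤ i) (h2 : i ≤ max k j) : Conn G Br l k i := by
  intro a h3 h4
  exact h a (by omega) (by omega)

theorem Conn.right {Br : Finset P} {l : L} {k j : ℤ} (h : Conn G Br l k j) : G.pt l j ∉ Br :=
  h j (by omega) (by omega)

/-- `q` lies in the interval of `(l,k)` -/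
def InI (Br : Finset P) (l : L) (k : ℤ) (q : P) : Prop := ∃ j, G.pt l j = q ∧ Conn G Br l k j

noncomputable def lvI (Mk Br : Finset P) (l : L) (k : ℤ) : ℕ :=
  (Mk.filter (fun q => InI G Br l k q)).card

noncomputable def lvl (Mk Br : Finset P) (r : Ray L) : ℕ :=
  (Mk.filter (fun q => On G Br r q)).card

theorem InI_congr {Br : Finset P} {l : L} {k k' : ℤ} (h : Conn G Br l k k') (q : P) :
    InI G Br l k q ↔ InI G Br l k' q := by
  constructor
  · rintro ⟨j, h1, h2⟩
    exact ⟨j, h1, Conn.trans G (Conn.symm G h) h2⟩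
  · rintro ⟨j, h1, h2⟩
    exact ⟨j, h1, Conn.trans G h h2⟩

theorem lvI_congr (Mk : Finset P) {Br : Finset P} {l : L} {k k' : ℤ} (h : Conn G Br l k k') :
    lvI G Mk Br l k = lvI G Mk Br l k' := by
  unfold lvI
  congr 1
  ext q
  simp only [Finset.mem_filter, InI_congr G h q]

theorem InI_mono {Br Br' : Finset P} (h : Br ⊆ Br') {l : L} {k : ℤ} {q : P}
    (hq : InI G Br' l k q) : InI G Br l k q := by
  obtain ⟨j, h1, h2⟩ := hq
  exact ⟨j, h1, Conn.mono G h h2⟩

theorem lvI_mono (Mk : Finset P) {Br Br' : Finset P} (h : Br ⊆ Br') (l : L) (k : ℤ) :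
    lvI G Mk Br' l k ≤ lvI G Mk Br l k := by
  refine Finset.card_le_card fun q hq => ?_
  simp only [Finset.mem_filter] at *
  exact ⟨hq.1, InI_mono G h hq.2⟩

theorem lvl_mono (Mk : Finset P) {Br Br' : Finset P} (h : Br ⊆ Br') (r : Ray L) :
    lvl G Mk Br' r ≤ lvl G Mk Br r := by
  refine Finset.card_le_card fun q hq => ?_
  simp only [Finset.mem_filter] at *
  exact ⟨hq.1, On.mono G h hq.2⟩

theorem lvI_union (Mk A Br : Finset P) (l : L) (k : ℤ) :
    lvI G (Mk ∪ A) Br l k ≤ lvI G Mk Br l k + lvI G A Br l k := by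
  unfold lvI
  rw [Finset.filter_union]
  exact Finset.card_union_le _ _

theorem lvl_union (Mk A Br : Finset P) (r : Ray L) :
    lvl G (Mk ∪ A) Br r ≤ lvl G Mk Br r + lvl G A Br r := by
  unfold lvl
  rw [Finset.filter_union]
  exact Finset.card_union_le _ _

theorem lvI_le_card (A Br : Finset P) (l : L) (k : ℤ) : lvI G A Br l k ≤ A.card :=
  Finset.card_filter_le _ _

theorem lvl_le_lvI (A Br : Finset P) (l : L) (k : ℤ) (s : Bool) (st : ℕ) :
    lvl G A Br ⟨l, k, s, st⟩ ≤ lvI G A Br l k := by
  refine Finset.card_le_card fun q hq => ?_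
  simp only [Finset.mem_filter] at *
  obtain ⟨h1, j, _, h3, h4⟩ := hq
  exact ⟨h1, j, h3, h4⟩

theorem lvI_le_rays (Mk Br : Finset P) (l : L) (k : ℤ) (st st' : ℕ) :
    lvI G Mk Br l k ≤ lvl G Mk Br ⟨l, k, true, st⟩ + lvl G Mk Br ⟨l, k, false, st'⟩ + 1 := by
  have h : Mk.filter (fun q => InI G Br l k q) ⊆
      (Mk.filter (fun q => On G Br ⟨l, k, true, st⟩ q) ∪
        Mk.filter (fun q => On G Br ⟨l, k, false, st'⟩ q)) ∪ {G.pt l k} := by
    intro q hq
    simp only [Finset.mem_filter, Finset.mem_union, Finset.mem_singleton] at *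
    obtain ⟨h1, j, h2, h3⟩ := hq
    rcases lt_trichotomy k j with h4 | h4 | h4
    · exact Or.inl (Or.inl ⟨h1, j, by simp [side, h4], h2, h3⟩)
    · exact Or.inr (by rw [← h2, h4])
    · exact Or.inl (Or.inr ⟨h1, j, by simp [side, h4], h2, h3⟩)
  have h1 := Finset.card_le_card h
  have h2 := Finset.card_union_le (Mk.filter (fun q => On G Br ⟨l, k, true, st⟩ q) ∪
        Mk.filter (fun q => On G Br ⟨l, k, false, st'⟩ q)) {G.pt l k}
  have h3 := Finset.card_union_le (Mk.filter (fun q => On G Br ⟨l, k, true, st⟩ q))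
        (Mk.filter (fun q => On G Br ⟨l, k, false, st'⟩ q))
  simp only [Finset.card_singleton] at h2
  unfold lvI lvl
  omega

/-! ranks -/

theorem exists_rank (D : Finset ℤ) (c : ℕ) (h1 : 1 ≤ c) (h2 : c ≤ D.card) :
    ∃ m ∈ D, (D.filter (fun j => j < m)).card = c - 1 ∧ (D.filter (fun j => m < j)).card
      = D.card - c := by
  have hne : D.Nonempty := Finset.card_pos.1 (by omega)
  set S := D.filter (fun m => c ≤ (D.filter (fun j => j ≤ m)).card) with hS
  have hSne : S.Nonempty := by
    refine ⟨D.max' hne, Finset.mem_filter.2 ⟨D.max'_mem hne, ?_⟩⟩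
    have : D.filter (fun j => j ≤ D.max' hne) = D := by
      ext j
      simp only [Finset.mem_filter, and_iff_left_iff_imp]
      exact fun hj => D.le_max' j hj
    rw [this]
    exact h2
  set m := S.min' hSne with hm
  have hmS : m ∈ S := S.min'_mem hSne
  obtain ⟨hmD, hmc⟩ := Finset.mem_filter.1 hmS
  have hlt : (D.filter (fun j => j < m)).card < c := by
    by_contra hcon
    push Not at hcon
    have hne2 : (D.filter (fun j => j < m)).Nonempty := Finset.card_pos.1 (by omega)
    set m' := (D.filter (fun j => j < m)).max' hne2 with hm'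
    have hm'm : m' ∈ D.filter (fun j => j < m) := Finset.max'_mem _ hne2
    obtain ⟨h3, h4⟩ := Finset.mem_filter.1 hm'm
    have h5 : m' ∈ S := by
      refine Finset.mem_filter.2 ⟨h3, hcon.trans (Finset.card_le_card fun j hj => ?_)⟩
      have := Finset.le_max' _ j hj
      exact Finset.mem_filter.2 ⟨(Finset.mem_filter.1 hj).1, this⟩
    have := S.min'_le m' h5
    rw [← hm] at this
    omega
  have hle : D.filter (fun j => j ≤ m) = insert m (D.filter (fun j => j < m)) := by
    ext j
    simp only [Finset.mem_filter, Finset.mem_insert]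
    constructor
    · rintro ⟨h3, h4⟩
      rcases lt_or_eq_of_le h4 with h5 | h5
      · exact Or.inr ⟨h3, h5⟩
      · exact Or.inl h5
    · rintro (rfl | ⟨h3, h4⟩)
      · exact ⟨hmD, le_refl _⟩
      · exact ⟨h3, le_of_lt h4⟩
  have hcard : (D.filter (fun j => j ≤ m)).card = (D.filter (fun j => j < m)).card + 1 := by
    rw [hle, Finset.card_insert_of_notMem]
    simp
  have htot : (D.filter (fun j => j ≤ m)).card + (D.filter (fun j => m < j)).card = D.card := by
    have := Finset.card_filter_add_card_filter_not (s := D) (fun j => j ≤ m)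
    simp only [not_le] at this
    exact this
  refine ⟨m, hmD, by omega, by omega⟩

theorem exists_median (D : Finset ℤ) (h : D.Nonempty) :
    ∃ m ∈ D, 2 * (D.filter (fun j => j < m)).card ≤ D.card ∧
      2 * (D.filter (fun j => m < j)).card ≤ D.card := by
  have h0 := Finset.card_pos.2 h
  obtain ⟨m, h1, h2, h3⟩ := exists_rank D ((D.card + 1) / 2) (by omega) (by omega)
  exact ⟨m, h1, by omega, by omega⟩

theorem exists_net (θ : ℕ) (hθ : 1 ≤ θ) : ∀ (c : ℕ) (D : Finset ℤ), D.card = c →
    ∃ E ⊆ D, E.card * θ ≤ D.card ∧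
      ∀ J : Set ℤ, (∀ a ∈ J, ∀ b ∈ J, ∀ i, a ≤ i → i ≤ b → i ∈ J) → (∀ e ∈ E, e ∉ J) →
        (D.filter (fun j => j ∈ J)).card < θ := by
  intro c
  induction c using Nat.strong_induction_on with
  | _ c ih =>
    intro D hD
    by_cases hlt : D.card < θ
    · refine ⟨∅, by simp, by simp, fun J _ _ => ?_⟩
      exact lt_of_le_of_lt (Finset.card_filter_le _ _) hlt
    · push Not at hlt
      obtain ⟨m, h1, h2, h3⟩ := exists_rank D θ hθ hlt
      obtain ⟨E', h4, h5, h6⟩ := ih (D.filter (fun j => m < j)).card (by omega)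
        (D.filter (fun j => m < j)) rfl
      refine ⟨insert m E', ?_, ?_, ?_⟩
      · intro j hj
        rcases Finset.mem_insert.1 hj with rfl | hj
        · exact h1
        · exact (Finset.mem_filter.1 (h4 hj)).1
      · have h7 := Finset.card_insert_le m E'
        have h8 := Nat.mul_le_mul_right θ h7
        have h9 : (E'.card + 1) * θ = E'.card * θ + θ := by ring
        omega
      · intro J hJ hE
        have hmJ : m ∉ J := hE m (Finset.mem_insert_self _ _)
        by_cases hcase : ∃ j ∈ D, j ∈ J ∧ m < j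
        · obtain ⟨j0, _, hj0, hmj0⟩ := hcase
          have h7 : D.filter (fun j => j ∈ J) ⊆
              (D.filter (fun j => m < j)).filter (fun j => j ∈ J) := by
            intro j hj
            obtain ⟨h8, h9⟩ := Finset.mem_filter.1 hj
            refine Finset.mem_filter.2 ⟨Finset.mem_filter.2 ⟨h8, ?_⟩, h9⟩
            by_contra hcon
            exact hmJ (hJ j h9 j0 hj0 m (by omega) (by omega))
          exact lt_of_le_of_lt (Finset.card_le_card h7)
            (h6 J hJ fun e he => hE e (Finset.mem_insert_of_mem he))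
        · push Not at hcase
          have h7 : D.filter (fun j => j ∈ J) ⊆ D.filter (fun j => j < m) := by
            intro j hj
            obtain ⟨h8, h9⟩ := Finset.mem_filter.1 hj
            refine Finset.mem_filter.2 ⟨h8, ?_⟩
            have h10 := hcase j h8 h9
            rcases lt_or_eq_of_le h10 with h11 | h11
            · exact h11
            · exact absurd (h11 ▸ h9) hmJ
          have := Finset.card_le_card h7
          omega

/-- indices of the points of `Mk` in the interval -/
noncomputable def idx (Mk Br : Finset P) (l : L) (k : ℤ) : Finset ℤ :=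
  (Mk.preimage (G.pt l) (G.inj l).injOn).filter (fun j => Conn G Br l k j)

theorem mem_idx {Mk Br : Finset P} {l : L} {k j : ℤ} :
    j ∈ idx G Mk Br l k ↔ G.pt l j ∈ Mk ∧ Conn G Br l k j := by
  simp [idx]

theorem card_filter_idx (Mk Br : Finset P) (l : L) (k : ℤ) (f : ℤ → Prop) (g : P → Prop)
    (h : ∀ q, g q ↔ ∃ j, f j ∧ G.pt l j = q ∧ Conn G Br l k j) :
    ((idx G Mk Br l k).filter f).card = (Mk.filter g).card := by
  have : Mk.filter g = ((idx G Mk Br l k).filter f).image (G.pt l) := by
    ext q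
    simp only [Finset.mem_filter, Finset.mem_image, mem_idx, h]
    constructor
    · rintro ⟨h1, j, h2, h3, h4⟩
      exact ⟨j, ⟨⟨by rw [h3]; exact h1, h4⟩, h2⟩, h3⟩
    · rintro ⟨j, ⟨⟨h1, h4⟩, h2⟩, h3⟩
      exact ⟨by rw [← h3]; exact h1, j, h2, h3, h4⟩
  rw [this, Finset.card_image_of_injective _ (G.inj l)]

theorem card_idx (Mk Br : Finset P) (l : L) (k : ℤ) :
    (idx G Mk Br l k).card = lvI G Mk Br l k := by
  have := card_filter_idx G Mk Br l k (fun _ => True) (fun q => InI G Br l k q) (by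
    intro q
    simp [InI])
  simpa [lvI] using this

/-- a canonical median of the interval -/
def IsMed (Mk Br : Finset P) (l : L) (k m : ℤ) : Prop :=
  G.pt l m ∈ Mk ∧ Conn G Br l k m ∧
    (∀ st, 2 * lvl G Mk Br ⟨l, m, true, st⟩ ≤ lvI G Mk Br l k) ∧
    (∀ st, 2 * lvl G Mk Br ⟨l, m, false, st⟩ ≤ lvI G Mk Br l k)

theorem exists_isMed {Mk Br : Finset P} {l : L} {k : ℤ} (h : 0 < lvI G Mk Br l k) :
    ∃ m, IsMed G Mk Br l k m := by
  rw [← card_idx] at h
  obtain ⟨m, h1, h2, h3⟩ := exists_median _ (Finset.card_pos.1 h)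
  obtain ⟨h4, h5⟩ := (mem_idx G).1 h1
  refine ⟨m, h4, h5, fun st => ?_, fun st => ?_⟩
  · rw [← card_idx]
    have := card_filter_idx G Mk Br l k (fun j => m < j) (fun q => On G Br ⟨l, m, true, st⟩ q) (by
      intro q
      unfold On
      simp only [side, if_true]
      constructor
      · rintro ⟨j, h6, h7, h8⟩
        exact ⟨j, h6, h7, Conn.trans G h5 h8⟩
      · rintro ⟨j, h6, h7, h8⟩
        exact ⟨j, h6, h7, Conn.trans G (Conn.symm G h5) h8⟩)
    have h9 : ((idx G Mk Br l k).filter (fun j => m < j)).card =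
        (Mk.filter (fun q => On G Br ⟨l, m, true, st⟩ q)).card := by convert this
    unfold lvl
    omega
  · rw [← card_idx]
    have := card_filter_idx G Mk Br l k (fun j => j < m) (fun q => On G Br ⟨l, m, false, st⟩ q) (by
      intro q
      unfold On
      simp only [side, Bool.false_eq_true, if_false]
      constructor
      · rintro ⟨j, h6, h7, h8⟩
        exact ⟨j, h6, h7, Conn.trans G h5 h8⟩
      · rintro ⟨j, h6, h7, h8⟩
        exact ⟨j, h6, h7, Conn.trans G (Conn.symm G h5) h8⟩)
    have h9 : ((idx G Mk Br l k).filter (fun j => j < m)).card =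
        (Mk.filter (fun q => On G Br ⟨l, m, false, st⟩ q)).card := by convert this
    unfold lvl
    omega

theorem IsMed_congr {Mk Br : Finset P} {l : L} {k k' m : ℤ} (h : Conn G Br l k k') :
    IsMed G Mk Br l k m ↔ IsMed G Mk Br l k' m := by
  unfold IsMed
  rw [lvI_congr G Mk h]
  have : Conn G Br l k m ↔ Conn G Br l k' m :=
    ⟨fun h1 => Conn.trans G (Conn.symm G h) h1, fun h1 => Conn.trans G h h1⟩
  rw [this]

noncomputable def medOf (Mk Br : Finset P) (l : L) (k : ℤ) : ℤ :=
  Classical.epsilon (fun m => IsMed G Mk Br l k m)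

theorem medOf_spec {Mk Br : Finset P} {l : L} {k : ℤ} (h : 0 < lvI G Mk Br l k) :
    IsMed G Mk Br l k (medOf G Mk Br l k) :=
  Classical.epsilon_spec (exists_isMed G h)

theorem medOf_congr {Mk Br : Finset P} {l : L} {k k' : ℤ} (h : Conn G Br l k k') :
    medOf G Mk Br l k = medOf G Mk Br l k' := by
  unfold medOf
  congr 1
  funext m
  exact propext (IsMed_congr G h)

/-- killing an anchor -/
theorem kill_ray (Cl Br : Finset P) (r : Ray L) : ∃ C : Finset P, C.card ≤ 1 ∧ Disjoint C Cl ∧
    ¬ NS G (Cl ∪ C) (Br ∪ C) r := by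
  by_cases h : NS G Cl Br r
  · obtain ⟨c, h1, h2⟩ := near G h
    refine ⟨{c}, by simp, by simpa using h1, ?_⟩
    have e1 : Cl ∪ {c} = insert c Cl := by ext x; simp
    have e2 : Br ∪ {c} = insert c Br := by ext x; simp
    rw [e1, e2]
    exact h2
  · exact ⟨∅, by simp, by simp, by simpa using h⟩

theorem kill (Cl Br : Finset P) (l : L) (a : ℤ) (ha : G.pt l a ∈ Cl) :
    ∃ C : Finset P, C.card ≤ 2 ∧ Disjoint C Cl ∧
      ∀ Cl' Br' : Finset P, Cl ∪ C ⊆ Cl' → Br ∪ C ⊆ Br' → ∀ j, Conn G Br' l a j →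
        G.pt l j ∈ Cl' := by
  obtain ⟨C1, h1, h2, h3⟩ := kill_ray G Cl Br ⟨l, a, true, 0⟩
  obtain ⟨C2, h4, h5, h6⟩ := kill_ray G Cl Br ⟨l, a, false, 0⟩
  refine ⟨C1 ∪ C2, (Finset.card_union_le _ _).trans (by omega), ?_, ?_⟩
  · rw [Finset.disjoint_union_left]
    exact ⟨h2, h5⟩
  · intro Cl' Br' hCl hBr j hj
    by_contra hcon
    rcases lt_trichotomy a j with h7 | h7 | h7
    · refine h3 (NS_mono G (Cl' := Cl') (Br' := Br') ?_ ?_
        ⟨G.pt l j, hcon, j, by simp [side, h7], rfl, hj⟩)
      · exact (Finset.union_subset_union_right Finset.subset_union_left).trans hCl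
      · exact (Finset.union_subset_union_right Finset.subset_union_left).trans hBr
    · subst h7
      exact hcon (hCl (Finset.mem_union_left _ ha))
    · refine h6 (NS_mono G (Cl' := Cl') (Br' := Br') ?_ ?_
        ⟨G.pt l j, hcon, j, by simp [side, h7], rfl, hj⟩)
      · exact (Finset.union_subset_union_right Finset.subset_union_right).trans hCl
      · exact (Finset.union_subset_union_right Finset.subset_union_right).trans hBr

end Pool.Agent.R183.PL
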