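import Pool.Agent.R183.PL.D1

/-! Part D, second file: records, parameters, accounting. -/

open Classical

namespace Pool.Agent.R183.PL

variable {P L : Type} [DecidableEq P] (G : LineSys P L)

/-- a record: line, anchor, stage -/
structure Rec (L : Type) where
  l : L
  k : ℤ
  st : ℕ

def two (S : Rec L) : List (Ray L) := [⟨S.l, S.k, true, S.st⟩, ⟨S.l, S.k, false, S.st⟩]

def rays (R : List (Rec L)) : List (Ray L) := R.flatMap two

/-- the parameters -/
structure Par where
  W : ℕ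
  p : ℕ
  h : ℕ
  th : ℕ
  n : ℕ
  K : ℕ
  M : ℕ
  A1 : ℕ
  Q0 : ℕ
  Nm : ℕ
  Lm : ℕ
  b : ℕ
  hW : 1 ≤ W
  hp : 1 ≤ p
  hh : 2 ≤ h
  hQ0 : th + h ≤ 2 * Q0
  hQK : Q0 + 2 * h * K + h ≤ th
  hn : 2 * th + M ≤ n
  hNm : (2 * Nm ^ 2) ^ 2 ≤ 2 ^ p
  hLm : 2 ^ p * (2 ^ p * W ^ K) ^ p < 2 ^ Lm
  hA1 : 2 * W * (1 + Lm) ≤ A1
  hb : 32 * (p + 1) * (A1 * M) ≤ h * b

def Par.Q (π : Par) (i : ℕ) : ℕ := π.Q0 + 2 * π.h * i

noncomputable def levelR (π : Par) (Mk Br : Finset P) (t : List (Ray L)) : ℕ :=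
  (t.map (fun r => π.W ^ r.st * π.A1 * (lvl G Mk Br r - π.Q r.st))).sum

noncomputable def Phi (π : Par) (Cl Br Mk : Finset P) (R : List (Rec L)) : ℕ :=
  levelR G π Mk Br (rays R) + π.h * pot G π.W π.p Cl Br (rays R)

theorem levelR_mono (π : Par) (Mk : Finset P) {Br Br' : Finset P} (h : Br ⊆ Br')
    (t : List (Ray L)) : levelR G π Mk Br' t ≤ levelR G π Mk Br t := by
  unfold levelR
  induction t with
  | nil => simp
  | cons r t ih =>
    simp only [List.map_cons, List.sum_cons]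
    refine Nat.add_le_add (Nat.mul_le_mul_left _ ?_) ih
    have := lvl_mono G Mk h r
    omega

theorem Phi_mono (π : Par) (Mk : Finset P) {Cl Cl' Br Br' : Finset P} (hC : Cl ⊆ Cl')
    (hB : Br ⊆ Br') (R : List (Rec L)) : Phi G π Cl' Br' Mk R ≤ Phi G π Cl Br Mk R :=
  Nat.add_le_add (levelR_mono G π Mk hB _)
    (Nat.mul_le_mul_left _ (pot_mono G π.W π.p hC hB _))

theorem levelR_maker (π : Par) (Mk A Cl Br : Finset P) (hA : Disjoint A Cl) (t : List (Ray L)) :
    levelR G π (Mk ∪ A) Br t ≤ levelR G π Mk Br t + π.A1 * ∑ q ∈ A, V G π.W Cl Br t q := by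
  unfold levelR
  induction t with
  | nil => simp [V_nil]
  | cons r t ih =>
    simp only [List.map_cons, List.sum_cons]
    have h1 : ∑ q ∈ A, V G π.W Cl Br (r :: t) q = π.W ^ r.st * lvl G A Br r
        + ∑ q ∈ A, V G π.W Cl Br t q := by
      have h2 : ∀ q ∈ A, V G π.W Cl Br (r :: t) q = (if On G Br r q then π.W ^ r.st else 0)
          + V G π.W Cl Br t q := by
        intro q hq
        rw [V_cons]
        have : q ∉ Cl := Finset.disjoint_left.1 hA hq
        simp [this]
      rw [Finset.sum_congr rfl h2, Finset.sum_add_distrib]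
      congr 1
      rw [← Finset.sum_filter]
      simp only [Finset.sum_const, smul_eq_mul]
      unfold lvl
      ring
    rw [h1]
    have h3 := lvl_union G Mk A Br r
    have h4 : lvl G (Mk ∪ A) Br r - π.Q r.st ≤ (lvl G Mk Br r - π.Q r.st) + lvl G A Br r := by
      omega
    have h5 := Nat.mul_le_mul_left (π.W ^ r.st * π.A1) h4
    have h6 : π.A1 * (π.W ^ r.st * lvl G A Br r + ∑ q ∈ A, V G π.W Cl Br t q)
        = π.W ^ r.st * π.A1 * lvl G A Br r + π.A1 * ∑ q ∈ A, V G π.W Cl Br t q := by ring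
    rw [h6]
    rw [Nat.mul_add] at h5
    omega

theorem sum_V_le (W : ℕ) (A Cl Br : Finset P) (t : List (Ray L)) (M : ℕ) (hM : A.card ≤ M)
    (c A1 φ : ℕ) (h0 : c ≤ φ) (h : ∀ q, c + A1 * M * V G W Cl Br t q ≤ φ) :
    c + A1 * ∑ q ∈ A, V G W Cl Br t q ≤ φ := by
  rcases A.eq_empty_or_nonempty with rfl | hne
  · simpa using h0
  · obtain ⟨q0, h1, h2⟩ := Finset.exists_max_image A (fun q => V G W Cl Br t q) hne
    have h3 : ∑ q ∈ A, V G W Cl Br t q ≤ M * V G W Cl Br t q0 := by
      calc ∑ q ∈ A, V G W Cl Br t q ≤ ∑ _q ∈ A, V G W Cl Br t q0 := Finset.sum_le_sum h2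
        _ = A.card * V G W Cl Br t q0 := by simp
        _ ≤ M * V G W Cl Br t q0 := Nat.mul_le_mul_right _ hM
    have h4 := h q0
    have h5 := Nat.mul_le_mul_left A1 h3
    rw [← mul_assoc] at h5
    omega

theorem cross_sub {r : Ray L} {t' t : List (Ray L)} (h : t'.Sublist t) :
    cross G r t' ⊆ cross G r t := by
  intro q hq
  simp only [cross, Set.Finite.mem_toFinset, crossSet, Set.mem_ofPred_eq] at *
  obtain ⟨r', h1, h2⟩ := hq
  exact ⟨r', h.subset h1, h2⟩

theorem V_sublist (W : ℕ) (Cl Br : Finset P) {t' t : List (Ray L)} (h : t'.Sublist t) (q : P) :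
    V G W Cl Br t' q ≤ V G W Cl Br t q := by
  induction h with
  | slnil => exact le_refl _
  | cons a _ ih =>
    rw [V_cons]
    omega
  | cons_cons a _ ih =>
    rw [V_cons, V_cons]
    omega

theorem mu_sublist (W p : ℕ) (Cl Br : Finset P) (r : Ray L) {t' t : List (Ray L)}
    (h : t'.Sublist t) : mu G W p Cl Br r t' ≤ mu G W p Cl Br r t := by
  unfold mu
  refine (Finset.sum_le_sum_of_subset (cross_sub G h)).trans (Finset.sum_le_sum fun q _ => ?_)
  split_ifs
  · exact Nat.pow_le_pow_left (V_sublist G W Cl Br h q) p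
  · exact le_refl _

theorem pot_sublist (W p : ℕ) (Cl Br : Finset P) {t' t : List (Ray L)} (h : t'.Sublist t) :
    pot G W p Cl Br t' ≤ pot G W p Cl Br t := by
  induction h with
  | slnil => exact le_refl _
  | cons a _ ih =>
    simp only [pot]
    omega
  | cons_cons a h ih =>
    simp only [pot]
    refine Nat.add_le_add (Nat.mul_le_mul_left _ (Nat.add_le_add_left ?_ _)) ih
    exact Nat.size_le_size (mu_sublist G W p Cl Br a h)

theorem rays_cons (S : Rec L) (R : List (Rec L)) : rays (S :: R) = two S ++ rays R := by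
  simp [rays]

theorem rays_append (R R' : List (Rec L)) : rays (R ++ R') = rays R ++ rays R' := by
  simp [rays]

theorem rays_sublist {R R' : List (Rec L)} (h : R'.Sublist R) : (rays R').Sublist (rays R) := by
  induction h with
  | slnil => exact List.Sublist.refl _
  | cons a _ ih =>
    rw [rays_cons]
    exact ih.trans (List.sublist_append_right _ _)
  | cons_cons a _ ih =>
    rw [rays_cons, rays_cons]
    exact List.Sublist.append (List.Sublist.refl _) ih

theorem mem_rays {R : List (Rec L)} {r : Ray L} :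
    r ∈ rays R ↔ ∃ S ∈ R, r ∈ two S := by
  simp [rays]

theorem length_rays (R : List (Rec L)) : (rays R).length = 2 * R.length := by
  induction R with
  | nil => simp [rays]
  | cons S R ih =>
    rw [rays_cons, List.length_append, ih]
    simp [two]
    ring

/-- level contribution of one record -/
noncomputable def levS (π : Par) (Mk Br : Finset P) (S : Rec L) : ℕ :=
  π.W ^ S.st * π.A1 * ((lvl G Mk Br ⟨S.l, S.k, true, S.st⟩ - π.Q S.st)
    + (lvl G Mk Br ⟨S.l, S.k, false, S.st⟩ - π.Q S.st))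

theorem levelR_rays (π : Par) (Mk Br : Finset P) (R : List (Rec L)) :
    levelR G π Mk Br (rays R) = (R.map (levS G π Mk Br)).sum := by
  induction R with
  | nil => simp [rays, levelR]
  | cons S R ih =>
    rw [rays_cons]
    unfold levelR at *
    rw [List.map_append, List.sum_append, ih]
    simp only [two, List.map_cons, List.map_nil, List.sum_cons, List.sum_nil, levS]
    ring

theorem filter_sum {α : Type} (f : α → ℕ) (P1 P2 : α → Bool)
    (hd : ∀ a, ¬ (P1 a = true ∧ P2 a = true)) (R : List α) :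
    ((R.filter P1).map f).sum + ((R.filter P2).map f).sum ≤ (R.map f).sum := by
  induction R with
  | nil => simp
  | cons a R ih =>
    by_cases h1 : P1 a = true
    · have h2 : ¬ P2 a = true := fun h => hd a ⟨h1, h⟩
      simp only [List.filter_cons_of_pos h1, List.filter_cons_of_neg h2, List.map_cons,
        List.sum_cons]
      omega
    · by_cases h2 : P2 a = true
      · simp only [List.filter_cons_of_neg h1, List.filter_cons_of_pos h2, List.map_cons,
          List.sum_cons]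
        omega
      · simp only [List.filter_cons_of_neg h1, List.filter_cons_of_neg h2, List.map_cons,
          List.sum_cons]
        omega

theorem V_le_len (π : Par) (Cl Br : Finset P) (q : P) : ∀ t : List (Ray L),
    (∀ r ∈ t, r.st ≤ π.K) → V G π.W Cl Br t q ≤ t.length * π.W ^ π.K := by
  intro t
  induction t with
  | nil => intro _; simp [V_nil]
  | cons r t ih =>
    intro h
    rw [V_cons]
    have h1 := ih fun r' hr' => h r' (List.mem_cons_of_mem _ hr')
    have h2 : π.W ^ r.st ≤ π.W ^ π.K := Nat.pow_le_pow_right π.hW (h r (List.mem_cons_self ..))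
    have h3 : (r :: t).length * π.W ^ π.K = t.length * π.W ^ π.K + π.W ^ π.K := by
      simp only [List.length_cons]; ring
    rw [h3]
    split_ifs <;> omega

theorem size_mu (π : Par) (Cl Br : Finset P) (r : Ray L) (t : List (Ray L))
    (hl : t.length ≤ 2 * π.Nm ^ 2) (hst : ∀ r ∈ t, r.st ≤ π.K) :
    (mu G π.W π.p Cl Br r t).size ≤ π.Lm := by
  rw [Nat.size_le]
  refine lt_of_le_of_lt ?_ π.hLm
  have h1 : t.length ≤ 2 ^ π.p := by
    have := π.hNm
    nlinarith [Nat.zero_le (2 * π.Nm ^ 2), hl]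
  have h2 : ∀ q, V G π.W Cl Br t q ≤ 2 ^ π.p * π.W ^ π.K := fun q =>
    (V_le_len G π Cl Br q t hst).trans (Nat.mul_le_mul_right _ h1)
  calc mu G π.W π.p Cl Br r t ≤ ∑ _q ∈ cross G r t, (2 ^ π.p * π.W ^ π.K) ^ π.p := by
        unfold mu
        refine Finset.sum_le_sum fun q _ => ?_
        split_ifs
        · exact Nat.pow_le_pow_left (h2 q) _
        · exact Nat.zero_le _
    _ = (cross G r t).card * (2 ^ π.p * π.W ^ π.K) ^ π.p := by simp
    _ ≤ 2 ^ π.p * (2 ^ π.p * π.W ^ π.K) ^ π.p :=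
        Nat.mul_le_mul_right _ ((cross_card G r t).trans h1)

theorem pot_append (π : Par) (Cl Br : Finset P) (R0 : List (Rec L)) : ∀ N : List (Rec L),
    (N ++ R0).length ≤ π.Nm ^ 2 → (∀ S ∈ N ++ R0, S.st ≤ π.K) →
    pot G π.W π.p Cl Br (rays (N ++ R0)) ≤ pot G π.W π.p Cl Br (rays R0)
      + (N.map (fun S => 2 * π.W ^ S.st * (1 + π.Lm))).sum := by
  intro N
  induction N with
  | nil => intro _ _; simp
  | cons S N ih =>
    intro hl hst
    have hl' : (N ++ R0).length ≤ π.Nm ^ 2 := by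
      simp only [List.cons_append, List.length_cons] at hl
      omega
    have hst' : ∀ S' ∈ N ++ R0, S'.st ≤ π.K := fun S' h => hst S' (by
      simp only [List.cons_append, List.mem_cons]
      exact Or.inr h)
    have h1 := ih hl' hst'
    have hr : ∀ r ∈ rays (N ++ R0), r.st ≤ π.K := by
      intro r hr
      obtain ⟨S', h2, h3⟩ := mem_rays.1 hr
      have h4 := hst' S' h2
      simp only [two, List.mem_cons, List.not_mem_nil, or_false] at h3
      rcases h3 with rfl | rfl <;> exact h4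
    have hSst : S.st ≤ π.K := hst S (by simp)
    rw [List.cons_append, rays_cons]
    simp only [two, List.cons_append, List.nil_append, pot, List.map_cons, List.sum_cons]
    have hlen : (rays (N ++ R0)).length + 2 ≤ 2 * π.Nm ^ 2 := by
      rw [length_rays]
      simp only [List.cons_append, List.length_cons] at hl
      omega
    have h2 := size_mu G π Cl Br ⟨S.l, S.k, true, S.st⟩
      (⟨S.l, S.k, false, S.st⟩ :: rays (N ++ R0)) (by simp only [List.length_cons]; omega) (by
        intro r hr'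
        rcases List.mem_cons.1 hr' with rfl | hr'
        · exact hSst
        · exact hr r hr')
    have h3 := size_mu G π Cl Br ⟨S.l, S.k, false, S.st⟩ (rays (N ++ R0)) (by omega) hr
    have h4 : ∀ (c : Prop) [Decidable c], (if c then 1 else 0) ≤ 1 := by
      intro c _
      split_ifs <;> simp
    have h5 := Nat.mul_le_mul_left (π.W ^ S.st) (Nat.add_le_add
      (h4 (NS G Cl Br ⟨S.l, S.k, true, S.st⟩)) h2)
    have h6 := Nat.mul_le_mul_left (π.W ^ S.st) (Nat.add_le_add
      (h4 (NS G Cl Br ⟨S.l, S.k, false, S.st⟩)) h3)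
    have h7 : 2 * π.W ^ S.st * (1 + π.Lm) = π.W ^ S.st * (1 + π.Lm) + π.W ^ S.st * (1 + π.Lm) := by
      ring
    omega

/-- the invariants -/
structure Inv (π : Par) (Cl Br Mk : Finset P) (R : List (Rec L)) (φ : ℕ) : Prop where
  brcl : Br ⊆ Cl
  mkcl : Mk ⊆ Cl
  disj : Disjoint Mk Br
  anc : ∀ S ∈ R, G.pt S.l S.k ∈ Mk ∧ (∃ j, j ≠ S.k ∧ G.pt S.l j ∈ Mk) ∧ S.st < π.K
  lv : ∀ S ∈ R, lvl G Mk Br ⟨S.l, S.k, true, S.st⟩ < π.Q S.st + π.h ∧
    lvl G Mk Br ⟨S.l, S.k, false, S.st⟩ < π.Q S.st + π.h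
  pw : R.Pairwise (fun S S' => S.l = S'.l → ¬ Conn G Br S.l S.k S'.k)
  cov : ∀ l k, G.pt l k ∈ Mk → π.th ≤ lvI G Mk Br l k →
    (∃ j, G.pt l j ∉ Cl ∧ Conn G Br l k j) → ∃ S ∈ R, S.l = l ∧ Conn G Br l S.k k
  lvn : ∀ l k, G.pt l k ∈ Mk → lvI G Mk Br l k < π.n
  phi : Phi G π Cl Br Mk R ≤ φ
  phiV : ∀ q, Phi G π Cl Br Mk R + π.A1 * π.M * V G π.W Cl Br (rays R) q ≤ φ

theorem length_le {Mk Br : Finset P} (hd : Disjoint Mk Br) (R : List (Rec L))
    (anc : ∀ S ∈ R, G.pt S.l S.k ∈ Mk ∧ ∃ j, j ≠ S.k ∧ G.pt S.l j ∈ Mk)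
    (pw : R.Pairwise (fun S S' => S.l = S'.l → ¬ Conn G Br S.l S.k S'.k)) :
    R.length ≤ Mk.card ^ 2 := by
  let f : Rec L → P × P := fun S =>
    if h : ∃ j, j ≠ S.k ∧ G.pt S.l j ∈ Mk then (G.pt S.l S.k, G.pt S.l h.choose)
    else (G.pt S.l S.k, G.pt S.l S.k)
  have hf : ∀ S ∈ R, ∃ j, j ≠ S.k ∧ G.pt S.l j ∈ Mk ∧ f S = (G.pt S.l S.k, G.pt S.l j) := by
    intro S hS
    have h := (anc S hS).2
    refine ⟨h.choose, h.choose_spec.1, h.choose_spec.2, ?_⟩
    simp only [f, dif_pos h]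
  have hnd : (R.map f).Nodup := by
    rw [List.Nodup, List.pairwise_map]
    refine List.Pairwise.imp_of_mem ?_ pw
    intro S S' hS hS' h heq
    obtain ⟨j, h1, _, h3⟩ := hf S hS
    obtain ⟨j', h1', _, h3'⟩ := hf S' hS'
    rw [h3, h3'] at heq
    have e1 := (Prod.ext_iff.1 heq).1
    have e2 := (Prod.ext_iff.1 heq).2
    simp only at e1 e2
    have hl : S.l = S'.l := G.meet _ _ _ _ _ _ e1 e2 (fun h => h1 h.symm)
    apply h hl
    have hk : S.k = S'.k := G.inj S.l (by rw [e1, hl])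
    rw [← hk]
    exact Conn.refl G (Finset.disjoint_left.1 hd (anc S hS).1)
  have hsub : (R.map f).toFinset ⊆ Mk ×ˢ Mk := by
    intro x hx
    rw [List.mem_toFinset, List.mem_map] at hx
    obtain ⟨S, hS, rfl⟩ := hx
    obtain ⟨j, _, h2, h3⟩ := hf S hS
    rw [h3]
    exact Finset.mem_product.2 ⟨(anc S hS).1, h2⟩
  have h1 := Finset.card_le_card hsub
  rw [List.toFinset_card_of_nodup hnd, Finset.card_product, List.length_map] at h1
  rw [sq]
  exact h1

end Pool.Agent.R183.PL
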