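import Pool.Agent.R183.PL.D2

/-! Part D, third file: killing the big intervals. -/

open Classical

namespace Pool.Agent.R183.PL

variable {P L : Type} [DecidableEq P] (G : LineSys P L)

/-- kill one big interval -/
theorem kill_one (th n : ℕ) (hth : 1 ≤ th) (Cl Br Mk : Finset P) (hMk : Mk ⊆ Cl)
    (l : L) (k : ℤ) (hn : lvI G Mk Br l k < n) :
    ∃ C : Finset P, C.card ≤ 2 * (n / th) ∧ Disjoint C Cl ∧
      ∀ Cl' Br' : Finset P, Cl ∪ C ⊆ Cl' → Br ∪ C ⊆ Br' → ∀ k', Conn G Br l k k' →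
        (∀ j, Conn G Br' l k' j → G.pt l j ∈ Cl') ∨ lvI G Mk Br' l k' < th := by
  obtain ⟨E, hE1, hE2, hE3⟩ := exists_net th hth _ (idx G Mk Br l k) rfl
  have hcl : ∀ e ∈ E, G.pt l e ∈ Cl := fun e he => hMk ((mem_idx G).1 (hE1 he)).1
  let f : ℤ → Finset P := fun e => if h : G.pt l e ∈ Cl then (kill G Cl Br l e h).choose else ∅
  have hf : ∀ e ∈ E, (f e).card ≤ 2 ∧ Disjoint (f e) Cl ∧
      ∀ Cl' Br' : Finset P, Cl ∪ f e ⊆ Cl' → Br ∪ f e ⊆ Br' → ∀ j, Conn G Br' l e j →
        G.pt l j ∈ Cl' := by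
    intro e he
    have h := hcl e he
    simp only [f, dif_pos h]
    exact (kill G Cl Br l e h).choose_spec
  refine ⟨E.biUnion f, ?_, ?_, ?_⟩
  · have h1 : (E.biUnion f).card ≤ E.card * 2 := Finset.card_biUnion_le_card_mul _ _ _
      (fun e he => (hf e he).1)
    have h2 : E.card ≤ n / th := by
      rw [Nat.le_div_iff_mul_le (by omega)]
      rw [card_idx] at hE2
      omega
    omega
  · rw [Finset.disjoint_biUnion_left]
    exact fun e he => (hf e he).2.1
  · intro Cl' Br' hCl hBr k' hk'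
    have hBB : Br ⊆ Br' := Finset.subset_union_left.trans hBr
    by_cases hcase : ∃ e ∈ E, Conn G Br' l k' e
    · left
      obtain ⟨e, he, hc⟩ := hcase
      intro j hj
      have h1 : f e ⊆ E.biUnion f := Finset.subset_biUnion_of_mem f he
      exact (hf e he).2.2 Cl' Br'
        ((Finset.union_subset_union_right h1).trans hCl)
        ((Finset.union_subset_union_right h1).trans hBr) j
        (Conn.trans G (Conn.symm G hc) hj)
    · right
      push Not at hcase
      have h1 := hE3 {j | Conn G Br' l k' j} (by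
        intro a ha b hb i hai hib
        simp only [Set.mem_ofPred_eq] at ha hb ⊢
        have hab : Conn G Br' l a b := Conn.trans G (Conn.symm G ha) hb
        exact Conn.trans G ha (Conn.sub G hab (by omega) (by omega)))
        (fun e he => hcase e he)
      refine lt_of_le_of_lt ?_ h1
      rw [← card_idx]
      refine Finset.card_le_card fun j hj => ?_
      obtain ⟨h2, h3⟩ := (mem_idx G).1 hj
      refine Finset.mem_filter.2 ⟨(mem_idx G).2 ⟨h2, Conn.trans G hk' (Conn.mono G hBB h3)⟩, h3⟩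

theorem kill_big (th n h M : ℕ) (hth : 1 ≤ th) (hh : 2 ≤ h) (Cl Br Mk A : Finset P)
    (hMk : Mk ⊆ Cl) (hd : Disjoint Mk Br) (hAM : A ⊆ Mk) (hM : A.card ≤ M)
    (hn : ∀ l k, G.pt l k ∈ Mk → lvI G Mk Br l k < n) :
    ∃ C : Finset P, C.card ≤ 2 * (n / th) * (M ^ 2 / (h * (h - 1))) ∧ Disjoint C Cl ∧
      ∀ Cl' Br' : Finset P, Cl ∪ C ⊆ Cl' → Br ∪ C ⊆ Br' → ∀ l k, G.pt l k ∈ Mk →
        h ≤ lvI G A Br l k →
        (∀ j, Conn G Br' l k j → G.pt l j ∈ Cl') ∨ lvI G Mk Br' l k < th := by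
  set S : Set (L × ℤ) := {x | G.pt x.1 x.2 ∈ Mk ∧ h ≤ lvI G A Br x.1 x.2 ∧
    medOf G Mk Br x.1 x.2 = x.2} with hS
  -- the pairs of new points in the interval
  let g : L × ℤ → Finset (P × P) := fun x => (A.filter (fun q => InI G Br x.1 x.2 q)).offDiag
  have hgcard : ∀ x ∈ S, h * (h - 1) ≤ (g x).card := by
    intro x hx
    have h1 : h ≤ (A.filter (fun q => InI G Br x.1 x.2 q)).card := hx.2.1
    simp only [g, Finset.offDiag_card]
    set y := (A.filter (fun q => InI G Br x.1 x.2 q)).card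
    have h2 : y * y - y = y * (y - 1) := by
      rw [Nat.mul_sub, mul_one]
    rw [h2]
    exact Nat.mul_le_mul h1 (by omega)
  have hkey : ∀ x ∈ S, ∀ y ∈ S, ∀ z, z ∈ g x → z ∈ g y → x = y := by
    intro x hx y hy z hzx hzy
    simp only [g, Finset.mem_offDiag, Finset.mem_filter] at hzx hzy
    obtain ⟨⟨_, j1, hj1, hc1⟩, ⟨_, j2, hj2, hc2⟩, hne⟩ := hzx
    obtain ⟨⟨_, i1, hi1, hd1⟩, ⟨_, i2, hi2, hd2⟩, _⟩ := hzy
    have hl : x.1 = y.1 := by
      refine G.meet _ _ _ _ _ _ (hj1.trans hi1.symm) (hj2.trans hi2.symm) ?_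
      rintro rfl
      exact hne (by rw [← hj1, ← hj2])
    rw [← hl] at hi1 hd1
    have hji : j1 = i1 := G.inj x.1 (by rw [hj1, hi1])
    have hcc : Conn G Br x.1 x.2 y.2 :=
      Conn.trans G hc1 (by rw [hji]; exact Conn.symm G hd1)
    have h2 := medOf_congr G (Mk := Mk) hcc
    have h3 : x.2 = y.2 := by
      have e1 := hx.2.2
      have e2 := hy.2.2
      rw [← hl] at e2
      rw [← e1, ← e2, h2]
    exact Prod.ext hl h3
  have hfin : S.Finite := by
    have hne : ∀ x ∈ S, (g x).Nonempty := by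
      intro x hx
      refine Finset.card_pos.1 (lt_of_lt_of_le ?_ (hgcard x hx))
      exact Nat.mul_pos (by omega) (by omega)
    let f : L × ℤ → P × P := fun x => if hx : (g x).Nonempty then hx.choose else
      (G.pt x.1 x.2, G.pt x.1 x.2)
    have hf : ∀ x ∈ S, f x ∈ g x := by
      intro x hx
      simp only [f, dif_pos (hne x hx)]
      exact (hne x hx).choose_spec
    refine Set.Finite.of_injOn (f := f) (t := ↑(A ×ˢ A)) ?_ ?_ (Finset.finite_toSet _)
    · intro x hx
      have := hf x hx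
      simp only [g, Finset.mem_offDiag, Finset.mem_filter] at this
      simp only [Finset.coe_product, Set.mem_prod, Finset.mem_coe]
      exact ⟨this.1.1, this.2.1.1⟩
    · intro x hx y hy hxy
      exact hkey x hx y hy (f x) (hf x hx) (by rw [hxy]; exact hf y hy)
  set T := hfin.toFinset with hT
  have hmT : ∀ x, x ∈ T ↔ x ∈ S := fun x => by rw [hT, Set.Finite.mem_toFinset]
  have hTcard : T.card ≤ M ^ 2 / (h * (h - 1)) := by
    rw [Nat.le_div_iff_mul_le (Nat.mul_pos (by omega) (by omega))]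
    have h1 : (T.biUnion g).card = ∑ x ∈ T, (g x).card := by
      refine Finset.card_biUnion ?_
      intro x hx y hy hxy
      change Disjoint (g x) (g y)
      rw [Finset.disjoint_left]
      intro z hzx hzy
      exact hxy (hkey x ((hmT x).1 (Finset.mem_coe.1 hx)) y ((hmT y).1 (Finset.mem_coe.1 hy)) z
        hzx hzy)
    have h2 : T.card * (h * (h - 1)) ≤ ∑ x ∈ T, (g x).card := by
      rw [← smul_eq_mul, ← Finset.sum_const]
      exact Finset.sum_le_sum fun x hx => hgcard x ((hmT x).1 hx)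
    have h3 : T.biUnion g ⊆ A ×ˢ A := by
      intro z hz
      obtain ⟨x, _, hx⟩ := Finset.mem_biUnion.1 hz
      simp only [g, Finset.mem_offDiag, Finset.mem_filter] at hx
      exact Finset.mem_product.2 ⟨hx.1.1, hx.2.1.1⟩
    have h4 := Finset.card_le_card h3
    rw [Finset.card_product] at h4
    have h5 : A.card * A.card ≤ M ^ 2 := by
      rw [sq]
      exact Nat.mul_le_mul hM hM
    omega
  -- choose the kill sets
  have hex : ∀ x : L × ℤ, ∃ C : Finset P, x ∈ S → (C.card ≤ 2 * (n / th) ∧ Disjoint C Cl ∧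
      ∀ Cl' Br' : Finset P, Cl ∪ C ⊆ Cl' → Br ∪ C ⊆ Br' → ∀ k', Conn G Br x.1 x.2 k' →
        (∀ j, Conn G Br' x.1 k' j → G.pt x.1 j ∈ Cl') ∨ lvI G Mk Br' x.1 k' < th) := by
    intro x
    by_cases hx : x ∈ S
    · obtain ⟨C, hC⟩ := kill_one G th n hth Cl Br Mk hMk x.1 x.2 (hn _ _ hx.1)
      exact ⟨C, fun _ => hC⟩
    · exact ⟨∅, fun h => absurd h hx⟩
  choose f hf using hex
  refine ⟨T.biUnion f, ?_, ?_, ?_⟩
  · have h1 : (T.biUnion f).card ≤ T.card * (2 * (n / th)) :=
      Finset.card_biUnion_le_card_mul _ _ _ (fun x hx => (hf x ((hmT x).1 hx)).1)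
    calc (T.biUnion f).card ≤ T.card * (2 * (n / th)) := h1
      _ ≤ (M ^ 2 / (h * (h - 1))) * (2 * (n / th)) := Nat.mul_le_mul_right _ hTcard
      _ = 2 * (n / th) * (M ^ 2 / (h * (h - 1))) := by ring
  · rw [Finset.disjoint_biUnion_left]
    exact fun x hx => (hf x ((hmT x).1 hx)).2.1
  · intro Cl' Br' hCl hBr l k hk hbig
    have hkBr : G.pt l k ∉ Br := Finset.disjoint_left.1 hd hk
    have hpos : 0 < lvI G Mk Br l k := by
      unfold lvI
      exact Finset.card_pos.2 ⟨G.pt l k, Finset.mem_filter.2 ⟨hk, k, rfl, Conn.refl G hkBr⟩⟩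
    obtain ⟨h1, h2, _, _⟩ := medOf_spec G hpos
    have hmem : (l, medOf G Mk Br l k) ∈ S := by
      refine ⟨h1, ?_, ?_⟩
      · simp only
        rw [← lvI_congr G A h2]
        exact hbig
      · simp only
        rw [← medOf_congr G h2]
    have h3 : f (l, medOf G Mk Br l k) ⊆ T.biUnion f :=
      Finset.subset_biUnion_of_mem f ((hmT _).2 hmem)
    exact (hf _ hmem).2.2 Cl' Br'
      ((Finset.union_subset_union_right h3).trans hCl)
      ((Finset.union_subset_union_right h3).trans hBr) k (Conn.symm G h2)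

end Pool.Agent.R183.PL
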