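import Pool.Agent.R183.PL.D3

/-! Part D, fourth file: one turn. -/

open Classical

namespace Pool.Agent.R183.PL

variable {P L : Type} [DecidableEq P] (G : LineSys P L)

theorem sld_of_pw {Br : Finset P} : ∀ {R : List (Rec L)},
    R.Pairwise (fun S S' => S.l = S'.l → ¬ Conn G Br S.l S.k S'.k) → SLD G Br (rays R) := by
  intro R
  induction R with
  | nil => intro _; simp [rays, SLD]
  | cons S R ih =>
    intro h
    obtain ⟨h1, h2⟩ := List.pairwise_cons.1 h
    have h3 := ih h2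
    rw [rays_cons]
    unfold SLD at *
    have key : ∀ r, (r.l = S.l ∧ r.k = S.k) → ∀ r' ∈ rays R, r.l = r'.l → ∀ q,
        ¬ (On G Br r q ∧ On G Br r' q) := by
      rintro r ⟨hr1, hr2⟩ r' hr' hl q ⟨⟨j, _, h5, h6⟩, ⟨j', _, h8, h9⟩⟩
      obtain ⟨S', hS', hm⟩ := mem_rays.1 hr'
      have hh : r'.l = S'.l ∧ r'.k = S'.k := by
        simp only [two, List.mem_cons, List.not_mem_nil, or_false] at hm
        rcases hm with rfl | rfl <;> simp
      have hlS : S.l = S'.l := by rw [← hr1, hl, hh.1]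
      refine h1 S' hS' hlS ?_
      rw [hr1, hr2] at h6
      rw [hr1] at h5
      rw [hh.1, hh.2, ← hlS] at h9
      rw [hh.1, ← hlS] at h8
      have hjj : j = j' := G.inj S.l (by rw [h5, h8])
      rw [← hjj] at h9
      exact Conn.trans G h6 (Conn.symm G h9)
    simp only [two, List.cons_append, List.nil_append]
    refine List.pairwise_cons.2 ⟨?_, List.pairwise_cons.2 ⟨?_, h3⟩⟩
    · intro r' hr'
      rcases List.mem_cons.1 hr' with rfl | hr'
      · rintro _ q ⟨⟨j, h4, h5, _⟩, ⟨j', h7, h8, _⟩⟩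
        simp only [side, if_true, Bool.false_eq_true, if_false] at h4 h7
        have hjj : j = j' := G.inj S.l (by rw [h5, h8])
        omega
      · exact key _ ⟨rfl, rfl⟩ r' hr'
    · intro r' hr'
      exact key _ ⟨rfl, rfl⟩ r' hr'

theorem other_point {Mk Br : Finset P} {l : L} {k : ℤ} (h : 2 ≤ lvI G Mk Br l k) :
    ∃ j, j ≠ k ∧ G.pt l j ∈ Mk := by
  rw [← card_idx] at h
  have h1 : 1 < (idx G Mk Br l k).card := by omega
  obtain ⟨a, ha, b, hb, hab⟩ := Finset.one_lt_card.1 h1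
  by_cases hak : a = k
  · exact ⟨b, fun h => hab (by rw [hak, h]), ((mem_idx G).1 hb).1⟩
  · exact ⟨a, hak, ((mem_idx G).1 ha).1⟩

theorem lvI_pos {Mk Br : Finset P} (hd : Disjoint Mk Br) {l : L} {k : ℤ} (hk : G.pt l k ∈ Mk) :
    0 < lvI G Mk Br l k := by
  unfold lvI
  exact Finset.card_pos.2 ⟨G.pt l k, Finset.mem_filter.2 ⟨hk, k, rfl,
    Conn.refl G (Finset.disjoint_left.1 hd hk)⟩⟩

/-- a point of `Mk` in a nonempty interval -/
theorem exists_mem_of_lvI {Mk Br : Finset P} {l : L} {k : ℤ} (h : 0 < lvI G Mk Br l k) :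
    ∃ j, G.pt l j ∈ Mk ∧ Conn G Br l k j := by
  unfold lvI at h
  obtain ⟨q, hq⟩ := Finset.card_pos.1 h
  obtain ⟨h1, j, h2, h3⟩ := Finset.mem_filter.1 hq
  exact ⟨j, by rw [h2]; exact h1, h3⟩

variable {G}

/-- (1): before the turn, a nonsolid interval has small level -/
theorem Inv.small {π : Par} {Cl Br Mk : Finset P} {R : List (Rec L)} {φ : ℕ}
    (hI : Inv G π Cl Br Mk R φ) {l : L} {k : ℤ} (hns : ∃ j, G.pt l j ∉ Cl ∧ Conn G Br l k j) :
    lvI G Mk Br l k < 2 * π.th := by
  by_contra hcon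
  push Not at hcon
  have hh := π.hh
  have hQK := π.hQK
  have hth : 1 ≤ π.th := by omega
  obtain ⟨k', h1, h2⟩ := exists_mem_of_lvI G (show 0 < lvI G Mk Br l k by omega)
  have h3 := lvI_congr G Mk h2
  obtain ⟨j, hj1, hj2⟩ := hns
  obtain ⟨S, hS, hSl, hSk⟩ := hI.cov l k' h1 (by omega)
    ⟨j, hj1, Conn.trans G (Conn.symm G h2) hj2⟩
  subst hSl
  have h4 := lvI_congr G Mk hSk
  have h5 := lvI_le_rays G Mk Br S.l S.k S.st S.st
  obtain ⟨h6, h7⟩ := hI.lv S hS
  have h8 := (hI.anc S hS).2.2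
  have h9 : π.Q S.st + π.h ≤ π.th := by
    unfold Par.Q
    have : 2 * π.h * S.st ≤ 2 * π.h * π.K := Nat.mul_le_mul_left _ (by omega)
    omega
  omega

theorem Inv.nowin {π : Par} {Cl Br Mk : Finset P} {R : List (Rec L)} {φ : ℕ}
    (hI : Inv G π Cl Br Mk R φ) (A : Finset P) (hA : Disjoint A Cl) (hM : A.card ≤ π.M)
    (l : L) (k : ℤ) (hk : G.pt l k ∈ Mk ∪ A) : lvI G (Mk ∪ A) Br l k < π.n := by
  have hn := π.hn
  by_cases hns : ∃ j, G.pt l j ∉ Cl ∧ Conn G Br l k j
  · have h1 := hI.small hns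
    have h2 := lvI_union G Mk A Br l k
    have h3 := lvI_le_card G A Br l k
    omega
  · push Not at hns
    have h0 : lvI G A Br l k = 0 := by
      unfold lvI
      rw [Finset.card_eq_zero, Finset.filter_eq_empty_iff]
      rintro q hq ⟨j, h1, h2⟩
      exact hns j (by rw [h1]; exact Finset.disjoint_left.1 hA hq) h2
    have hkM : G.pt l k ∈ Mk := by
      rcases Finset.mem_union.1 hk with h | h
      · exact h
      · exfalso
        have h1 : G.pt l k ∉ Cl := Finset.disjoint_left.1 hA h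
        exact hns k h1 (Conn.refl G fun h2 => h1 (hI.brcl h2))
    have h2 := lvI_union G Mk A Br l k
    have h3 := hI.lvn l k hkM
    omega

/-- the constant added at each turn -/
def Par.dl (π : Par) : ℕ := π.h * (2 * (1 + π.Lm)) * π.Nm ^ 2

def Par.B0 (π : Par) : ℕ := 2 * (π.n / π.th) * (π.M ^ 2 / (π.h * (π.h - 1))) + π.b

theorem turn {π : Par} {Cl Br Mk : Finset P} {R : List (Rec L)} {φ : ℕ}
    (hI : Inv G π Cl Br Mk R φ) (hK : 1 ≤ π.K) (hφ : φ < π.W ^ (π.K - 1) * π.A1 * π.h)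
    (A : Finset P) (hA : Disjoint A Cl) (hM : A.card ≤ π.M) (hN : (Mk ∪ A).card ≤ π.Nm) :
    ∃ C : Finset P, C.card ≤ π.B0 ∧ Disjoint C (Cl ∪ A) ∧
      ∀ C' : Finset P, C ⊆ C' → Disjoint C' (Cl ∪ A) →
        ∃ R', Inv G π (Cl ∪ A ∪ C') (Br ∪ C') (Mk ∪ A) R' (φ + π.dl) := by
  have hh := π.hh
  have hQK := π.hQK
  have hW := π.hW
  have hp := π.hp
  have hth : 2 ≤ π.th := by omega
  have hwin := hI.nowin A hA hM
  set Mk' := Mk ∪ A with hMk'
  set Cl' := Cl ∪ A with hCl'
  have hMMk : Mk ⊆ Mk' := Finset.subset_union_left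
  have hClCl : Cl ⊆ Cl' := Finset.subset_union_left
  have hmkcl' : Mk' ⊆ Cl' := Finset.union_subset_union_left hI.mkcl
  have hABr : Disjoint A Br := Finset.disjoint_of_subset_right hI.brcl hA
  have hdisj' : Disjoint Mk' Br := by
    rw [hMk', Finset.disjoint_union_left]
    exact ⟨hI.disj, hABr⟩
  -- the classes of records
  set big : Rec L → Prop := fun S => π.h ≤ lvI G A Br S.l S.k with hbig
  set hi : Rec L → Prop := fun S => π.Q S.st + π.h ≤ lvl G Mk' Br ⟨S.l, S.k, true, S.st⟩ ∨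
    π.Q S.st + π.h ≤ lvl G Mk' Br ⟨S.l, S.k, false, S.st⟩ with hhi
  set Pr := R.filter (fun S => decide (¬ big S ∧ hi S)) with hPr
  set St := R.filter (fun S => decide (¬ big S ∧ ¬ hi S)) with hSt
  have mPr : ∀ S, S ∈ Pr ↔ S ∈ R ∧ ¬ big S ∧ hi S := by
    intro S; simp [hPr, List.mem_filter]
  have mSt : ∀ S, S ∈ St ↔ S ∈ R ∧ ¬ big S ∧ ¬ hi S := by
    intro S; simp [hSt, List.mem_filter]
  set up : Rec L → Rec L := fun S => ⟨S.l, medOf G Mk' Br S.l S.k, S.st + 1⟩ with hup
  set Bs : Set (Rec L) := {S | S.st = 0 ∧ G.pt S.l S.k ∈ Mk' ∧ π.th ≤ lvI G Mk' Br S.l S.k ∧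
    (∃ j, G.pt S.l j ∉ Cl' ∧ Conn G Br S.l S.k j) ∧ ¬ big S ∧ medOf G Mk' Br S.l S.k = S.k ∧
    ∀ S' ∈ R, S'.l = S.l → ¬ Conn G Br S.l S'.k S.k} with hBs
  have hBsfin : Bs.Finite := by
    let f : Rec L → P × P := fun S =>
      if h : ∃ j, j ≠ S.k ∧ G.pt S.l j ∈ Mk' then (G.pt S.l S.k, G.pt S.l h.choose)
      else (G.pt S.l S.k, G.pt S.l S.k)
    have hf : ∀ S ∈ Bs, ∃ j, j ≠ S.k ∧ G.pt S.l j ∈ Mk' ∧ f S = (G.pt S.l S.k, G.pt S.l j) := by
      intro S hS
      have h : ∃ j, j ≠ S.k ∧ G.pt S.l j ∈ Mk' :=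
        other_point G (Mk := Mk') (Br := Br) (hth.trans hS.2.2.1)
      refine ⟨h.choose, h.choose_spec.1, h.choose_spec.2, ?_⟩
      simp only [f, dif_pos h]
    refine Set.Finite.of_injOn (f := f) (t := ↑(Mk' ×ˢ Mk')) ?_ ?_ (Finset.finite_toSet _)
    · intro S hS
      obtain ⟨j, _, h2, h3⟩ := hf S hS
      rw [h3]
      simp only [Finset.coe_product, Set.mem_prod, Finset.mem_coe]
      exact ⟨hS.2.1, h2⟩
    · intro S hS S' hS' heq
      obtain ⟨j, h1, _, h3⟩ := hf S hS
      obtain ⟨j', h1', _, h3'⟩ := hf S' hS'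
      rw [h3, h3'] at heq
      have e1 := (Prod.ext_iff.1 heq).1
      have e2 := (Prod.ext_iff.1 heq).2
      simp only at e1 e2
      have hl : S.l = S'.l := G.meet _ _ _ _ _ _ e1 e2 (fun h => h1 h.symm)
      have hk : S.k = S'.k := G.inj S.l (by rw [e1, hl])
      have hst : S.st = S'.st := by rw [hS.1, hS'.1]
      cases S; cases S'
      simp only at hl hk hst
      subst hl hk hst
      rfl
  set B := hBsfin.toFinset.toList with hB
  have mB : ∀ S, S ∈ B ↔ S ∈ Bs := by
    intro S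
    rw [hB, Finset.mem_toList, Set.Finite.mem_toFinset]
  have hBnd : B.Nodup := Finset.nodup_toList _
  set R' := (B ++ Pr.map up) ++ St with hR'
  have mR' : ∀ S, S ∈ R' ↔ S ∈ Bs ∨ (∃ S0 ∈ Pr, up S0 = S) ∨ S ∈ St := by
    intro S
    rw [hR', List.mem_append, List.mem_append, List.mem_map, mB, or_assoc]
  -- potential after Maker's move
  have hphiM : Phi G π Cl' Br Mk' R ≤ φ := by
    have h1 := levelR_maker G π Mk A Cl Br hA (rays R)
    rw [← hMk'] at h1
    have h2 := pot_mono G π.W π.p hClCl (Finset.Subset.refl Br) (rays R)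
    have h3 := sum_V_le G π.W A Cl Br (rays R) π.M hM (Phi G π Cl Br Mk R) π.A1 φ hI.phi hI.phiV
    have h4 := Nat.mul_le_mul_left π.h h2
    unfold Phi at h3 ⊢
    omega
  have hlevR : ∀ S ∈ R, levS G π Mk' Br S ≤ φ := by
    intro S hS
    have h1 : levS G π Mk' Br S ≤ levelR G π Mk' Br (rays R) := by
      rw [levelR_rays]
      exact List.single_le_sum (fun _ _ => Nat.zero_le _) _ (List.mem_map_of_mem hS)
    unfold Phi at hphiM
    omega
  -- facts about promoted records
  have hmed : ∀ S ∈ R, IsMed G Mk' Br S.l S.k (medOf G Mk' Br S.l S.k) := by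
    intro S hS
    exact medOf_spec G (lvI_pos G hdisj' (hMMk (hI.anc S hS).1))
  have hPrlev : ∀ S ∈ Pr, π.W ^ S.st * π.A1 * π.h ≤ levS G π Mk' Br S := by
    intro S hS
    have h1 := ((mPr S).1 hS).2.2
    unfold levS
    refine Nat.mul_le_mul_left _ ?_
    simp only [hhi] at h1
    omega
  have hPrst : ∀ S ∈ Pr, S.st + 1 < π.K := by
    intro S hS
    have hSR := ((mPr S).1 hS).1
    have h1 := hPrlev S hS
    have h2 := hlevR S hSR
    have h3 := (hI.anc S hSR).2.2
    by_contra hcon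
    have h4 : S.st = π.K - 1 := by omega
    rw [h4] at h1
    omega
  -- anchors
  have hanc : ∀ S ∈ R', G.pt S.l S.k ∈ Mk' ∧ (∃ j, j ≠ S.k ∧ G.pt S.l j ∈ Mk') ∧ S.st < π.K := by
    intro S hS
    rcases (mR' S).1 hS with h | ⟨S0, h, rfl⟩ | h
    · refine ⟨h.2.1, other_point G (Mk := Mk') (Br := Br) (hth.trans h.2.2.1), ?_⟩
      rw [h.1]; omega
    · have hSR := ((mPr S0).1 h).1
      refine ⟨(hmed S0 hSR).1, ?_, hPrst S0 h⟩
      obtain ⟨h1, ⟨j, h2, h3⟩, _⟩ := hI.anc S0 hSR
      simp only [hup]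
      by_cases h4 : j = medOf G Mk' Br S0.l S0.k
      · exact ⟨S0.k, fun h5 => h2 (h4.trans h5.symm), hMMk h1⟩
      · exact ⟨j, h4, hMMk h3⟩
    · have hSR := ((mSt S).1 h).1
      obtain ⟨h1, ⟨j, h2, h3⟩, h4⟩ := hI.anc S hSR
      exact ⟨hMMk h1, ⟨j, h2, hMMk h3⟩, h4⟩
  -- levels of new records
  have hBlv : ∀ S ∈ Bs, lvl G Mk' Br ⟨S.l, S.k, true, S.st⟩ ≤ π.Q S.st ∧
      lvl G Mk' Br ⟨S.l, S.k, false, S.st⟩ ≤ π.Q S.st := by
    rintro S ⟨h1, h2, h3, ⟨j, hj1, hj2⟩, h5, h6, h7⟩
    have hm := medOf_spec G (lvI_pos G hdisj' h2)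
    rw [h6] at hm
    have h8 : lvI G Mk Br S.l S.k < π.th := by
      by_contra hcon
      push Not at hcon
      obtain ⟨k', hk1, hk2⟩ := exists_mem_of_lvI G (show 0 < lvI G Mk Br S.l S.k by omega)
      obtain ⟨S', hS', hl', hc'⟩ := hI.cov S.l k' hk1 (by rw [← lvI_congr G Mk hk2]; exact hcon)
        ⟨j, fun h => hj1 (hClCl h), Conn.trans G (Conn.symm G hk2) hj2⟩
      exact h7 S' hS' hl' (Conn.trans G hc' (Conn.symm G hk2))
    have h9 := lvI_union G Mk A Br S.l S.k
    rw [← hMk'] at h9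
    simp only [hbig, not_le] at h5
    have h10 := hm.2.2.1 S.st
    have h11 := hm.2.2.2 S.st
    have hQ0 := π.hQ0
    have hQ : π.Q0 ≤ π.Q S.st := by unfold Par.Q; omega
    constructor <;> omega
  have hUlv : ∀ S ∈ Pr, lvl G Mk' Br ⟨(up S).l, (up S).k, true, (up S).st⟩ ≤ π.Q (up S).st ∧
      lvl G Mk' Br ⟨(up S).l, (up S).k, false, (up S).st⟩ ≤ π.Q (up S).st := by
    intro S hS
    obtain ⟨hSR, hnb, _⟩ := (mPr S).1 hS
    have hm := hmed S hSR
    obtain ⟨h1, h2⟩ := hI.lv S hSR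
    have h3 := lvI_le_rays G Mk Br S.l S.k S.st S.st
    have h4 := lvI_union G Mk A Br S.l S.k
    rw [← hMk'] at h4
    simp only [hbig, not_le] at hnb
    have h5 := hm.2.2.1 (S.st + 1)
    have h6 := hm.2.2.2 (S.st + 1)
    simp only [hup]
    have hQ : π.Q (S.st + 1) = π.Q S.st + 2 * π.h := by unfold Par.Q; ring
    rw [hQ]
    constructor <;> omega
  have hlv : ∀ S ∈ R', lvl G Mk' Br ⟨S.l, S.k, true, S.st⟩ < π.Q S.st + π.h ∧
      lvl G Mk' Br ⟨S.l, S.k, false, S.st⟩ < π.Q S.st + π.h := by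
    intro S hS
    rcases (mR' S).1 hS with h | ⟨S0, h, rfl⟩ | h
    · have := hBlv S h
      omega
    · have := hUlv S0 h
      omega
    · have := ((mSt S).1 h).2.2
      simp only [hhi, not_or, not_le] at this
      exact this
  -- pairwise
  have hsym : ∀ S ∈ R, ∀ S' ∈ R, S ≠ S' → S.l = S'.l → ¬ Conn G Br S.l S.k S'.k := by
    have h1 := hI.pw
    intro S hS S' hS' hne
    haveI : Std.Symm (fun S S' : Rec L => S.l = S'.l → ¬ Conn G Br S.l S.k S'.k) := by
      refine ⟨fun a b hab hl hc => ?_⟩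
      rw [hl] at hc
      exact hab hl.symm (Conn.symm G hc)
    exact List.Pairwise.forall h1 hS hS' hne
  have hpw : R'.Pairwise (fun S S' => S.l = S'.l → ¬ Conn G Br S.l S.k S'.k) := by
    rw [hR', List.pairwise_append, List.pairwise_append]
    refine ⟨⟨?_, ?_, ?_⟩, ?_, ?_⟩
    · refine List.Pairwise.imp_of_mem ?_ hBnd
      intro S S' hS hS' hne hl hc
      have h1 := (mB S).1 hS
      have h2 := (mB S').1 hS'
      apply hne
      have hk : S.k = S'.k := by
        have e1 := h1.2.2.2.2.2.1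
        have e2 := h2.2.2.2.2.2.1
        rw [← hl] at e2
        rw [← e1, ← e2]
        exact medOf_congr G hc
      have hst : S.st = S'.st := by rw [h1.1, h2.1]
      cases S; cases S'
      simp only at hl hk hst
      subst hl hk hst
      rfl
    · rw [List.pairwise_map]
      refine List.Pairwise.imp_of_mem ?_ (List.Pairwise.sublist List.filter_sublist hI.pw)
      intro S S' hS hS' h hl hc
      simp only [hup] at hl hc
      have m1 := (hmed S ((mPr S).1 hS).1).2.1
      have m2 := (hmed S' ((mPr S').1 hS').1).2.1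
      rw [← hl] at m2 hc
      exact h hl (Conn.trans G m1 (Conn.trans G hc (Conn.symm G m2)))
    · intro S hS S' hS' hl hc
      obtain ⟨S0, hS0, rfl⟩ := List.mem_map.1 hS'
      have h1 := (mB S).1 hS
      simp only [hup] at hl hc
      have m2 := (hmed S0 ((mPr S0).1 hS0).1).2.1
      rw [← hl] at m2 hc
      exact h1.2.2.2.2.2.2 S0 ((mPr S0).1 hS0).1 hl.symm
        (Conn.trans G m2 (Conn.symm G hc))
    · exact List.Pairwise.sublist List.filter_sublist hI.pw
    · intro S hS S' hS' hl hc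
      have h2 := (mSt S').1 hS'
      rcases List.mem_append.1 hS with h | h
      · have h1 := (mB S).1 h
        exact h1.2.2.2.2.2.2 S' h2.1 hl.symm (Conn.symm G hc)
      · obtain ⟨S0, hS0, rfl⟩ := List.mem_map.1 h
        have h1 := (mPr S0).1 hS0
        simp only [hup] at hl hc
        have m1 := (hmed S0 h1.1).2.1
        refine hsym S0 h1.1 S' h2.1 ?_ hl (Conn.trans G m1 hc)
        rintro rfl
        exact h2.2.2 h1.2.2
  -- length
  have hlen : R'.length ≤ π.Nm ^ 2 := by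
    have h1 := length_le G hdisj' R' (fun S hS => ⟨(hanc S hS).1, (hanc S hS).2.1⟩) hpw
    exact h1.trans (Nat.pow_le_pow_left hN 2)
  -- potential of the new list
  have hphi' : Phi G π Cl' Br Mk' R' ≤ φ + π.dl := by
    have hlevN : ((B ++ Pr.map up).map (levS G π Mk' Br)).sum = 0 := by
      rw [List.sum_eq_zero_iff]
      intro x hx
      obtain ⟨S, hS, rfl⟩ := List.mem_map.1 hx
      have h0 : lvl G Mk' Br ⟨S.l, S.k, true, S.st⟩ ≤ π.Q S.st ∧
          lvl G Mk' Br ⟨S.l, S.k, false, S.st⟩ ≤ π.Q S.st := by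
        rcases List.mem_append.1 hS with h | h
        · exact hBlv S ((mB S).1 h)
        · obtain ⟨S0, hS0, rfl⟩ := List.mem_map.1 h
          exact hUlv S0 hS0
      unfold levS
      have h1 : lvl G Mk' Br ⟨S.l, S.k, true, S.st⟩ - π.Q S.st = 0 := by omega
      have h2 : lvl G Mk' Br ⟨S.l, S.k, false, S.st⟩ - π.Q S.st = 0 := by omega
      rw [h1, h2]
      simp
    have h1 : levelR G π Mk' Br (rays R') = (St.map (levS G π Mk' Br)).sum := by
      rw [levelR_rays, hR', List.map_append, List.sum_append, hlevN, Nat.zero_add]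
    have h2 := filter_sum (levS G π Mk' Br) (fun S => decide (¬ big S ∧ hi S))
      (fun S => decide (¬ big S ∧ ¬ hi S)) (by
        intro a
        simp only [decide_eq_true_eq]
        tauto) R
    have h3 := pot_append G π Cl' Br St (B ++ Pr.map up) hlen
      (fun S hS => le_of_lt (hanc S hS).2.2)
    have h4 := pot_sublist G π.W π.p Cl' Br (rays_sublist
      (List.filter_sublist (l := R) (p := fun S => decide (¬ big S ∧ ¬ hi S))))
    rw [← hSt] at h4 h2
    rw [← hPr] at h2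
    -- cost of the new records
    have h5 : ((B ++ Pr.map up).map (fun S => 2 * π.W ^ S.st * (1 + π.Lm))).sum
        ≤ 2 * (1 + π.Lm) * B.length + (Pr.map (fun S => 2 * π.W ^ (S.st + 1) * (1 + π.Lm))).sum := by
      rw [List.map_append, List.sum_append]
      refine Nat.add_le_add ?_ ?_
      · have : ∀ S ∈ B, 2 * π.W ^ S.st * (1 + π.Lm) = 2 * (1 + π.Lm) := by
          intro S hS
          rw [((mB S).1 hS).1]
          simp
        rw [List.map_congr_left this]
        simp only [List.map_const', List.sum_replicate, smul_eq_mul]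
        rw [mul_comm]
      · rw [List.map_map]
        exact le_refl _
    have h6 : π.h * (Pr.map (fun S => 2 * π.W ^ (S.st + 1) * (1 + π.Lm))).sum
        ≤ (Pr.map (levS G π Mk' Br)).sum := by
      rw [← List.sum_map_mul_left]
      refine List.sum_le_sum fun S hS => ?_
      refine le_trans ?_ (hPrlev S hS)
      have hA1 := π.hA1
      calc π.h * (2 * π.W ^ (S.st + 1) * (1 + π.Lm))
          = π.W ^ S.st * (2 * π.W * (1 + π.Lm)) * π.h := by ring
        _ ≤ π.W ^ S.st * π.A1 * π.h :=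
            Nat.mul_le_mul_right _ (Nat.mul_le_mul_left _ hA1)
    have h7 : B.length ≤ π.Nm ^ 2 := by
      have : B.length ≤ R'.length := by
        rw [hR']
        simp only [List.length_append, List.length_map]
        omega
      omega
    have h8 : π.h * (2 * (1 + π.Lm) * B.length) ≤ π.dl := by
      unfold Par.dl
      calc π.h * (2 * (1 + π.Lm) * B.length) = π.h * (2 * (1 + π.Lm)) * B.length := by ring
        _ ≤ π.h * (2 * (1 + π.Lm)) * π.Nm ^ 2 := Nat.mul_le_mul_left _ h7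
    have h9 : π.h * pot G π.W π.p Cl' Br (rays R') ≤ π.h * pot G π.W π.p Cl' Br (rays R)
        + (π.h * (2 * (1 + π.Lm) * B.length) +
          π.h * (Pr.map (fun S => 2 * π.W ^ (S.st + 1) * (1 + π.Lm))).sum) := by
      rw [← Nat.mul_add, ← Nat.mul_add]
      refine Nat.mul_le_mul_left _ ?_
      rw [hR']
      omega
    have h10 : levelR G π Mk' Br (rays R) = (R.map (levS G π Mk' Br)).sum := levelR_rays G π Mk' Br R
    unfold Phi at hphiM ⊢
    omega
  -- covering after the births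
  have hcov : ∀ l k, G.pt l k ∈ Mk' → π.th ≤ lvI G Mk' Br l k →
      (∃ j, G.pt l j ∉ Cl' ∧ Conn G Br l k j) → ¬ π.h ≤ lvI G A Br l k →
      ∃ S ∈ R', S.l = l ∧ Conn G Br l S.k k := by
    intro l k hk hlev hns hnb
    by_cases hex : ∃ S ∈ R, S.l = l ∧ Conn G Br l S.k k
    · obtain ⟨S, hS, hl, hc⟩ := hex
      subst hl
      have hnbS : ¬ big S := by
        simp only [hbig]
        rw [lvI_congr G A hc]
        exact hnb
      by_cases hhiS : hi S
      · refine ⟨up S, (mR' _).2 (Or.inr (Or.inl ⟨S, (mPr S).2 ⟨hS, hnbS, hhiS⟩, rfl⟩)), rfl, ?_⟩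
        simp only [hup]
        exact Conn.trans G (Conn.symm G (hmed S hS).2.1) hc
      · exact ⟨S, (mR' _).2 (Or.inr (Or.inr ((mSt S).2 ⟨hS, hnbS, hhiS⟩))), rfl, hc⟩
    · push Not at hex
      have hm := medOf_spec G (lvI_pos G hdisj' hk)
      obtain ⟨j, hj1, hj2⟩ := hns
      refine ⟨⟨l, medOf G Mk' Br l k, 0⟩, (mR' _).2 (Or.inl ?_), rfl, Conn.symm G hm.2.1⟩
      refine ⟨rfl, hm.1, ?_, ⟨j, hj1, ?_⟩, ?_, ?_, ?_⟩
      · simp only
        rw [← lvI_congr G Mk' hm.2.1]
        exact hlev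
      · exact Conn.trans G (Conn.symm G hm.2.1) hj2
      · simp only [hbig]
        rw [← lvI_congr G A hm.2.1]
        exact hnb
      · simp only
        rw [← medOf_congr G hm.2.1]
      · intro S' hS' hl' hc'
        simp only at hl' hc'
        exact hex S' hS' hl' (Conn.trans G hc' (Conn.symm G hm.2.1))
  -- Breaker's points
  obtain ⟨C1, hC1a, hC1b, hC1c⟩ := kill_big G π.th π.n π.h π.M (by omega) hh Cl' Br Mk' A hmkcl'
    hdisj' Finset.subset_union_right hM hwin
  have hsld : SLD G (Br ∪ C1) (rays R') :=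
    SLD.mono G Finset.subset_union_left (sld_of_pw G hpw)
  have hbrcl1 : Br ∪ C1 ⊆ Cl' ∪ C1 := Finset.union_subset_union_left (hI.brcl.trans hClCl)
  have hlen2 : (rays R').length ^ 2 ≤ 2 ^ π.p := by
    refine le_trans (Nat.pow_le_pow_left ?_ 2) π.hNm
    rw [length_rays]
    omega
  obtain ⟨C2, hC2a, hC2b, hC2c⟩ := partC G π.W π.p π.b (Cl' ∪ C1) (Br ∪ C1) (rays R') hW hp
    hbrcl1 hsld hlen2
  refine ⟨C1 ∪ C2, ?_, ?_, ?_⟩
  · have := Finset.card_union_le C1 C2
    unfold Par.B0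
    omega
  · rw [Finset.disjoint_union_left]
    exact ⟨hC1b, Finset.disjoint_of_subset_right Finset.subset_union_left hC2b⟩
  · intro C' hC' hC'd
    have hC1C' : C1 ⊆ C' := Finset.subset_union_left.trans hC'
    have hC2C' : C2 ⊆ C' := Finset.subset_union_right.trans hC'
    have hBB : Br ⊆ Br ∪ C' := Finset.subset_union_left
    have hCC : Cl' ⊆ Cl' ∪ C' := Finset.subset_union_left
    have hdisj2 : Disjoint Mk' (Br ∪ C') := by
      rw [Finset.disjoint_union_right]
      exact ⟨hdisj', (Finset.disjoint_of_subset_right hmkcl' hC'd).symm⟩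
    -- potential
    have hpotV : ∀ q, Phi G π (Cl' ∪ C') (Br ∪ C') Mk' R' + π.A1 * π.M *
        V G π.W (Cl' ∪ C') (Br ∪ C') (rays R') q ≤ φ + π.dl := by
      intro q
      have e1 : Cl' ∪ C1 ∪ C2 ⊆ Cl' ∪ C' := by
        rw [Finset.union_assoc]
        exact Finset.union_subset_union_right hC'
      have e2 : Br ∪ C1 ∪ C2 ⊆ Br ∪ C' := by
        rw [Finset.union_assoc]
        exact Finset.union_subset_union_right hC'
      have h1 := hC2c q
      have h2 := V_mono G π.W e1 e2 (rays R') q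
      have h3 := pot_mono G π.W π.p e1 e2 (rays R')
      have h4 := pot_mono G π.W π.p (Finset.subset_union_left (s₁ := Cl') (s₂ := C1))
        (Finset.subset_union_left (s₁ := Br) (s₂ := C1)) (rays R')
      have h5 := levelR_mono G π Mk' hBB (rays R')
      unfold Phi at hphi' ⊢
      set v := V G π.W (Cl' ∪ C') (Br ∪ C') (rays R') q
      set pf := pot G π.W π.p (Cl' ∪ C') (Br ∪ C') (rays R')
      set p0 := pot G π.W π.p Cl' Br (rays R')
      have h6 : π.b * v + 32 * (π.p + 1) * pf ≤ 32 * (π.p + 1) * p0 := by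
        have a1 := Nat.mul_le_mul_left π.b h2
        have a2 := Nat.mul_le_mul_left (32 * (π.p + 1)) h3
        have a3 := Nat.mul_le_mul_left (32 * (π.p + 1)) h4
        omega
      have h7 : 32 * (π.p + 1) * (π.A1 * π.M * v + π.h * pf) ≤ 32 * (π.p + 1) * (π.h * p0) := by
        calc 32 * (π.p + 1) * (π.A1 * π.M * v + π.h * pf)
            = (32 * (π.p + 1) * (π.A1 * π.M)) * v + 32 * (π.p + 1) * (π.h * pf) := by ring
          _ ≤ (π.h * π.b) * v + 32 * (π.p + 1) * (π.h * pf) :=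
              Nat.add_le_add_right (Nat.mul_le_mul_right _ π.hb) _
          _ = π.h * (π.b * v + 32 * (π.p + 1) * pf) := by ring
          _ ≤ π.h * (32 * (π.p + 1) * p0) := Nat.mul_le_mul_left _ h6
          _ = 32 * (π.p + 1) * (π.h * p0) := by ring
      have h8 : π.A1 * π.M * v + π.h * pf ≤ π.h * p0 :=
        Nat.le_of_mul_le_mul_left h7 (by omega)
      omega
    refine ⟨R', ⟨?_, ?_, ?_, hanc, ?_, ?_, ?_, ?_, ?_, hpotV⟩⟩
    · exact Finset.union_subset_union_left (hI.brcl.trans hClCl)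
    · exact hmkcl'.trans hCC
    · exact hdisj2
    · intro S hS
      obtain ⟨h1, h2⟩ := hlv S hS
      exact ⟨lt_of_le_of_lt (lvl_mono G Mk' hBB _) h1, lt_of_le_of_lt (lvl_mono G Mk' hBB _) h2⟩
    · refine List.Pairwise.imp ?_ hpw
      intro S S' h hl hc
      exact h hl (Conn.mono G hBB hc)
    · intro l k hk hlev hns
      obtain ⟨j, hj1, hj2⟩ := hns
      by_cases hb : π.h ≤ lvI G A Br l k
      · exfalso
        rcases hC1c (Cl' ∪ C') (Br ∪ C') (Finset.union_subset_union_right hC1C')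
          (Finset.union_subset_union_right hC1C') l k hk hb with h | h
        · exact hj1 (h j hj2)
        · omega
      · obtain ⟨S, hS, hl, hc⟩ := hcov l k hk (hlev.trans (lvI_mono G Mk' hBB l k))
          ⟨j, fun h => hj1 (hCC h), Conn.mono G hBB hj2⟩ hb
        refine ⟨S, hS, hl, ?_⟩
        subst hl
        by_contra hcon
        have hkBr : G.pt S.l k ∉ Br ∪ C' := Finset.disjoint_left.1 hdisj2 hk
        have hne : S.k ≠ k := by
          intro h
          rw [h] at hcon
          exact hcon (Conn.refl G hkBr)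
        obtain ⟨h1, h2⟩ := hlv S hS
        have h9 : π.Q S.st + π.h ≤ π.th := by
          unfold Par.Q
          have h10 := (hanc S hS).2.2
          have : 2 * π.h * S.st ≤ 2 * π.h * π.K := Nat.mul_le_mul_left _ (by omega)
          omega
        rcases lt_or_gt_of_ne hne with h3 | h3
        · have h4 : lvI G Mk' (Br ∪ C') S.l k ≤ lvl G Mk' Br ⟨S.l, S.k, true, S.st⟩ := by
            refine Finset.card_le_card fun q hq => ?_
            obtain ⟨g1, i, g2, g3⟩ := Finset.mem_filter.1 hq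
            refine Finset.mem_filter.2 ⟨g1, i, ?_, g2, Conn.trans G hc (Conn.mono G hBB g3)⟩
            simp only [side, if_true]
            by_contra hle
            apply hcon
            exact Conn.symm G (Conn.sub G g3 (by omega) (by omega))
          omega
        · have h4 : lvI G Mk' (Br ∪ C') S.l k ≤ lvl G Mk' Br ⟨S.l, S.k, false, S.st⟩ := by
            refine Finset.card_le_card fun q hq => ?_
            obtain ⟨g1, i, g2, g3⟩ := Finset.mem_filter.1 hq
            refine Finset.mem_filter.2 ⟨g1, i, ?_, g2, Conn.trans G hc (Conn.mono G hBB g3)⟩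
            simp only [side, Bool.false_eq_true, if_false]
            by_contra hle
            apply hcon
            exact Conn.symm G (Conn.sub G g3 (by omega) (by omega))
          omega
    · intro l k hk
      exact lt_of_le_of_lt (lvI_mono G Mk' hBB l k) (hwin l k hk)
    · exact (Phi_mono G π Mk' hCC hBB R').trans hphi'

end Pool.Agent.R183.PL
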