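import Mathlib

/-!
Point-line Maker-Breaker games: definitions and exact statements of the pieces.
Notes and proofs: see NOTES.md in this folder.
-/

open Classical

namespace Pool.Agent.R183.PL

/-- A system of lines: each line `l` is a copy of the integers, two different
lines have at most one common point. -/
structure LineSys (P L : Type) where
  pt : L → ℤ → P
  inj : ∀ l, Function.Injective (pt l)
  meet : ∀ l l' i j i' j', pt l i = pt l' i' → pt l j = pt l' j' → i ≠ j → l = l'

variable {P L : Type} [DecidableEq P] (G : LineSys P L)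

/-- no point of `Br` on line `l` from index `k` to index `j` (inclusive) -/
def Conn (Br : Finset P) (l : L) (k j : ℤ) : Prop :=
  ∀ i, min k j ≤ i → i ≤ max k j → G.pt l i ∉ Br

/-- A ray: line, anchor index, side (true = larger indices), stage. -/
structure Ray (L : Type) where
  l : L
  k : ℤ
  s : Bool
  st : ℕ

def side (s : Bool) (k j : ℤ) : Prop := if s = true then k < j else j < k

/-- `q` lies on the ray, strictly beyond the anchor, and no point of `Br` lies between the
anchor and `q` (inclusive). -/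
def On (Br : Finset P) (r : Ray L) (q : P) : Prop :=
  ∃ j, side r.s r.k j ∧ G.pt r.l j = q ∧ Conn G Br r.l r.k j

/-- weighted richness of `q` (zero for claimed points); `W` is the base of the weights -/
noncomputable def V (W : ℕ) (Cl Br : Finset P) (t : List (Ray L)) (q : P) : ℕ :=
  if q ∈ Cl then 0 else (t.map (fun r => if On G Br r q then W ^ r.st else 0)).sum

/-- crossing points of the line of `r` with other lines of rays of `t` -/
def crossSet (r : Ray L) (t : List (Ray L)) : Set P :=
  {q | ∃ r' ∈ t, r'.l ≠ r.l ∧ (∃ i, G.pt r.l i = q) ∧ ∃ j, G.pt r'.l j = q}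

theorem crossSet_finite (r : Ray L) (t : List (Ray L)) : (crossSet G r t).Finite := by
  have h : crossSet G r t ⊆ ⋃ r' ∈ {r' | r' ∈ t}, {q | r'.l ≠ r.l ∧ (∃ i, G.pt r.l i = q) ∧
      ∃ j, G.pt r'.l j = q} := by
    rintro q ⟨r', h1, h2⟩
    simp only [Set.mem_iUnion]
    exact ⟨r', h1, h2⟩
  refine Set.Finite.subset (Set.Finite.biUnion (List.finite_toSet t) ?_) h
  intro r' _
  apply Set.Subsingleton.finite
  rintro q ⟨h1, ⟨i, hi⟩, ⟨j, hj⟩⟩ q' ⟨_, ⟨i', hi'⟩, ⟨j', hj'⟩⟩
  by_contra hne
  apply h1
  refine (G.meet r.l r'.l i i' j j' (by rw [hi, hj]) (by rw [hi', hj']) ?_).symm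
  rintro rfl
  exact hne (by rw [← hi, ← hi'])

noncomputable def cross (r : Ray L) (t : List (Ray L)) : Finset P := (crossSet_finite G r t).toFinset

/-- the mass of crossing points on the ray -/
noncomputable def mu (W p : ℕ) (Cl Br : Finset P) (r : Ray L) (t : List (Ray L)) : ℕ :=
  ∑ q ∈ cross G r t, if On G Br r q then V G W Cl Br t q ^ p else 0

/-- the ray contains an unclaimed point -/
def NS (Cl Br : Finset P) (r : Ray L) : Prop := ∃ q, q ∉ Cl ∧ On G Br r q

/-- potential of a list of rays (newest first) -/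
noncomputable def pot (W p : ℕ) (Cl Br : Finset P) : List (Ray L) → ℕ
  | [] => 0
  | r :: t => W ^ r.st * ((if NS G Cl Br r then 1 else 0) + (mu G W p Cl Br r t).size)
      + pot W p Cl Br t

/-- two different rays of the list on the same line never contain a common point -/
def SLD (Br : Finset P) (t : List (Ray L)) : Prop :=
  t.Pairwise (fun r r' => r.l = r'.l → ∀ q, ¬ (On G Br r q ∧ On G Br r' q))

/-- PART C. -/
def PartC : Prop := ∀ (W p b : ℕ) (Cl Br : Finset P) (t : List (Ray L)),
  1 ≤ W → 1 ≤ p → Br ⊆ Cl → SLD G Br t → t.length ^ 2 ≤ 2 ^ p →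
  ∃ C : Finset P, C.card ≤ b ∧ Disjoint C Cl ∧
    ∀ q, b * V G W (Cl ∪ C) (Br ∪ C) t q + 32 * (p + 1) * pot G W p (Cl ∪ C) (Br ∪ C) t
      ≤ 32 * (p + 1) * pot G W p Cl Br t

end Pool.Agent.R183.PL
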