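import Mathlib

/-!
# The point-line Maker-Breaker game on the integer lattice

Two players claim points of `ℤ × ℤ`.  In timestep `t` Maker claims `m t` unclaimed points and
then Breaker claims `b t` unclaimed points.
-/

namespace Pool.Agent.R183.PL

/-- The lattice point `r` lies on the closed segment with end points `p` and `q`. -/
def OnSeg (p q r : ℤ × ℤ) : Prop :=
  ∃ s : ℝ, 0 ≤ s ∧ s ≤ 1 ∧ (r.1 : ℝ) = p.1 + s * ((q.1 : ℝ) - p.1) ∧
    (r.2 : ℝ) = p.2 + s * ((q.2 : ℝ) - p.2)

/-- Maker (who owns `Mk`) has a winning line segment of `n` points: `n` of his points lie on a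
common straight line of the plane, and no Breaker point lies on that line between two of them
(equivalently, between the first and the last of them). -/
def WinSeg (n : ℕ) (Mk Br : Finset (ℤ × ℤ)) : Prop :=
  ∃ A : Finset (ℤ × ℤ), A ⊆ Mk ∧ A.card = n ∧
    (∃ a b c : ℝ, (a ≠ 0 ∨ b ≠ 0) ∧ ∀ p ∈ A, a * (p.1 : ℝ) + b * (p.2 : ℝ) = c) ∧
    ∀ p ∈ A, ∀ q ∈ A, ∀ r ∈ Br, ¬ OnSeg p q r

/-- `Forces m b n k t Mk Br`: in the position where Maker owns `Mk`, Breaker owns `Br` and
timestep `t` starts (Maker to move), Maker can guarantee that he forms a winning line segment of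
`n` points within his next `k` turns (timesteps `t, t+1, ..., t+k-1`), whatever Breaker does. -/
def Forces (m b : ℕ → ℕ) (n : ℕ) : ℕ → ℕ → Finset (ℤ × ℤ) → Finset (ℤ × ℤ) → Prop
  | 0, _, _, _ => False
  | k + 1, t, Mk, Br => ∃ A : Finset (ℤ × ℤ), A.card = m t ∧ Disjoint A (Mk ∪ Br) ∧
      (WinSeg n (Mk ∪ A) Br ∨
        ∀ C : Finset (ℤ × ℤ), C.card = b t → Disjoint C (Mk ∪ A ∪ Br) →
          Forces m b n k (t + 1) (Mk ∪ A) (Br ∪ C))

/-- By the end of timestep `T` Maker can guarantee, against every Breaker strategy, to have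
formed a winning line segment of `n` points. -/
def MakerBy (m b : ℕ → ℕ) (n T : ℕ) : Prop := Forces m b n T 1 ∅ ∅

/-- `τ` is the earliest timestep `τ_n` by which Maker can guarantee to have formed a winning
line segment of `n` points. -/
def IsTau (m b : ℕ → ℕ) (n τ : ℕ) : Prop := IsLeast {T | MakerBy m b n T} τ

/-- The game `(m,b)` is a Maker win: there is `ε > 0` with `m (τ_n) < (1 - ε) n` for all
sufficiently large `n`. -/
def MakerWin (m b : ℕ → ℕ) : Prop :=
  ∃ ε : ℝ, 0 < ε ∧ ∀ᶠ n : ℕ in Filter.atTop, ∃ τ, IsTau m b n τ ∧ (m τ : ℝ) < (1 - ε) * n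

end Pool.Agent.R183.PL
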