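import Pool.Agent.R183.PL.D4
import Pool.Agent.R183.PL.Game

/-! The line system of the lattice. -/

open Classical

namespace Pool.Agent.R183.PL

/-- lattice lines -/
def LL : Type := {S : Set (ℤ × ℤ) // ∃ p d : ℤ × ℤ, IsCoprime d.1 d.2 ∧
  S = Set.range (fun k : ℤ => ((p.1 + k * d.1, p.2 + k * d.2) : ℤ × ℤ))}

noncomputable def LL.p (l : LL) : ℤ × ℤ := l.2.choose
noncomputable def LL.d (l : LL) : ℤ × ℤ := l.2.choose_spec.choose

theorem LL.cop (l : LL) : IsCoprime l.d.1 l.d.2 := l.2.choose_spec.choose_spec.1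
theorem LL.eq (l : LL) : l.1 = Set.range (fun k : ℤ =>
    ((l.p.1 + k * l.d.1, l.p.2 + k * l.d.2) : ℤ × ℤ)) := l.2.choose_spec.choose_spec.2

/-- if `v` is parallel to the primitive vector `d` then it is an integer multiple -/
theorem par (v d : ℤ × ℤ) (hd : IsCoprime d.1 d.2) (h : v.1 * d.2 = v.2 * d.1) :
    ∃ c : ℤ, v.1 = c * d.1 ∧ v.2 = c * d.2 := by
  obtain ⟨x, y, hxy⟩ := hd
  refine ⟨x * v.1 + y * v.2, ?_, ?_⟩
  · linear_combination (-v.1) * hxy + y * h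
  · linear_combination (-v.2) * hxy - x * h

noncomputable def G2 : LineSys (ℤ × ℤ) LL where
  pt l k := (l.p.1 + k * l.d.1, l.p.2 + k * l.d.2)
  inj := by
    intro l k k' h
    simp only [Prod.mk.injEq] at h
    obtain ⟨h1, h2⟩ := h
    obtain ⟨x, y, hxy⟩ := l.cop
    have h3 : (k - k') * l.d.1 = 0 := by linear_combination h1
    have h4 : (k - k') * l.d.2 = 0 := by linear_combination h2
    have h5 : k - k' = 0 := by linear_combination x * h3 + y * h4 - (k - k') * hxy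
    omega
  meet := by
    intro l l' i j i' j' h1 h2 hij
    simp only [Prod.mk.injEq] at h1 h2
    obtain ⟨h11, h12⟩ := h1
    obtain ⟨h21, h22⟩ := h2
    have hcr : l.d.1 * l'.d.2 = l.d.2 * l'.d.1 := by
      have h3 : (j - i) * (l.d.1 * l'.d.2 - l.d.2 * l'.d.1) = 0 := by
        linear_combination (h21 - h11) * l'.d.2 - (h22 - h12) * l'.d.1
      rcases mul_eq_zero.1 h3 with h4 | h4
      · omega
      · omega
    obtain ⟨c, hc1, hc2⟩ := par l.d l'.d l'.cop hcr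
    obtain ⟨c', hc1', hc2'⟩ := par l'.d l.d l.cop (by linear_combination -hcr)
    apply Subtype.ext
    rw [l.eq, l'.eq]
    ext ⟨x, y⟩
    simp only [Set.mem_range, Prod.mk.injEq]
    constructor
    · rintro ⟨k, hk1, hk2⟩
      refine ⟨i' + (k - i) * c, ?_, ?_⟩
      · linear_combination hk1 - h11 - (k - i) * hc1
      · linear_combination hk2 - h12 - (k - i) * hc2
    · rintro ⟨k, hk1, hk2⟩
      refine ⟨i + (k - i') * c', ?_, ?_⟩
      · linear_combination hk1 + h11 - (k - i') * hc1'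
      · linear_combination hk2 + h12 - (k - i') * hc2'

theorem G2_pt (l : LL) (k : ℤ) : G2.pt l k = (l.p.1 + k * l.d.1, l.p.2 + k * l.d.2) := rfl

/-- every two lattice points lie on a line of the system, with all collinear lattice points -/
theorem exists_line (p q : ℤ × ℤ) (h : p ≠ q) : ∃ l : LL, (∃ i, G2.pt l i = p) ∧
    ∀ r : ℤ × ℤ, (r.1 - p.1) * (q.2 - p.2) = (r.2 - p.2) * (q.1 - p.1) → ∃ i, G2.pt l i = r := by
  set v : ℤ × ℤ := (q.1 - p.1, q.2 - p.2) with hv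
  have hne : v.1 ≠ 0 ∨ v.2 ≠ 0 := by
    by_contra hcon
    push Not at hcon
    apply h
    simp only [hv] at hcon
    exact Prod.ext (by omega) (by omega)
  have hg : (Int.gcd v.1 v.2 : ℤ) ≠ 0 := by
    intro h0
    have : Int.gcd v.1 v.2 = 0 := by exact_mod_cast h0
    rw [Int.gcd_eq_zero_iff] at this
    rcases hne with h1 | h1
    · exact h1 this.1
    · exact h1 this.2
  obtain ⟨d1, hd1⟩ : (Int.gcd v.1 v.2 : ℤ) ∣ v.1 := Int.gcd_dvd_left ..
  obtain ⟨d2, hd2⟩ : (Int.gcd v.1 v.2 : ℤ) ∣ v.2 := Int.gcd_dvd_right ..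
  have hcop : IsCoprime d1 d2 := by
    have h1 := Int.gcd_eq_gcd_ab v.1 v.2
    refine ⟨Int.gcdA v.1 v.2, Int.gcdB v.1 v.2, ?_⟩
    have h2 : (Int.gcd v.1 v.2 : ℤ) * (Int.gcdA v.1 v.2 * d1 + Int.gcdB v.1 v.2 * d2)
        = (Int.gcd v.1 v.2 : ℤ) * 1 := by
      calc (Int.gcd v.1 v.2 : ℤ) * (Int.gcdA v.1 v.2 * d1 + Int.gcdB v.1 v.2 * d2)
          = ((Int.gcd v.1 v.2 : ℤ) * d1) * Int.gcdA v.1 v.2
            + ((Int.gcd v.1 v.2 : ℤ) * d2) * Int.gcdB v.1 v.2 := by ring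
        _ = v.1 * Int.gcdA v.1 v.2 + v.2 * Int.gcdB v.1 v.2 := by rw [← hd1, ← hd2]
        _ = (Int.gcd v.1 v.2 : ℤ) * 1 := by rw [← h1]; ring
    exact mul_left_cancel₀ hg h2
  let l : LL := ⟨Set.range (fun k : ℤ => ((p.1 + k * d1, p.2 + k * d2) : ℤ × ℤ)),
    p, (d1, d2), hcop, rfl⟩
  have hmem : ∀ r : ℤ × ℤ, r ∈ l.1 → ∃ i, G2.pt l i = r := by
    intro r hr
    rw [l.eq] at hr
    obtain ⟨k, hk⟩ := hr
    exact ⟨k, hk⟩
  refine ⟨l, hmem p ⟨0, by simp⟩, ?_⟩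
  intro r hr
  apply hmem
  have h3 : (r.1 - p.1) * d2 = (r.2 - p.2) * d1 := by
    have h4 : (Int.gcd v.1 v.2 : ℤ) * ((r.1 - p.1) * d2) =
        (Int.gcd v.1 v.2 : ℤ) * ((r.2 - p.2) * d1) := by
      calc (Int.gcd v.1 v.2 : ℤ) * ((r.1 - p.1) * d2)
          = (r.1 - p.1) * ((Int.gcd v.1 v.2 : ℤ) * d2) := by ring
        _ = (r.1 - p.1) * (q.2 - p.2) := by rw [← hd2]
        _ = (r.2 - p.2) * (q.1 - p.1) := hr
        _ = (r.2 - p.2) * ((Int.gcd v.1 v.2 : ℤ) * d1) := by rw [← hd1]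
        _ = (Int.gcd v.1 v.2 : ℤ) * ((r.2 - p.2) * d1) := by ring
    exact mul_left_cancel₀ hg h4
  obtain ⟨c, hc1, hc2⟩ := par (r.1 - p.1, r.2 - p.2) (d1, d2) hcop h3
  simp only at hc1 hc2
  refine ⟨c, ?_⟩
  simp only
  exact Prod.ext (by simp only; omega) (by simp only; omega)

theorem winSeg_lvI {n : ℕ} (hn : 2 ≤ n) {Mk Br : Finset (ℤ × ℤ)} (h : WinSeg n Mk Br) :
    ∃ l k, G2.pt l k ∈ Mk ∧ n ≤ lvI G2 Mk Br l k := by
  obtain ⟨A, hA, hcard, ⟨a, b, c, hab, hline⟩, hseg⟩ := h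
  obtain ⟨p, hp, q, hq, hpq⟩ := Finset.one_lt_card.1 (show 1 < A.card by omega)
  obtain ⟨l, ⟨k, hk⟩, hl⟩ := exists_line p q hpq
  refine ⟨l, k, by rw [hk]; exact hA hp, ?_⟩
  rw [← hcard]
  refine Finset.card_le_card fun r hr => ?_
  rw [Finset.mem_filter]
  refine ⟨hA hr, ?_⟩
  have hcross : (r.1 - p.1) * (q.2 - p.2) = (r.2 - p.2) * (q.1 - p.1) := by
    have e1 := hline p hp
    have e2 := hline q hq
    have e3 := hline r hr
    have f1 : a * ((r.1 : ℝ) - p.1) + b * ((r.2 : ℝ) - p.2) = 0 := by linear_combination e3 - e1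
    have f2 : a * ((q.1 : ℝ) - p.1) + b * ((q.2 : ℝ) - p.2) = 0 := by linear_combination e2 - e1
    have f3 : ((r.1 : ℝ) - p.1) * ((q.2 : ℝ) - p.2) = ((r.2 : ℝ) - p.2) * ((q.1 : ℝ) - p.1) := by
      rcases hab with h1 | h1
      · have : a * (((r.1 : ℝ) - p.1) * ((q.2 : ℝ) - p.2)) =
            a * (((r.2 : ℝ) - p.2) * ((q.1 : ℝ) - p.1)) := by
          linear_combination ((q.2 : ℝ) - p.2) * f1 - ((r.2 : ℝ) - p.2) * f2
        exact mul_left_cancel₀ h1 this
      · have : b * (((r.1 : ℝ) - p.1) * ((q.2 : ℝ) - p.2)) =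
            b * (((r.2 : ℝ) - p.2) * ((q.1 : ℝ) - p.1)) := by
          linear_combination ((r.1 : ℝ) - p.1) * f2 - ((q.1 : ℝ) - p.1) * f1
        exact mul_left_cancel₀ h1 this
    exact_mod_cast f3
  obtain ⟨j, hj⟩ := hl r hcross
  refine ⟨j, hj, ?_⟩
  intro i hi1 hi2 hBr
  apply hseg p hp r hr _ hBr
  rw [← hk, ← hj]
  simp only [G2_pt]
  unfold OnSeg
  simp only
  push_cast
  rcases lt_trichotomy k j with hkj | hkj | hkj
  · have h1 : (k : ℝ) < j := by exact_mod_cast hkj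
    have h2 : (k : ℝ) ≤ i := by exact_mod_cast (by omega : k ≤ i)
    have h3 : (i : ℝ) ≤ j := by exact_mod_cast (by omega : i ≤ j)
    have h4 : (0 : ℝ) < j - k := by linarith
    refine ⟨((i : ℝ) - k) / (j - k), div_nonneg (by linarith) h4.le,
      (div_le_one h4).2 (by linarith), ?_, ?_⟩
    · field_simp
      ring
    · field_simp
      ring
  · subst hkj
    have : i = k := by omega
    subst this
    exact ⟨0, le_refl _, zero_le_one, by ring, by ring⟩
  · have h1 : (j : ℝ) < k := by exact_mod_cast hkj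
    have h2 : (j : ℝ) ≤ i := by exact_mod_cast (by omega : j ≤ i)
    have h3 : (i : ℝ) ≤ k := by exact_mod_cast (by omega : i ≤ k)
    have h4 : (0 : ℝ) < k - j := by linarith
    refine ⟨((k : ℝ) - i) / (k - j), div_nonneg (by linarith) h4.le,
      (div_le_one h4).2 (by linarith), ?_, ?_⟩
    · field_simp
      ring
    · field_simp
      ring

/-- extending a set of picks -/
theorem extend {P : Type} [DecidableEq P] [Infinite P] (F : Finset P) :
    ∀ (e : ℕ) (C : Finset P), Disjoint C F →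
      ∃ C', C ⊆ C' ∧ Disjoint C' F ∧ C'.card = C.card + e := by
  intro e
  induction e with
  | zero => intro C hC; exact ⟨C, Finset.Subset.refl _, hC, rfl⟩
  | succ e ih =>
    intro C hC
    obtain ⟨C', h1, h2, h3⟩ := ih C hC
    obtain ⟨x, hx⟩ := Infinite.exists_notMem_finset (C' ∪ F)
    rw [Finset.mem_union, not_or] at hx
    refine ⟨insert x C', h1.trans (Finset.subset_insert _ _), ?_, ?_⟩
    · rw [Finset.disjoint_insert_left]
      exact ⟨hx.2, h2⟩
    · rw [Finset.card_insert_of_notMem hx.1, h3]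
      ring

end Pool.Agent.R183.PL
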