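import Pool.Agent.R183.PL.E1

/-! Breaker holds on until timestep `T`. -/

open Classical

namespace Pool.Agent.R183.PL

theorem card_step {m : ℕ → ℕ} {t : ℕ} (ht : 1 ≤ t) {Mk Br A : Finset (ℤ × ℤ)}
    (hMk : Mk.card = ∑ s ∈ Finset.Ico 1 t, m s) (hA1 : A.card = m t) (hA2 : Disjoint A (Mk ∪ Br)) :
    (Mk ∪ A).card = ∑ s ∈ Finset.Ico 1 (t + 1), m s := by
  rw [Finset.sum_Ico_succ_top ht, ← hMk, ← hA1]
  refine Finset.card_union_of_disjoint ?_
  rw [Finset.disjoint_union_right] at hA2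
  exact hA2.1.symm

theorem phase2 (π : Par) (hK : 1 ≤ π.K) (m b : ℕ → ℕ) (t0 T : ℕ) (ht0 : 1 ≤ t0)
    (H1 : ∀ t, 1 ≤ t → t ≤ T → m t ≤ π.M) (H2 : ∀ t, t0 ≤ t → t ≤ T → π.B0 ≤ b t)
    (H3 : ∑ t ∈ Finset.Icc 1 T, m t ≤ π.Nm) (hn : 2 ≤ π.n) :
    ∀ (k t : ℕ) (Mk Br : Finset (ℤ × ℤ)) (R : List (Rec LL)) (φ : ℕ),
      Inv G2 π (Mk ∪ Br) Br Mk R φ → t0 ≤ t → t + k = T + 1 →
      Mk.card = ∑ s ∈ Finset.Ico 1 t, m s →
      φ + k * π.dl < π.W ^ (π.K - 1) * π.A1 * π.h → ¬ Forces m b π.n k t Mk Br := by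
  intro k
  induction k with
  | zero => intro t Mk Br R φ _ _ _ _ _ h; exact h
  | succ k ih =>
    rintro t Mk Br R φ hI ht htk hMk hφ ⟨A, hA1, hA2, hA3⟩
    have hM : A.card ≤ π.M := by rw [hA1]; exact H1 t (by omega) (by omega)
    have hcard := card_step (by omega) hMk hA1 hA2
    have hN : (Mk ∪ A).card ≤ π.Nm := by
      rw [hcard]
      refine le_trans (Finset.sum_le_sum_of_subset ?_) H3
      intro s hs
      rw [Finset.mem_Ico] at hs
      rw [Finset.mem_Icc]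
      omega
    have hφ0 : φ < π.W ^ (π.K - 1) * π.A1 * π.h := by
      have : 0 ≤ (k + 1) * π.dl := Nat.zero_le _
      omega
    rcases hA3 with hw | hC
    · obtain ⟨l, i, h1, h2⟩ := winSeg_lvI hn hw
      have := hI.nowin A hA2 hM l i h1
      omega
    · obtain ⟨C, hC1, hC2, hC3⟩ := turn hI hK hφ0 A hA2 hM hN
      obtain ⟨C', h1, h2, h3⟩ := extend (Mk ∪ Br ∪ A) (b t - C.card) C hC2
      have h4 := H2 t ht (by omega)
      have h5 : C'.card = b t := by omega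
      have hperm : Mk ∪ A ∪ Br = Mk ∪ Br ∪ A := by
        rw [Finset.union_assoc, Finset.union_comm A Br, ← Finset.union_assoc]
      have h6 := hC C' h5 (by rw [hperm]; exact h2)
      obtain ⟨R', hI'⟩ := hC3 C' h1 h2
      have hcl : Mk ∪ Br ∪ A ∪ C' = (Mk ∪ A) ∪ (Br ∪ C') := by
        rw [← hperm, Finset.union_assoc (Mk ∪ A) Br C']
      rw [hcl] at hI'
      refine ih (t + 1) (Mk ∪ A) (Br ∪ C') R' (φ + π.dl) hI' (by omega) (by omega) hcard ?_ h6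
      have : (k + 1) * π.dl = k * π.dl + π.dl := by ring
      omega

theorem Inv_init (π : Par) (Mk Br : Finset (ℤ × ℤ)) (hd : Disjoint Mk Br)
    (h : Mk.card < π.th) : Inv G2 π (Mk ∪ Br) Br Mk [] 0 := by
  have hn := π.hn
  have h0 : Phi G2 π (Mk ∪ Br) Br Mk [] = 0 := by
    simp [Phi, rays, levelR, pot]
  refine ⟨Finset.subset_union_right, Finset.subset_union_left, hd, ?_, ?_, ?_, ?_, ?_, ?_, ?_⟩
  · intro S hS; simp at hS
  · intro S hS; simp at hS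
  · exact List.Pairwise.nil
  · intro l k _ h1 _
    exfalso
    have := lvI_le_card G2 Mk Br l k
    omega
  · intro l k _
    have := lvI_le_card G2 Mk Br l k
    omega
  · rw [h0]
  · intro q
    rw [h0]
    simp [rays, V_nil]

theorem phase1 (π : Par) (hK : 1 ≤ π.K) (m b : ℕ → ℕ) (t0 T : ℕ) (ht0 : 1 ≤ t0)
    (H1 : ∀ t, 1 ≤ t → t ≤ T → m t ≤ π.M) (H2 : ∀ t, t0 ≤ t → t ≤ T → π.B0 ≤ b t)
    (H3 : ∑ t ∈ Finset.Icc 1 T, m t ≤ π.Nm) (hn : 2 ≤ π.n)
    (H4 : ∑ t ∈ Finset.Ico 1 t0, m t < π.th)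
    (H5 : (T + 1) * π.dl < π.W ^ (π.K - 1) * π.A1 * π.h) :
    ∀ (k t : ℕ) (Mk Br : Finset (ℤ × ℤ)), Disjoint Mk Br → 1 ≤ t → t ≤ t0 → t + k = T + 1 →
      Mk.card = ∑ s ∈ Finset.Ico 1 t, m s → ¬ Forces m b π.n k t Mk Br := by
  have hnn := π.hn
  intro k
  induction k with
  | zero => intro t Mk Br _ _ _ _ _ h; exact h
  | succ k ih =>
    intro t Mk Br hd ht1 ht htk hMk
    rcases lt_or_eq_of_le ht with hlt | heq
    · rintro ⟨A, hA1, hA2, hA3⟩
      have hcard := card_step (by omega) hMk hA1 hA2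
      have hsmall : (Mk ∪ A).card < π.th := by
        rw [hcard]
        refine lt_of_le_of_lt (Finset.sum_le_sum_of_subset ?_) H4
        intro s hs
        rw [Finset.mem_Ico] at *
        omega
      rcases hA3 with ⟨X, hX1, hX2, _⟩ | hC
      · have := Finset.card_le_card hX1
        omega
      · obtain ⟨C', _, h2, h3⟩ := extend (Mk ∪ A ∪ Br) (b t) ∅ (by simp)
        have h6 := hC C' (by simpa using h3) h2
        refine ih (t + 1) (Mk ∪ A) (Br ∪ C') ?_ (by omega) (by omega) (by omega) hcard h6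
        rw [Finset.disjoint_union_right]
        constructor
        · rw [Finset.disjoint_union_left]
          exact ⟨hd, Finset.disjoint_of_subset_right Finset.subset_union_right hA2⟩
        · exact (Finset.disjoint_of_subset_right Finset.subset_union_left h2).symm
    · subst heq
      refine phase2 π hK m b t T ht1 H1 H2 H3 hn (k + 1) t Mk Br [] 0
        (Inv_init π Mk Br hd (by rw [hMk]; exact H4)) (le_refl _) htk hMk ?_
      have h1 : (k + 1) * π.dl ≤ (T + 1) * π.dl := Nat.mul_le_mul_right _ (by omega)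
      omega

theorem breaker_holds (π : Par) (hK : 1 ≤ π.K) (m b : ℕ → ℕ) (t0 T : ℕ) (ht0 : 1 ≤ t0)
    (H1 : ∀ t, 1 ≤ t → t ≤ T → m t ≤ π.M) (H2 : ∀ t, t0 ≤ t → t ≤ T → π.B0 ≤ b t)
    (H3 : ∑ t ∈ Finset.Icc 1 T, m t ≤ π.Nm) (hn : 2 ≤ π.n)
    (H4 : ∑ t ∈ Finset.Ico 1 t0, m t < π.th)
    (H5 : (T + 1) * π.dl < π.W ^ (π.K - 1) * π.A1 * π.h) : ¬ MakerBy m b π.n T := by
  unfold MakerBy
  exact phase1 π hK m b t0 T ht0 H1 H2 H3 hn H4 H5 T 1 ∅ ∅ (by simp) (le_refl _) ht0 (by omega)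
    (by simp)

end Pool.Agent.R183.PL
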