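import Pool.Agent.R183.PL.E2

/-! Asymptotics: for positive exponents the game is not a Maker win. -/

open Classical Filter

namespace Pool.Agent.R183.PL

theorem poly_le (C k : ℕ) : ∀ᶠ s : ℕ in atTop, C * s ^ k ≤ 2 ^ s := by
  have h := tendsto_pow_const_div_const_pow_of_one_lt k (one_lt_two : (1 : ℝ) < 2)
  have h1 : (0 : ℝ) < 1 / (C + 1) := by positivity
  filter_upwards [h.eventually (gt_mem_nhds h1)] with s hs
  have h2 : (0 : ℝ) < 2 ^ s := by positivity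
  rw [div_lt_iff₀ h2] at hs
  have h3 : ((C : ℝ) + 1) * (s : ℝ) ^ k ≤ 2 ^ s := by
    have h4 : ((C : ℝ) + 1) * (s : ℝ) ^ k ≤ ((C : ℝ) + 1) * (1 / (C + 1) * 2 ^ s) := by
      gcongr
    have h5 : ((C : ℝ) + 1) * (1 / (C + 1) * 2 ^ s) = 2 ^ s := by
      field_simp
    linarith
  have h6 : (C : ℝ) * (s : ℝ) ^ k ≤ 2 ^ s := by
    have : (0 : ℝ) ≤ (s : ℝ) ^ k := by positivity
    nlinarith
  exact_mod_cast h6

theorem hfacts (E p n : ℕ) (hE : 1 ≤ E) (hp : 1 ≤ p) (hn : 64 * E * p ≤ n) :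
    2 ≤ n / (32 * E * p) ∧ n ≤ 128 * E * p * (n / (32 * E * p)) := by
  have hpos : 0 < 32 * E * p := Nat.mul_pos (Nat.mul_pos (by norm_num) hE) hp
  have h2 : 2 ≤ n / (32 * E * p) := by
    rw [Nat.le_div_iff_mul_le hpos]
    calc 2 * (32 * E * p) = 64 * E * p := by ring
      _ ≤ n := hn
  refine ⟨h2, ?_⟩
  set q := n / (32 * E * p) with hq
  have h3 : n < (32 * E * p) * (q + 1) := by
    have := Nat.lt_mul_div_succ n hpos
    simpa [hq] using this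
  have h4 : (32 * E * p) * (q + 1) ≤ (32 * E * p) * (4 * q) := Nat.mul_le_mul_left _ (by omega)
  have h5 : (32 * E * p) * (4 * q) = 128 * E * p * q := by ring
  omega

theorem qfacts (th h p Q0 : ℕ) (hp : 1 ≤ p) (h8 : 8 * p * h ≤ th) (hQ0 : Q0 = th / 2 + h) :
    Q0 + 2 * h * p + h ≤ th ∧ h ≤ th := by
  have h10 : h ≤ p * h := Nat.le_mul_of_pos_left _ hp
  have h11 : 2 * h * p = 2 * (p * h) := by ring
  have h12 : 8 * p * h = 8 * (p * h) := by ring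
  rw [hQ0, h11]
  rw [h12] at h8
  omega

theorem pfacts (c s : ℕ) (hs : 1 ≤ s) : 4 * (c + 1) * s + 2 ≤ (4 * c + 6) * s := by
  have h1 : 4 * (c + 1) * s = 4 * (c * s) + 4 * s := by ring
  have h2 : (4 * c + 6) * s = 4 * (c * s) + 6 * s := by ring
  rw [h1, h2]
  omega

theorem efacts (c s : ℕ) : c * s + 1 + (c + 1) * s * 2 < 4 * (c + 1) * s + 2 := by
  have h1 : 4 * (c + 1) * s = 4 * (c * s) + 4 * s := by ring
  have h2 : (c + 1) * s * 2 = 2 * (c * s) + 2 * s := by ring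
  rw [h1, h2]
  omega

theorem afacts (p : ℕ) (hp : 1 ≤ p) : 4 * (1 + (p + 2 * p ^ 2 + 1)) ≤ 20 * p ^ 2 := by
  nlinarith

theorem B0_bound (n th h M D b0 : ℕ) (hDh : n ≤ D * h) (hMn : M ≤ n) (hh2 : 2 ≤ h)
    (hth : h ≤ th) : 2 * (n / th) * (M ^ 2 / (h * (h - 1))) + b0 ≤ 4 * D ^ 3 + b0 := by
  have h1 : n / th ≤ D := by
    apply Nat.div_le_of_le_mul
    calc n ≤ D * h := hDh
      _ ≤ D * th := Nat.mul_le_mul_left _ hth
      _ = th * D := by ring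
  have h2 : M ^ 2 / (h * (h - 1)) ≤ 2 * D ^ 2 := by
    apply Nat.div_le_of_le_mul
    obtain ⟨g, rfl⟩ : ∃ g, h = g + 2 := ⟨h - 2, by omega⟩
    have h3 : M ≤ D * (g + 2) := hMn.trans hDh
    calc M ^ 2 ≤ (D * (g + 2)) ^ 2 := Nat.pow_le_pow_left h3 2
      _ ≤ (g + 2) * (g + 2 - 1) * (2 * D ^ 2) := by
          have : g + 2 - 1 = g + 1 := rfl
          rw [this]
          nlinarith [sq_nonneg D, Nat.zero_le (D ^ 2 * g), Nat.zero_le (D ^ 2 * g * g)]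
  calc 2 * (n / th) * (M ^ 2 / (h * (h - 1))) + b0 ≤ 2 * D * (2 * D ^ 2) + b0 := by gcongr
    _ = 4 * D ^ 3 + b0 := by ring

/-- the parameters used for `n = 2 ^ s` -/
theorem core (α β : ℝ) (hα : 0 < α) (hβ : 0 < β) (m b : ℕ → ℕ)
    (hm : ∀ t : ℕ, |(m t : ℝ) - (t : ℝ) ^ α| ≤ 1) (hb : ∀ t : ℕ, |(b t : ℝ) - (t : ℝ) ^ β| ≤ 1)
    (E : ℕ) (hE : 1 ≤ E) :
    ∀ᶠ s : ℕ in atTop, ∀ T : ℕ, (m T : ℝ) < (1 - 1 / E) * ((2 ^ s : ℕ) : ℝ) →
      ¬ MakerBy m b (2 ^ s) T := by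
  obtain ⟨c, hc⟩ := exists_nat_ge (1 / α)
  obtain ⟨c', hc'⟩ := exists_nat_ge (1 / β)
  obtain ⟨a, ha⟩ := exists_nat_ge α
  set κ := 4 * c + 6 with hκ
  set κ2 := 4 * (128 * E) ^ 3 + 32 * 2 * 20 * (128 * E) + 1 with hκ2
  filter_upwards [poly_le (12 * E * (κ2 * κ ^ 4) ^ (c' * (a + 1))) (4 * (c' * (a + 1))),
    poly_le (64 * E * κ) 1, eventually_ge_atTop 1] with s hs1 hs2 hs3
  intro T hT
  set n := 2 ^ s with hn
  set p := 4 * (c + 1) * s + 2 with hp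
  have hpκ : p ≤ κ * s := pfacts c s hs3
  have hp1 : 1 ≤ p := by omega
  set Lm := p + 2 * p ^ 2 + 1 with hLm
  set A1 := 4 * (1 + Lm) with hA1
  set D := 128 * E * p with hD
  set th := n / (4 * E) with hth
  set h := th / (8 * p) with hh
  set Q0 := th / 2 + h with hQ0
  set M := n - n / E + 2 with hM
  set Nm := 2 ^ ((c + 1) * s) with hNm
  set b0 := 32 * (p + 1) * A1 * D with hb0
  have hn64 : 64 * E * p ≤ n := by
    calc 64 * E * p ≤ 64 * E * (κ * s) := Nat.mul_le_mul_left _ hpκ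
      _ = 64 * E * κ * s ^ 1 := by ring
      _ ≤ n := hs2
  have hhdef : h = n / (32 * E * p) := by
    rw [hh, hth, Nat.div_div_eq_div_mul]
    congr 1
    ring
  obtain ⟨hh2, hDh⟩ := hfacts E p n hE hp1 hn64
  rw [← hhdef] at hh2 hDh
  rw [← hD] at hDh
  have h8 : 8 * p * h ≤ th := Nat.mul_div_le _ _
  obtain ⟨hQKR, hhth⟩ := qfacts th h p Q0 hp1 h8 hQ0
  have hth1 : 1 ≤ th := by omega
  have h4E : 4 * E * th ≤ n := Nat.mul_div_le _ _
  have hnE : 4 * th ≤ n / E := by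
    rw [Nat.le_div_iff_mul_le (by omega)]
    calc 4 * th * E = 4 * E * th := by ring
      _ ≤ n := h4E
  have hnE' : n / E ≤ n := Nat.div_le_self _ _
  have hn1 : 2 * th + M ≤ n := by omega
  have hMn : M ≤ n := by omega
  have hNmR : (2 * Nm ^ 2) ^ 2 ≤ 2 ^ p := by
    rw [hNm, hp]
    refine le_of_eq ?_
    rw [← pow_mul, mul_pow, ← pow_mul, ← pow_add]
    congr 1
    ring
  have hLmR : 2 ^ p * (2 ^ p * 2 ^ p) ^ p < 2 ^ Lm := by
    have : 2 ^ p * (2 ^ p * 2 ^ p) ^ p = 2 ^ (p + 2 * p ^ 2) := by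
      rw [← pow_add, ← pow_mul, ← pow_add]
      congr 1
      ring
    rw [this, hLm]
    exact Nat.pow_lt_pow_right (by norm_num) (by omega)
  have hbR : 32 * (p + 1) * (A1 * M) ≤ h * b0 := by
    rw [hb0]
    calc 32 * (p + 1) * (A1 * M) ≤ 32 * (p + 1) * (A1 * (D * h)) := by
          gcongr
          omega
      _ = h * (32 * (p + 1) * A1 * D) := by ring
  let π : Par :=
    { W := 2, p := p, h := h, th := th, n := n, K := p, M := M, A1 := A1, Q0 := Q0, Nm := Nm,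
      Lm := Lm, b := b0, hW := by norm_num, hp := hp1, hh := hh2,
      hQ0 := by omega, hQK := hQKR, hn := hn1, hNm := hNmR, hLm := hLmR,
      hA1 := by rw [hA1], hb := hbR }
  -- bounds for times up to T
  have hnR : (1 : ℝ) ≤ (n : ℝ) := by
    have : 1 ≤ n := Nat.one_le_two_pow
    exact_mod_cast this
  have hER : (1 : ℝ) ≤ (E : ℝ) := by exact_mod_cast hE
  have hnE1 : (E : ℝ) ≤ n := by
    have : E ≤ n := by
      have h2 : E * 1 ≤ 64 * E * p := by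
        calc E * 1 ≤ E * (64 * p) := Nat.mul_le_mul_left _ (by omega)
          _ = 64 * E * p := by ring
      omega
    exact_mod_cast this
  have hTα : (T : ℝ) ^ α ≤ n := by
    have h1 := (abs_le.1 (hm T)).1
    have h2 : (1 - 1 / (E : ℝ)) * (n : ℝ) + 1 ≤ n := by
      have : (1 : ℝ) ≤ 1 / (E : ℝ) * n := by
        rw [one_div, inv_mul_eq_div, le_div_iff₀ (by linarith)]
        linarith
      linarith
    linarith
  have hTn : T ≤ n ^ c := by
    have h1 : (T : ℝ) = ((T : ℝ) ^ α) ^ (1 / α) := by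
      rw [← Real.rpow_mul (by positivity), mul_one_div_cancel hα.ne', Real.rpow_one]
    have h2 : ((T : ℝ) ^ α) ^ (1 / α) ≤ (n : ℝ) ^ (1 / α) :=
      Real.rpow_le_rpow (by positivity) hTα (by positivity)
    have h3 : (n : ℝ) ^ (1 / α) ≤ (n : ℝ) ^ (c : ℝ) :=
      Real.rpow_le_rpow_of_exponent_le hnR hc
    rw [Real.rpow_natCast] at h3
    have h4 : (T : ℝ) ≤ (n : ℝ) ^ c := by rw [h1]; exact h2.trans h3
    exact_mod_cast h4
  have hTs : T ≤ 2 ^ (c * s) := by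
    refine hTn.trans (le_of_eq ?_)
    rw [hn, ← pow_mul]
    congr 1
    ring
  have H1 : ∀ t, 1 ≤ t → t ≤ T → m t ≤ π.M := by
    intro t _ htT
    change m t ≤ M
    have h1 := (abs_le.1 (hm T)).1
    have h2 := (abs_le.1 (hm t)).2
    have h3 : (t : ℝ) ^ α ≤ (T : ℝ) ^ α :=
      Real.rpow_le_rpow (by positivity) (by exact_mod_cast htT) hα.le
    have h4 : ((n / E : ℕ) : ℝ) ≤ (n : ℝ) / E := Nat.cast_div_le
    have h5 : (m t : ℝ) < ((n - n / E + 2 : ℕ) : ℝ) + 0 := by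
      push_cast [hnE']
      have h6 : (1 - 1 / (E : ℝ)) * (n : ℝ) = n - n / E := by ring
      linarith
    have h6 : m t < n - n / E + 2 := by
      rw [add_zero] at h5
      exact_mod_cast h5
    omega
  have H3 : ∑ t ∈ Finset.Icc 1 T, m t ≤ π.Nm := by
    change ∑ t ∈ Finset.Icc 1 T, m t ≤ Nm
    calc ∑ t ∈ Finset.Icc 1 T, m t ≤ ∑ _t ∈ Finset.Icc 1 T, n := by
          refine Finset.sum_le_sum fun t ht => ?_
          rw [Finset.mem_Icc] at ht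
          exact (H1 t ht.1 ht.2).trans hMn
      _ = T * n := by simp
      _ ≤ 2 ^ (c * s) * 2 ^ s := Nat.mul_le_mul hTs (le_of_eq hn)
      _ = Nm := by rw [hNm, ← pow_add]; congr 1; ring
  set BB := 4 * D ^ 3 + b0 with hBB
  set t0 := (BB + 1) ^ c' with ht0
  have hB0 : π.B0 ≤ BB := B0_bound n th h M D b0 hDh hMn hh2 hhth
  have hb1 : (1 : ℝ) ≤ (BB : ℝ) + 1 := by
    have : (0 : ℝ) ≤ BB := by positivity
    linarith
  have H2 : ∀ t, t0 ≤ t → t ≤ T → π.B0 ≤ b t := by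
    intro t ht _
    refine hB0.trans ?_
    have h1 := (abs_le.1 (hb t)).1
    have h2 : ((t0 : ℕ) : ℝ) ^ β ≤ (t : ℝ) ^ β :=
      Real.rpow_le_rpow (by positivity) (by exact_mod_cast ht) hβ.le
    have h3 : (BB : ℝ) + 1 ≤ ((t0 : ℕ) : ℝ) ^ β := by
      rw [ht0]
      push_cast
      rw [← Real.rpow_natCast, ← Real.rpow_mul (by linarith)]
      calc (BB : ℝ) + 1 = ((BB : ℝ) + 1) ^ (1 : ℝ) := (Real.rpow_one _).symm
        _ ≤ ((BB : ℝ) + 1) ^ ((c' : ℝ) * β) := by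
            refine Real.rpow_le_rpow_of_exponent_le hb1 ?_
            rw [div_le_iff₀ hβ] at hc'
            exact hc'
    have h4 : (BB : ℝ) ≤ b t := by linarith
    exact_mod_cast h4
  have ht0' : 1 ≤ t0 := Nat.one_le_pow _ _ (by omega)
  have H4 : ∑ t ∈ Finset.Ico 1 t0, m t < π.th := by
    change ∑ t ∈ Finset.Ico 1 t0, m t < th
    have h1 : ∑ t ∈ Finset.Ico 1 t0, m t ≤ t0 * (t0 ^ a + 1) := by
      calc ∑ t ∈ Finset.Ico 1 t0, m t ≤ ∑ _t ∈ Finset.Ico 1 t0, (t0 ^ a + 1) := by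
            refine Finset.sum_le_sum fun t ht => ?_
            rw [Finset.mem_Ico] at ht
            have h2 := (abs_le.1 (hm t)).2
            have h3 : (t : ℝ) ^ α ≤ (t : ℝ) ^ (a : ℝ) :=
              Real.rpow_le_rpow_of_exponent_le (by exact_mod_cast ht.1) ha
            rw [Real.rpow_natCast] at h3
            have h4 : (t : ℝ) ^ a ≤ (t0 : ℝ) ^ a :=
              pow_le_pow_left₀ (by positivity) (by exact_mod_cast ht.2.le) a
            have h5 : (m t : ℝ) ≤ ((t0 ^ a + 1 : ℕ) : ℝ) := by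
              push_cast
              linarith
            exact_mod_cast h5
        _ = (t0 - 1) * (t0 ^ a + 1) := by simp
        _ ≤ t0 * (t0 ^ a + 1) := Nat.mul_le_mul_right _ (by omega)
    have hBBp : BB + 1 ≤ κ2 * κ ^ 4 * s ^ 4 := by
      have e1 : A1 ≤ 20 * p ^ 2 := afacts p hp1
      have e2 : BB + 1 ≤ κ2 * p ^ 4 := by
        have e3 : b0 ≤ 32 * (2 * p) * (20 * p ^ 2) * (128 * E * p) := by
          rw [hb0, hD]
          gcongr
          omega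
        have e4 : 4 * D ^ 3 ≤ 4 * (128 * E) ^ 3 * p ^ 4 := by
          rw [hD, mul_pow]
          have : p ^ 3 ≤ p ^ 4 := Nat.pow_le_pow_right hp1 (by norm_num)
          calc 4 * ((128 * E) ^ 3 * p ^ 3) = 4 * (128 * E) ^ 3 * p ^ 3 := by ring
            _ ≤ 4 * (128 * E) ^ 3 * p ^ 4 := Nat.mul_le_mul_left _ this
        have e5 : 1 ≤ p ^ 4 := Nat.one_le_pow _ _ hp1
        calc BB + 1 ≤ 4 * (128 * E) ^ 3 * p ^ 4 + 32 * (2 * p) * (20 * p ^ 2) * (128 * E * p)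
              + p ^ 4 := by rw [hBB]; omega
          _ = κ2 * p ^ 4 := by rw [hκ2]; ring
      calc BB + 1 ≤ κ2 * p ^ 4 := e2
        _ ≤ κ2 * (κ * s) ^ 4 := by gcongr
        _ = κ2 * κ ^ 4 * s ^ 4 := by ring
    have ht0p : t0 ^ (a + 1) ≤ (κ2 * κ ^ 4) ^ (c' * (a + 1)) * s ^ (4 * (c' * (a + 1))) := by
      rw [ht0, ← pow_mul]
      calc (BB + 1) ^ (c' * (a + 1)) ≤ (κ2 * κ ^ 4 * s ^ 4) ^ (c' * (a + 1)) :=
            Nat.pow_le_pow_left hBBp _
        _ = (κ2 * κ ^ 4) ^ (c' * (a + 1)) * s ^ (4 * (c' * (a + 1))) := by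
            rw [mul_pow, ← pow_mul]
    have h12 : 12 * E * t0 ^ (a + 1) ≤ n := by
      calc 12 * E * t0 ^ (a + 1) ≤ 12 * E * ((κ2 * κ ^ 4) ^ (c' * (a + 1)) *
            s ^ (4 * (c' * (a + 1)))) := Nat.mul_le_mul_left _ ht0p
        _ = 12 * E * (κ2 * κ ^ 4) ^ (c' * (a + 1)) * s ^ (4 * (c' * (a + 1))) := by ring
        _ ≤ n := hs1
    have h13 : t0 * (t0 ^ a + 1) ≤ 2 * t0 ^ (a + 1) := by
      have : t0 ≤ t0 ^ (a + 1) := by
        calc t0 = t0 ^ 1 := (pow_one _).symm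
          _ ≤ t0 ^ (a + 1) := Nat.pow_le_pow_right ht0' (by omega)
      have e : t0 * (t0 ^ a + 1) = t0 ^ (a + 1) + t0 := by ring
      omega
    have h14 : 1 ≤ t0 ^ (a + 1) := Nat.one_le_pow _ _ ht0'
    have h15 : 3 * t0 ^ (a + 1) ≤ th := by
      rw [hth, Nat.le_div_iff_mul_le (by omega)]
      calc 3 * t0 ^ (a + 1) * (4 * E) = 12 * E * t0 ^ (a + 1) := by ring
        _ ≤ n := h12
    omega
  have H5 : (T + 1) * π.dl < π.W ^ (π.K - 1) * π.A1 * π.h := by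
    change (T + 1) * (h * (2 * (1 + Lm)) * Nm ^ 2) < 2 ^ (p - 1) * A1 * h
    have h1 : (T + 1) * Nm ^ 2 < 2 ^ p := by
      have h2 : T + 1 ≤ 2 ^ (c * s + 1) := by
        rw [pow_succ]
        have : 1 ≤ 2 ^ (c * s) := Nat.one_le_two_pow
        omega
      calc (T + 1) * Nm ^ 2 ≤ 2 ^ (c * s + 1) * (2 ^ ((c + 1) * s)) ^ 2 :=
            Nat.mul_le_mul_right _ h2
        _ = 2 ^ (c * s + 1 + (c + 1) * s * 2) := by rw [← pow_mul, ← pow_add]
        _ < 2 ^ p := by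
            apply Nat.pow_lt_pow_right (by norm_num)
            exact efacts c s
    have h2 : 2 ^ (p - 1) * 2 = 2 ^ p := by
      rw [← pow_succ, Nat.sub_add_cancel hp1]
    calc (T + 1) * (h * (2 * (1 + Lm)) * Nm ^ 2) = ((T + 1) * Nm ^ 2) * (h * (2 * (1 + Lm))) := by
          ring
      _ < 2 ^ p * (h * (2 * (1 + Lm))) := by
          refine Nat.mul_lt_mul_of_pos_right h1 ?_
          exact Nat.mul_pos (by omega) (by omega)
      _ = 2 ^ (p - 1) * A1 * h := by rw [← h2, hA1]; ring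
  have hn2 : 2 ≤ π.n := by
    change 2 ≤ n
    omega
  exact breaker_holds π hp1 m b t0 T ht0' H1 H2 H3 hn2 H4 H5

theorem not_makerWin (α β : ℝ) (hα : 0 < α) (hβ : 0 < β) (m b : ℕ → ℕ)
    (hm : ∀ t : ℕ, |(m t : ℝ) - (t : ℝ) ^ α| ≤ 1) (hb : ∀ t : ℕ, |(b t : ℝ) - (t : ℝ) ^ β| ≤ 1) :
    ¬ MakerWin m b := by
  rintro ⟨ε, hε, hev⟩
  obtain ⟨E, hE⟩ := exists_nat_one_div_lt hε
  have h1 := core α β hα hβ m b hm hb (E + 1) (by omega)
  have h2 : Tendsto (fun s : ℕ => 2 ^ s) atTop atTop := tendsto_pow_atTop_atTop_of_one_lt one_lt_two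
  have h3 := h2.eventually hev
  obtain ⟨s, hs1, hs2⟩ := (h1.and h3).exists
  obtain ⟨τ, h4, h5⟩ := hs2
  refine hs1 τ (lt_of_lt_of_le h5 ?_) h4.1
  have h6 : (0 : ℝ) ≤ ((2 ^ s : ℕ) : ℝ) := by positivity
  have h7 : (1 : ℝ) - ε ≤ 1 - 1 / ((E + 1 : ℕ) : ℝ) := by
    push_cast
    linarith
  exact mul_le_mul_of_nonneg_right h7 h6

end Pool.Agent.R183.PL
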