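import Pool.Agent.R183.PL.E3

/-! The case of one Maker point per turn: epochs. -/

open Classical Filter

namespace Pool.Agent.R183.PL

section kill
variable {P L : Type} [DecidableEq P] (G : LineSys P L)

/-- after killing all pairs of points of `O`, every nonsolid interval has at most one point
of `O` -/
theorem kill_old (Cl Br O : Finset P) (hO : O ⊆ Cl) :
    ∃ C : Finset P, C.card ≤ 2 * O.card ^ 2 ∧ Disjoint C Cl ∧
      ∀ Cl' Br' : Finset P, Cl ∪ C ⊆ Cl' → Br ∪ C ⊆ Br' → ∀ l k,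
        (∃ j, G.pt l j ∉ Cl' ∧ Conn G Br' l k j) → lvI G O Br' l k ≤ 1 := by
  set S : Set (L × ℤ) := {x | G.pt x.1 x.2 ∈ O ∧ ∃ j, j ≠ x.2 ∧ G.pt x.1 j ∈ O} with hS
  let f : L × ℤ → P × P := fun x =>
    if h : ∃ j, j ≠ x.2 ∧ G.pt x.1 j ∈ O then (G.pt x.1 x.2, G.pt x.1 h.choose)
    else (G.pt x.1 x.2, G.pt x.1 x.2)
  have hf : ∀ x ∈ S, ∃ j, j ≠ x.2 ∧ G.pt x.1 j ∈ O ∧ f x = (G.pt x.1 x.2, G.pt x.1 j) := by
    intro x hx
    have h := hx.2
    refine ⟨h.choose, h.choose_spec.1, h.choose_spec.2, ?_⟩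
    simp only [f, dif_pos h]
  have hmaps : Set.MapsTo f S (↑(O ×ˢ O) : Set (P × P)) := by
    intro x hx
    obtain ⟨j, _, h2, h3⟩ := hf x hx
    rw [h3]
    simp only [Finset.coe_product, Set.mem_prod, Finset.mem_coe]
    exact ⟨hx.1, h2⟩
  have hinj : Set.InjOn f S := by
    intro x hx y hy heq
    obtain ⟨j, h1, _, h3⟩ := hf x hx
    obtain ⟨j', h1', _, h3'⟩ := hf y hy
    rw [h3, h3'] at heq
    have e1 := (Prod.ext_iff.1 heq).1
    have e2 := (Prod.ext_iff.1 heq).2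
    simp only at e1 e2
    have hl : x.1 = y.1 := G.meet _ _ _ _ _ _ e1 e2 (fun h => h1 h.symm)
    have hk : x.2 = y.2 := G.inj x.1 (by rw [e1, hl])
    exact Prod.ext hl hk
  have hfin : S.Finite := Set.Finite.of_injOn hmaps hinj (Finset.finite_toSet _)
  set T := hfin.toFinset with hT
  have hmT : ∀ x, x ∈ T ↔ x ∈ S := fun x => by rw [hT, Set.Finite.mem_toFinset]
  have hTcard : T.card ≤ O.card ^ 2 := by
    have h1 : T.card ≤ (O ×ˢ O).card := by
      refine Finset.card_le_card_of_injOn f ?_ ?_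
      · intro x hx
        exact hmaps ((hmT x).1 (Finset.mem_coe.1 hx))
      · intro x hx y hy
        exact hinj ((hmT x).1 (Finset.mem_coe.1 hx)) ((hmT y).1 (Finset.mem_coe.1 hy))
    rw [Finset.card_product] at h1
    rw [sq]
    exact h1
  have hex : ∀ x : L × ℤ, ∃ C : Finset P, x ∈ S → (C.card ≤ 2 ∧ Disjoint C Cl ∧
      ∀ Cl' Br' : Finset P, Cl ∪ C ⊆ Cl' → Br ∪ C ⊆ Br' → ∀ j, Conn G Br' x.1 x.2 j →
        G.pt x.1 j ∈ Cl') := by
    intro x
    by_cases hx : x ∈ S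
    · obtain ⟨C, hC⟩ := kill G Cl Br x.1 x.2 (hO hx.1)
      exact ⟨C, fun _ => hC⟩
    · exact ⟨∅, fun h => absurd h hx⟩
  choose g hg using hex
  refine ⟨T.biUnion g, ?_, ?_, ?_⟩
  · have h1 : (T.biUnion g).card ≤ T.card * 2 :=
      Finset.card_biUnion_le_card_mul _ _ _ (fun x hx => (hg x ((hmT x).1 hx)).1)
    omega
  · rw [Finset.disjoint_biUnion_left]
    exact fun x hx => (hg x ((hmT x).1 hx)).2.1
  · rintro Cl' Br' hCl hBr l k ⟨j, hj1, hj2⟩
    by_contra hcon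
    push Not at hcon
    rw [← card_idx] at hcon
    obtain ⟨a, ha, c, hc, hac⟩ := Finset.one_lt_card.1 hcon
    obtain ⟨ha1, ha2⟩ := (mem_idx G).1 ha
    obtain ⟨hc1, _⟩ := (mem_idx G).1 hc
    have hmem : ((l, a) : L × ℤ) ∈ S := ⟨ha1, c, fun h => hac h.symm, hc1⟩
    have h3 : g (l, a) ⊆ T.biUnion g := Finset.subset_biUnion_of_mem g ((hmT _).2 hmem)
    exact hj1 ((hg _ hmem).2.2 Cl' Br' ((Finset.union_subset_union_right h3).trans hCl)
      ((Finset.union_subset_union_right h3).trans hBr) j (Conn.trans G (Conn.symm G ha2) hj2))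

end kill

theorem Inv_empty (π : Par) (hth : 1 ≤ π.th) (hn : 1 ≤ π.n) (Cl Br : Finset (ℤ × ℤ))
    (h : Br ⊆ Cl) : Inv G2 π Cl Br ∅ [] 0 := by
  have h0 : Phi G2 π Cl Br ∅ [] = 0 := by
    simp [Phi, rays, levelR, pot]
  refine ⟨h, by simp, by simp, ?_, ?_, ?_, ?_, ?_, ?_, ?_⟩
  · intro S hS; simp at hS
  · intro S hS; simp at hS
  · exact List.Pairwise.nil
  · intro l k hk; simp at hk
  · intro l k hk; simp at hk
  · rw [h0]
  · intro q
    rw [h0]
    simp [rays, V_nil]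

/-- the data of the epochs: epoch `j` consists of the times `T j ≤ t < T (j+1)` -/
structure Ep (m b : ℕ → ℕ) (n : ℕ) where
  T : ℕ → ℕ
  π : ℕ → Par
  th : ℕ
  hT : ∀ j, T j < T (j + 1)
  hT0 : 1 ≤ T 0
  hm : ∀ t, m t ≤ 1
  hπth : ∀ j, (π j).th = th
  hπn : ∀ j, (π j).n = n
  hπM : ∀ j, (π j).M = 1
  hπK : ∀ j, 1 ≤ (π j).K
  hπN : ∀ j, T (j + 1) ≤ (π j).Nm
  hφ : ∀ j, T (j + 1) * (π j).dl < (π j).W ^ ((π j).K - 1) * (π j).A1 * (π j).h
  hth : 1 ≤ th
  hn : T 0 + 4 * th + 2 ≤ n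
  hb1 : ∀ j t, T j ≤ t → (π j).B0 ≤ b t
  hb2 : ∀ j t, T (j + 1) ≤ t + 1 → (π j).B0 + 2 * T j ^ 2 ≤ b t

/-- the state invariant at time `t` -/
def State {m b : ℕ → ℕ} {n : ℕ} (e : Ep m b n) (t : ℕ) (Mk Br : Finset (ℤ × ℤ)) : Prop :=
  ∃ (j : ℕ) (O E : Finset (ℤ × ℤ)) (R : List (Rec LL)) (φ : ℕ),
    e.T j ≤ t ∧ t < e.T (j + 1) ∧ Mk = O ∪ E ∧ Disjoint Mk Br ∧
    Inv G2 (e.π j) (Mk ∪ Br) Br E R φ ∧
    φ + (e.T (j + 1) - t) * (e.π j).dl < (e.π j).W ^ ((e.π j).K - 1) * (e.π j).A1 * (e.π j).h ∧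
    E.card ≤ t - e.T j ∧ O.card ≤ e.T j ∧
    (∀ l k, (∃ i, G2.pt l i ∉ Mk ∪ Br ∧ Conn G2 Br l k i) →
      lvI G2 O Br l k ≤ e.T 0 + 2 * e.th) ∧
    (∀ l k, G2.pt l k ∈ Mk → lvI G2 Mk Br l k < n)

theorem state_step {m b : ℕ → ℕ} {n : ℕ} (e : Ep m b n) {t : ℕ} {Mk Br : Finset (ℤ × ℤ)}
    (hS : State e t Mk Br) (A : Finset (ℤ × ℤ)) (hA1 : A.card = m t)
    (hA : Disjoint A (Mk ∪ Br)) :
    (∀ l k, G2.pt l k ∈ Mk ∪ A → lvI G2 (Mk ∪ A) Br l k < n) ∧
    ∃ C, C.card = b t ∧ Disjoint C (Mk ∪ A ∪ Br) ∧ State e (t + 1) (Mk ∪ A) (Br ∪ C) := by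
  obtain ⟨j, O, E, R, φ, ht1, ht2, hMk, hd, hI, hφ, hE, hO, hold, hall⟩ := hS
  have hAM : A.card ≤ (e.π j).M := by rw [e.hπM, hA1]; exact e.hm t
  have hA1' : A.card ≤ 1 := by rw [hA1]; exact e.hm t
  have hn := e.hn
  -- no win
  have hwin : ∀ l k, G2.pt l k ∈ Mk ∪ A → lvI G2 (Mk ∪ A) Br l k < n := by
    intro l k hk
    by_cases hns : ∃ i, G2.pt l i ∉ Mk ∪ Br ∧ Conn G2 Br l k i
    · have h1 := hold l k hns
      have h2 := hI.small hns
      rw [e.hπth] at h2
      have h3 := lvI_union G2 Mk A Br l k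
      have h4 := lvI_le_card G2 A Br l k
      have h5 := lvI_union G2 O E Br l k
      rw [← hMk] at h5
      omega
    · push Not at hns
      have h0 : lvI G2 A Br l k = 0 := by
        unfold lvI
        rw [Finset.card_eq_zero, Finset.filter_eq_empty_iff]
        rintro q hq ⟨i, h1, h2⟩
        exact hns i (by rw [h1]; exact Finset.disjoint_left.1 hA hq) h2
      have hkM : G2.pt l k ∈ Mk := by
        rcases Finset.mem_union.1 hk with h | h
        · exact h
        · exfalso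
          have h1 : G2.pt l k ∉ Mk ∪ Br := Finset.disjoint_left.1 hA h
          exact hns k h1 (Conn.refl G2 fun h2 => h1 (Finset.mem_union_right _ h2))
      have h2 := lvI_union G2 Mk A Br l k
      have h3 := hall l k hkM
      omega
  refine ⟨hwin, ?_⟩
  -- Breaker's turn
  have hN : (E ∪ A).card ≤ (e.π j).Nm := by
    have h1 := Finset.card_union_le E A
    have h2 := e.hπN j
    omega
  have hφ0 : φ < (e.π j).W ^ ((e.π j).K - 1) * (e.π j).A1 * (e.π j).h := by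
    have : 0 ≤ (e.T (j + 1) - t) * (e.π j).dl := Nat.zero_le _
    omega
  obtain ⟨C1, hC1a, hC1b, hC1c⟩ := turn hI (e.hπK j) hφ0 A hA hAM hN
  have hperm : Mk ∪ A ∪ Br = Mk ∪ Br ∪ A := by
    rw [Finset.union_assoc, Finset.union_comm A Br, ← Finset.union_assoc]
  have hdA : Disjoint A Br := Finset.disjoint_of_subset_right Finset.subset_union_right hA
  have hdMA : Disjoint (Mk ∪ A) Br := by
    rw [Finset.disjoint_union_left]
    exact ⟨hd, hdA⟩
  have hOcl : O ⊆ Mk ∪ Br ∪ A := by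
    rw [hMk]
    exact (Finset.subset_union_left.trans Finset.subset_union_left).trans
      Finset.subset_union_left
  -- monotone facts for any Breaker set
  have hcl : ∀ C : Finset (ℤ × ℤ), Mk ∪ Br ∪ A ∪ C = (Mk ∪ A) ∪ (Br ∪ C) := by
    intro C
    rw [← hperm, Finset.union_assoc (Mk ∪ A) Br C]
  have hdC : ∀ C : Finset (ℤ × ℤ), Disjoint C (Mk ∪ Br ∪ A) → Disjoint (Mk ∪ A) (Br ∪ C) := by
    intro C hC
    rw [Finset.disjoint_union_right]
    refine ⟨hdMA, ?_⟩
    rw [← hperm] at hC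
    exact (Finset.disjoint_of_subset_right Finset.subset_union_left hC).symm
  have hallC : ∀ C : Finset (ℤ × ℤ), ∀ l k, G2.pt l k ∈ Mk ∪ A →
      lvI G2 (Mk ∪ A) (Br ∪ C) l k < n := by
    intro C l k hk
    exact lt_of_le_of_lt (lvI_mono G2 _ Finset.subset_union_left l k) (hwin l k hk)
  by_cases hlast : t + 1 = e.T (j + 1)
  · -- end of the epoch
    obtain ⟨C2, hC2a, hC2b, hC2c⟩ := kill_old G2 (Mk ∪ Br ∪ A) Br O hOcl
    have hdis : Disjoint (C1 ∪ C2) (Mk ∪ Br ∪ A) := by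
      rw [Finset.disjoint_union_left]
      exact ⟨hC1b, hC2b⟩
    have hcard : (C1 ∪ C2).card ≤ b t := by
      have h1 := Finset.card_union_le C1 C2
      have h2 := e.hb2 j t (by omega)
      have h3 : O.card ^ 2 ≤ e.T j ^ 2 := Nat.pow_le_pow_left hO 2
      omega
    obtain ⟨C, h1, h2, h3⟩ := extend (Mk ∪ Br ∪ A) (b t - (C1 ∪ C2).card) (C1 ∪ C2) hdis
    refine ⟨C, by omega, by rw [hperm]; exact h2, ?_⟩
    have hC1C : C1 ⊆ C := Finset.subset_union_left.trans h1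
    have hC2C : C2 ⊆ C := Finset.subset_union_right.trans h1
    obtain ⟨R', hI'⟩ := hC1c C hC1C h2
    rw [hcl] at hI'
    refine ⟨j + 1, Mk ∪ A, ∅, [], 0, by omega, ?_, by simp, hdC C h2, ?_, ?_, by simp, ?_, ?_,
      hallC C⟩
    · have := e.hT (j + 1)
      omega
    · exact Inv_empty _ (by rw [e.hπth]; exact e.hth) (by rw [e.hπn]; omega) _ _
        Finset.subset_union_right
    · have h4 := e.hφ (j + 1)
      have h5 : (e.T (j + 1 + 1) - (t + 1)) * (e.π (j + 1)).dl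
          ≤ e.T (j + 1 + 1) * (e.π (j + 1)).dl := Nat.mul_le_mul_right _ (by omega)
      omega
    · have h4 := Finset.card_union_le Mk A
      have h5 := Finset.card_union_le O E
      rw [← hMk] at h5
      omega
    · intro l k hns
      have hns' : ∃ i, G2.pt l i ∉ (Mk ∪ A) ∪ (Br ∪ C) ∧ Conn G2 (Br ∪ C) l k i := hns
      have h4 := hI'.small hns'
      rw [e.hπth] at h4
      have h5 := hC2c ((Mk ∪ A) ∪ (Br ∪ C)) (Br ∪ C)
        (by rw [← hcl]; exact Finset.union_subset_union_right hC2C)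
        (Finset.union_subset_union_right hC2C) l k hns'
      have h6 : Mk ∪ A = O ∪ (E ∪ A) := by rw [hMk, Finset.union_assoc]
      have h7 := lvI_union G2 O (E ∪ A) (Br ∪ C) l k
      rw [← h6] at h7
      have h8 := e.hT0
      omega
  · -- inside the epoch
    have hcard : C1.card ≤ b t := hC1a.trans (e.hb1 j t ht1)
    obtain ⟨C, h1, h2, h3⟩ := extend (Mk ∪ Br ∪ A) (b t - C1.card) C1 hC1b
    refine ⟨C, by omega, by rw [hperm]; exact h2, ?_⟩
    obtain ⟨R', hI'⟩ := hC1c C h1 h2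
    rw [hcl] at hI'
    refine ⟨j, O, E ∪ A, R', φ + (e.π j).dl, by omega, by omega, ?_, hdC C h2, hI', ?_, ?_, hO,
      ?_, hallC C⟩
    · rw [hMk, Finset.union_assoc]
    · obtain ⟨g, hg⟩ : ∃ g, e.T (j + 1) - t = g + 1 := ⟨e.T (j + 1) - t - 1, by omega⟩
      have h4 : e.T (j + 1) - (t + 1) = g := by omega
      rw [hg] at hφ
      rw [h4]
      have h5 : (g + 1) * (e.π j).dl = g * (e.π j).dl + (e.π j).dl := by ring
      omega
    · have h4 := Finset.card_union_le E A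
      omega
    · rintro l k ⟨i, hi1, hi2⟩
      refine le_trans (lvI_mono G2 O (Finset.subset_union_left : Br ⊆ Br ∪ C) l k) ?_
      refine hold l k ⟨i, fun h => hi1 ?_, Conn.mono G2 Finset.subset_union_left hi2⟩
      rw [← hcl]
      exact Finset.mem_union_left _ (Finset.mem_union_left _ h)

theorem not_forces_of_state {m b : ℕ → ℕ} {n : ℕ} (e : Ep m b n) :
    ∀ (k t : ℕ) (Mk Br : Finset (ℤ × ℤ)), State e t Mk Br → ¬ Forces m b n k t Mk Br := by
  intro k
  induction k with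
  | zero => intro t Mk Br _ h; exact h
  | succ k ih =>
    rintro t Mk Br hS ⟨A, hA1, hA2, hA3⟩
    obtain ⟨hwin, C, hC1, hC2, hC3⟩ := state_step e hS A hA1 hA2
    rcases hA3 with hw | hC
    · have hn := e.hn
      obtain ⟨l, i, h1, h2⟩ := winSeg_lvI (by omega) hw
      have := hwin l i h1
      omega
    · exact ih _ _ _ hC3 (hC C hC1 hC2)

theorem not_forces {m b : ℕ → ℕ} {n : ℕ} (e : Ep m b n) :
    ∀ (k t : ℕ) (Mk Br : Finset (ℤ × ℤ)), t ≤ e.T 0 → Disjoint Mk Br → Mk.card ≤ t →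
      ¬ Forces m b n k t Mk Br := by
  have hn := e.hn
  intro k
  induction k with
  | zero => intro t Mk Br _ _ _ h; exact h
  | succ k ih =>
    intro t Mk Br ht hd hcard
    rcases lt_or_eq_of_le ht with hlt | heq
    · rintro ⟨A, hA1, hA2, hA3⟩
      have hm := e.hm t
      have hcard' : (Mk ∪ A).card ≤ t + 1 := by
        have := Finset.card_union_le Mk A
        omega
      rcases hA3 with ⟨X, hX1, hX2, _⟩ | hC
      · have := Finset.card_le_card hX1
        omega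
      · obtain ⟨C', _, h2, h3⟩ := extend (Mk ∪ A ∪ Br) (b t) ∅ (by simp)
        have h6 := hC C' (by simpa using h3) h2
        refine ih (t + 1) (Mk ∪ A) (Br ∪ C') (by omega) ?_ hcard' h6
        rw [Finset.disjoint_union_right]
        constructor
        · rw [Finset.disjoint_union_left]
          exact ⟨hd, Finset.disjoint_of_subset_right Finset.subset_union_right hA2⟩
        · exact (Finset.disjoint_of_subset_right Finset.subset_union_left h2).symm
    · apply not_forces_of_state e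
      refine ⟨0, Mk, ∅, [], 0, by omega, ?_, by simp, hd, ?_, ?_, by simp, by omega, ?_, ?_⟩
      · have := e.hT 0
        omega
      · exact Inv_empty _ (by rw [e.hπth]; exact e.hth) (by rw [e.hπn]; omega) _ _
          Finset.subset_union_right
      · have h4 := e.hφ 0
        have h5 : (e.T (0 + 1) - t) * (e.π 0).dl ≤ e.T (0 + 1) * (e.π 0).dl :=
          Nat.mul_le_mul_right _ (by omega)
        omega
      · intro l i _
        have := lvI_le_card G2 Mk Br l i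
        omega
      · intro l i _
        have := lvI_le_card G2 Mk Br l i
        omega

end Pool.Agent.R183.PL
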