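import Pool.Agent.R183.PL.F1

/-! The case of one Maker point per turn: parameters. -/

open Classical Filter

namespace Pool.Agent.R183.PL

/-- Lm of the epoch with parameter `y` -/
def Lf (g K y : ℕ) : ℕ :=
  (4 * (g * y) + 2) + (4 * (g * y) + 2) * ((4 * (g * y) + 2) + (y / 2 + 1) * K) + 1

def bf (g K y : ℕ) : ℕ :=
  16 * ((4 * (g * y) + 2) + 1) * (2 * 2 ^ (y / 2 + 1) * (1 + Lf g K y))

/-- parameters of an epoch; `g = G R` -/
def par1 (g K y n : ℕ) (hn : 2 * (8 * K + 8) + 1 ≤ n) : Par where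
  W := 2 ^ (y / 2 + 1)
  p := 4 * (g * y) + 2
  h := 2
  th := 8 * K + 8
  n := n
  K := K
  M := 1
  A1 := 2 * 2 ^ (y / 2 + 1) * (1 + Lf g K y)
  Q0 := 4 * K + 5
  Nm := 2 ^ (g * y)
  Lm := Lf g K y
  b := bf g K y
  hW := Nat.one_le_two_pow
  hp := by omega
  hh := le_refl _
  hQ0 := by omega
  hQK := by omega
  hn := hn
  hNm := by
    refine le_of_eq ?_
    rw [mul_pow, ← pow_mul, ← pow_mul, ← pow_add]
    congr 1
    ring
  hLm := by
    rw [← pow_mul, ← pow_add, ← pow_mul, ← pow_add]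
    apply Nat.pow_lt_pow_right (by norm_num)
    unfold Lf
    have : (4 * (g * y) + 2 + (y / 2 + 1) * K) * (4 * (g * y) + 2)
        = (4 * (g * y) + 2) * ((4 * (g * y) + 2) + (y / 2 + 1) * K) := by ring
    omega
  hA1 := le_refl _
  hb := by
    unfold bf
    refine le_of_eq ?_
    ring

theorem bf_small (g K : ℕ) : ∃ y0, 1 ≤ y0 ∧ ∀ y, y0 ≤ y → bf g K y + 1 ≤ 2 ^ y := by
  set C1 := 4 * g + 3 with hC1
  set C2 := 2 + C1 + C1 ^ 2 + 2 * C1 * K with hC2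
  obtain ⟨s0, hs0⟩ := eventually_atTop.1 ((poly_le (65 * (C1 * C2) * 27) 3).and
    (eventually_ge_atTop 1))
  refine ⟨2 * s0 + 2, by omega, fun y hy => ?_⟩
  have h1 := (hs0 (y / 2) (by omega)).1
  have h2 := (hs0 (y / 2) (by omega)).2
  set s := y / 2 with hs
  have hy1 : 1 ≤ y := by omega
  have hy3 : y ≤ 3 * s := by omega
  have e1 : 4 * (g * y) + 2 + 1 ≤ C1 * y := by
    have : C1 * y = 4 * (g * y) + 3 * y := by rw [hC1]; ring
    omega
  have e2 : 1 + Lf g K y ≤ C2 * y ^ 2 := by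
    unfold Lf
    set p := 4 * (g * y) + 2 with hp
    have hpC : p ≤ C1 * y := by omega
    have h3 : p + (y / 2 + 1) * K ≤ C1 * y + 2 * y * K := by
      have : (y / 2 + 1) * K ≤ 2 * y * K := Nat.mul_le_mul_right _ (by omega)
      omega
    have h4 : p * (p + (y / 2 + 1) * K) ≤ C1 * y * (C1 * y + 2 * y * K) := Nat.mul_le_mul hpC h3
    have h5 : C1 * y * (C1 * y + 2 * y * K) = (C1 ^ 2 + 2 * C1 * K) * y ^ 2 := by ring
    have h6 : y ≤ y ^ 2 := by nlinarith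
    have h7 : C1 * y ≤ C1 * y ^ 2 := Nat.mul_le_mul_left _ h6
    have h8 : 1 ≤ y ^ 2 := Nat.one_le_pow _ _ hy1
    have h9 : C2 * y ^ 2 = 2 * y ^ 2 + C1 * y ^ 2 + (C1 ^ 2 + 2 * C1 * K) * y ^ 2 := by
      rw [hC2]; ring
    omega
  have e3 : bf g K y ≤ 64 * (C1 * C2) * y ^ 3 * 2 ^ s := by
    unfold bf
    rw [← hs]
    calc 16 * (4 * (g * y) + 2 + 1) * (2 * 2 ^ (s + 1) * (1 + Lf g K y))
        ≤ 16 * (C1 * y) * (2 * 2 ^ (s + 1) * (C2 * y ^ 2)) := by gcongr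
      _ = 64 * (C1 * C2) * y ^ 3 * 2 ^ s := by ring
  have e4 : 1 ≤ C1 * C2 * y ^ 3 * 2 ^ s := by
    have a1 : 1 ≤ C1 := by omega
    have a2 : 1 ≤ C2 := by omega
    have a3 : 1 ≤ y ^ 3 := Nat.one_le_pow _ _ hy1
    have a4 : 1 ≤ 2 ^ s := Nat.one_le_two_pow
    exact Nat.mul_pos (Nat.mul_pos (Nat.mul_pos a1 a2) a3) a4
  have e5 : y ^ 3 ≤ 27 * s ^ 3 := by
    calc y ^ 3 ≤ (3 * s) ^ 3 := Nat.pow_le_pow_left hy3 3
      _ = 27 * s ^ 3 := by ring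
  calc bf g K y + 1 ≤ 64 * (C1 * C2) * y ^ 3 * 2 ^ s + C1 * C2 * y ^ 3 * 2 ^ s := by omega
    _ = 65 * (C1 * C2) * y ^ 3 * 2 ^ s := by ring
    _ ≤ 65 * (C1 * C2) * (27 * s ^ 3) * 2 ^ s := by gcongr
    _ = (65 * (C1 * C2) * 27 * s ^ 3) * 2 ^ s := by ring
    _ ≤ 2 ^ s * 2 ^ s := Nat.mul_le_mul_right _ h1
    _ = 2 ^ (s + s) := by rw [pow_add]
    _ ≤ 2 ^ y := Nat.pow_le_pow_right (by norm_num) (by omega)

theorem b_lower {β : ℝ} (hβ : 0 < β) {b : ℕ → ℕ} (hb : ∀ t : ℕ, |(b t : ℝ) - (t : ℝ) ^ β| ≤ 1)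
    {g : ℕ} (hg : 1 ≤ (g : ℝ) * β) {y t : ℕ} (ht : 2 ^ (g * y) ≤ t) : 2 ^ y ≤ b t + 1 := by
  have h1 := (abs_le.1 (hb t)).1
  have h2 : (((2 ^ (g * y) : ℕ) : ℝ)) ^ β ≤ (t : ℝ) ^ β :=
    Real.rpow_le_rpow (by positivity) (by exact_mod_cast ht) hβ.le
  have h3 : ((2 : ℝ)) ^ (y : ℝ) ≤ (((2 ^ (g * y) : ℕ) : ℝ)) ^ β := by
    push_cast
    rw [← Real.rpow_natCast, ← Real.rpow_mul (by norm_num)]
    refine Real.rpow_le_rpow_of_exponent_le (by norm_num) ?_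
    push_cast
    have : (0 : ℝ) ≤ y := by positivity
    nlinarith
  rw [Real.rpow_natCast] at h3
  have h4 : ((2 ^ y : ℕ) : ℝ) ≤ ((b t + 1 : ℕ) : ℝ) := by
    push_cast
    linarith
  exact_mod_cast h4

theorem epochs {β : ℝ} (hβ : 0 < β) {m b : ℕ → ℕ} (hm : ∀ t, m t ≤ 1)
    (hb : ∀ t : ℕ, |(b t : ℝ) - (t : ℝ) ^ β| ≤ 1) :
    ∃ N, ∀ n, N ≤ n → Nonempty (Ep m b n) := by
  obtain ⟨g0, hg0⟩ := exists_nat_ge (1 / β)
  set g := g0 + 1 with hg
  have hgβ : 1 ≤ (g : ℝ) * β := by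
    rw [div_le_iff₀ hβ] at hg0
    rw [hg]
    push_cast
    nlinarith
  have hg1 : 1 ≤ g := by omega
  set R := 2 * g + 3 with hR
  set K := 6 * (g * R) with hK
  have hK1 : 1 ≤ K := by
    have : 1 ≤ g * R := Nat.mul_pos hg1 (by omega)
    omega
  obtain ⟨y0, hy0, hbf⟩ := bf_small (g * R) K
  let Y : ℕ → ℕ := fun j => y0 * R ^ j
  have hY1 : ∀ j, y0 ≤ Y j := fun j => Nat.le_mul_of_pos_right _ (by positivity)
  have hYs : ∀ j, Y (j + 1) = R * Y j := by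
    intro j
    simp only [Y, pow_succ]
    ring
  refine ⟨2 ^ (g * y0) + 4 * (8 * K + 8) + 2, fun n hn => ⟨?_⟩⟩
  have hpos : 1 ≤ 2 ^ (g * y0) := Nat.one_le_two_pow
  have hB0 : ∀ j, (par1 (g * R) K (Y j) n (by omega)).B0 = bf (g * R) K (Y j) := by
    intro j
    change 2 * (n / (8 * K + 8)) * (1 ^ 2 / (2 * (2 - 1))) + bf (g * R) K (Y j) = _
    norm_num
  refine
    { T := fun j => 2 ^ (g * Y j)
      π := fun j => par1 (g * R) K (Y j) n (by omega)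
      th := 8 * K + 8
      hT := ?_
      hT0 := Nat.one_le_two_pow
      hm := hm
      hπth := fun _ => rfl
      hπn := fun _ => rfl
      hπM := fun _ => rfl
      hπK := fun _ => hK1
      hπN := ?_
      hφ := ?_
      hth := by omega
      hn := ?_
      hb1 := ?_
      hb2 := ?_ }
  · intro j
    apply Nat.pow_lt_pow_right (by norm_num)
    rw [hYs]
    have h1 := hY1 j
    have h2 : g * (R * Y j) = (g * Y j) * R := by ring
    rw [h2]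
    have h3 : 1 ≤ g * Y j := Nat.mul_pos hg1 (by omega)
    have h4 : (g * Y j) * 2 ≤ (g * Y j) * R := Nat.mul_le_mul_left _ (by omega)
    omega
  · intro j
    change 2 ^ (g * Y (j + 1)) ≤ 2 ^ (g * R * Y j)
    rw [hYs]
    refine le_of_eq ?_
    congr 1
    ring
  · intro j
    change 2 ^ (g * Y (j + 1)) * (2 * (2 * (1 + Lf (g * R) K (Y j))) * (2 ^ (g * R * Y j)) ^ 2)
      < (2 ^ (Y j / 2 + 1)) ^ (K - 1) * (2 * 2 ^ (Y j / 2 + 1) * (1 + Lf (g * R) K (Y j))) * 2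
    rw [hYs]
    set y := Y j with hy
    set ll := 1 + Lf (g * R) K y with hll
    have hll1 : 1 ≤ ll := by omega
    have e1 : 2 ^ (g * (R * y)) * (2 * (2 * ll) * (2 ^ (g * R * y)) ^ 2)
        = 2 ^ (3 * (g * R * y)) * (4 * ll) := by
      have : 2 ^ (3 * (g * R * y)) = 2 ^ (g * (R * y)) * (2 ^ (g * R * y)) ^ 2 := by
        rw [← pow_mul, ← pow_add]
        congr 1
        ring
      rw [this]
      ring
    have e2 : (2 ^ (y / 2 + 1)) ^ (K - 1) * (2 * 2 ^ (y / 2 + 1) * ll) * 2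
        = 2 ^ ((y / 2 + 1) * K) * (4 * ll) := by
      have : 2 ^ ((y / 2 + 1) * K) = (2 ^ (y / 2 + 1)) ^ (K - 1) * 2 ^ (y / 2 + 1) := by
        rw [← pow_succ, Nat.sub_add_cancel hK1, ← pow_mul]
      rw [this]
      ring
    rw [e1, e2]
    refine Nat.mul_lt_mul_of_pos_right ?_ (by omega)
    apply Nat.pow_lt_pow_right (by norm_num)
    have h5 : (y / 2 + 1) * K = (2 * (y / 2 + 1)) * (3 * (g * R)) := by rw [hK]; ring
    have h6 : 3 * (g * R * y) = y * (3 * (g * R)) := by ring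
    rw [h5, h6]
    refine Nat.mul_lt_mul_of_pos_right (by omega) ?_
    have : 1 ≤ g * R := Nat.mul_pos hg1 (by omega)
    omega
  · change 2 ^ (g * (y0 * R ^ 0)) + 4 * (8 * K + 8) + 2 ≤ n
    rw [pow_zero, mul_one]
    exact hn
  · intro j t ht
    rw [hB0]
    have h1 := hbf (Y j) (hY1 j)
    have h2 := b_lower hβ hb hgβ ht
    omega
  · intro j t ht
    rw [hB0]
    have h1 := hbf (Y j) (hY1 j)
    set y := Y j with hy
    have hyp : 1 ≤ y := hy0.trans (hY1 j)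
    have ht' : 2 ^ (g * Y (j + 1)) ≤ t + 1 := ht
    rw [hYs, ← hy] at ht'
    have h3 : 2 ^ (g * (R * y - 1)) ≤ t := by
      have h4 : g * (R * y) = g * (R * y - 1) + g := by
        have : R * y = (R * y - 1) + 1 := by
          have : 1 ≤ R * y := Nat.mul_pos (by omega) hyp
          omega
        calc g * (R * y) = g * ((R * y - 1) + 1) := by rw [← this]
          _ = g * (R * y - 1) + g := by ring
      rw [h4, pow_add] at ht'
      have h5 : 2 ^ (g * (R * y - 1)) * 2 ≤ 2 ^ (g * (R * y - 1)) * 2 ^ g := by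
        refine Nat.mul_le_mul_left _ ?_
        calc 2 = 2 ^ 1 := rfl
          _ ≤ 2 ^ g := Nat.pow_le_pow_right (by norm_num) hg1
      have h6 : 1 ≤ 2 ^ (g * (R * y - 1)) := Nat.one_le_two_pow
      omega
    have h7 := b_lower hβ hb hgβ h3
    have h8 : 2 * (g * y) + 2 * y ≤ R * y - 1 := by
      have : R * y = 2 * (g * y) + 3 * y := by rw [hR]; ring
      omega
    have h9 : 2 ^ (2 * (g * y) + 2 * y) ≤ b t + 1 :=
      (Nat.pow_le_pow_right (by norm_num) h8).trans h7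
    have h10 : 2 ^ (2 * (g * y) + 2 * y) = (2 ^ (g * y)) ^ 2 * 4 ^ y := by
      rw [pow_add, ← pow_mul 2 (g * y) 2, mul_comm (g * y) 2, show (4 : ℕ) = 2 ^ 2 from rfl,
        ← pow_mul 2 2 y]
    have h11 : 4 ≤ 4 ^ y := by
      calc 4 = 4 ^ 1 := rfl
        _ ≤ 4 ^ y := Nat.pow_le_pow_right (by norm_num) hyp
    have h12 : 2 ^ y ≤ (2 ^ (g * y)) ^ 2 := by
      rw [← pow_mul]
      apply Nat.pow_le_pow_right (by norm_num)
      have : 1 * y ≤ g * y := Nat.mul_le_mul_right _ hg1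
      omega
    have h13 : (2 ^ (g * y)) ^ 2 * 4 ≤ (2 ^ (g * y)) ^ 2 * 4 ^ y := Nat.mul_le_mul_left _ h11
    change bf (g * R) K y + 2 * (2 ^ (g * y)) ^ 2 ≤ b t
    omega

/-- If Maker claims at most one point per turn and Breaker about `t ^ β` points with `β > 0`,
then the game is not a Maker win. -/
theorem not_makerWin_one (β : ℝ) (hβ : 0 < β) (m b : ℕ → ℕ) (hm : ∀ t, m t ≤ 1)
    (hb : ∀ t : ℕ, |(b t : ℝ) - (t : ℝ) ^ β| ≤ 1) : ¬ MakerWin m b := by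
  rintro ⟨ε, _, hev⟩
  obtain ⟨N, hN⟩ := epochs hβ hm hb
  obtain ⟨n, h1, h2⟩ := (hev.and (eventually_ge_atTop N)).exists
  obtain ⟨τ, h3, _⟩ := h1
  obtain ⟨e⟩ := hN n h2
  exact not_forces e τ 1 ∅ ∅ e.hT0 (by simp) (by simp) h3.1

end Pool.Agent.R183.PL
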